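import Mathlib
import Pool.Graph.R_seed8.Helper126.Sus.Forc
import Pool.Graph.R_seed8.W876.Two.Gen

/-!
Embeddings of the tree of finite sequences of labels, the guiding principle, and unbounded
families of functions: for actual objects, and in the forcing language. See
`Pool.Agent.Helper126.Sus.Forc` for the forcing language. Additivity numbers.
-/

set_option autoImplicit false

namespace Pool.Agent.H735.FM

open Pool.Agent.Helper126.Sus.Forc
open Pool.Agent.W876.Two.Gen (IsFun)

/-- A label is a natural number. It codes a finite sequence of natural numbers (its string) and a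
natural number (its index). This is the string of the label `a`. -/
def str (a : ℕ) : List ℕ := (Denumerable.ofNat (List ℕ × ℕ) a).1

/-- A relation for embeddings of the tree of the finite sequences of labels into itself. Here `s`,
`t`, `t'` are the images of the sequences `u`, `u ++ [a]`, `u ++ [b]`, and `m`, `m'` are the
numbers `l` and `l + 1` in the list of the free positions at `u`. The free positions are
increasing. The image of `u ++ [a]` extends the image of `u` by a label `c` (and possibly more
labels) such that the entry of the string of `c` at the `l`-th free position is the `l`-th entry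
of the string of `a`, and the image of `u ++ [b]` does not extend the image of `u` by the same
label `c` unless `b = a`. -/
def EmbRel (a b l : ℕ) (s t t' : List ℕ) (m m' : ℕ) : Prop :=
  m < m' ∧ ∃ c, s ++ [c] <+: t ∧ (l < (str a).length → (str c)[m]? = (str a)[l]?) ∧
    (s ++ [c] <+: t' → a = b)

/-- The function `tr` is an embedding of the tree of the finite sequences of labels into itself,
and `pos u 0 < pos u 1 < …` are free positions at `u`, for every `u`. -/
def IsEmb (tr : List ℕ → List ℕ) (pos : List ℕ → ℕ → ℕ) : Prop :=
  ∀ u a b l, EmbRel a b l (tr u) (tr (u ++ [a])) (tr (u ++ [b])) (pos u l) (pos u (l + 1))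

/-- The guiding principle for the family `T` of maps, indexed by `W`: for all embeddings
`F ξ w` (`ξ` in `K`, `w` in `W`) there is a sequence `y` such that for every `ξ` there is `w` such
that `y` is a branch of the image of the composition of `T w` and `F ξ w`. -/
def Guide (K W : Type) (T : W → List ℕ → List ℕ) : Prop :=
  ∀ (F : K → W → List ℕ → List ℕ) (G : K → W → List ℕ → ℕ → ℕ),
    (∀ ξ w, IsEmb (F ξ w) (G ξ w)) →
      ∃ y : ℕ → ℕ, ∀ ξ, ∃ w, ∀ n, ∃ u : List ℕ, u.length = n ∧
        ∀ i, i < (T w (F ξ w u)).length → y i = (T w (F ξ w u)).getD i 0

/-- The functions `g b`, `b` in `K`, are an unbounded family. -/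
def Unb (K : Type) (g : K → ℕ → ℕ) : Prop :=
  ∀ f : ℕ → ℕ, ∃ b, ∀ k, ∃ n, k ≤ n ∧ f n < g b n

section forcing

variable {P : Type} [Preorder P]

/-- The forcing version of `IsEmb`. -/
def EmbN (tr : List ℕ → List ℕ → Set P) (pos : List ℕ → ℕ → ℕ → Set P) : Set P :=
  fand (fand (IsFun tr) (fall fun u => IsFun (pos u)))
    (fall fun u => fall fun a => fall fun b => fall fun l =>
      fex fun s => fex fun t => fex fun t' => fex fun m => fex fun m' =>
        fand (fand (meets (tr u s)) (fand (meets (tr (u ++ [a]) t)) (meets (tr (u ++ [b]) t'))))
          (fand (fand (meets (pos u l m)) (meets (pos u (l + 1) m')))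
            (fground (EmbRel a b l s t t' m m'))))

/-- The forcing version of: the sequence `y` extends the finite sequence `s`. -/
def ExtN (y : ℕ → ℕ → Set P) (s : List ℕ) : Set P :=
  fall fun i => fall fun _ : i < s.length => meets (y i (s.getD i 0))

/-- The forcing version of `Guide`. -/
def GuideN {K W : Type} (T : W → List ℕ → List ℕ → Set P) : Set P :=
  fall fun F : K → W → List ℕ → List ℕ → Set P => fall fun G : K → W → List ℕ → ℕ → ℕ → Set P =>
    fimp (fall fun ξ => fall fun w => EmbN (F ξ w) (G ξ w))
      (fex fun y : ℕ → ℕ → Set P => fand (IsFun y)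
        (fall fun ξ => fex fun w => fall fun n => fex fun u : List ℕ => fex fun s => fex fun t =>
          fand (fground (u.length = n))
            (fand (meets (F ξ w u s)) (fand (meets (T w s t)) (ExtN y t)))))

/-- The forcing version of `Unb`. -/
def UnbN {K : Type} (g : K → ℕ → ℕ → Set P) : Set P :=
  fall fun f : ℕ → ℕ → Set P => fimp (IsFun f)
    (fex fun b => fall fun k => fex fun n => fex fun v => fex fun v' =>
      fand (fground (k ≤ n ∧ v < v')) (fand (meets (f n v)) (meets (g b n v'))))

end forcing

/-! ### Additivity numbers -/

/-- The set `X` of real numbers, as a subspace of the real line, is Rothberger: from every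
sequence of nonempty covers by open sets one can choose one member each to get a cover. (The
members of the covers are given as open subsets of the real line. Nonemptiness of the covers only
matters if `X` is empty.) -/
def IsRothberger (X : Set ℝ) : Prop :=
  ∀ U : ℕ → Set (Set ℝ), (∀ n, (U n).Nonempty ∧ (∀ u ∈ U n, IsOpen u) ∧ X ⊆ ⋃₀ U n) →
    ∃ c : ℕ → Set ℝ, (∀ n, c n ∈ U n) ∧ X ⊆ ⋃ n, c n

/-- The additivity number of a class of sets of reals: the least cardinality of a family of
members of the class whose union is not in the class. -/
noncomputable def addOf (J : Set ℝ → Prop) : Cardinal.{0} :=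
  sInf {κ | ∃ F : Set (Set ℝ), (∀ X ∈ F, J X) ∧ ¬ J (⋃₀ F) ∧ Cardinal.mk F = κ}

end Pool.Agent.H735.FM
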