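import Mathlib
import Pool.Agent.H735.FM.Defs

/-!
An unbounded family of functions gives a family of null sets whose union is not null.
-/

set_option autoImplicit false

namespace Pool.Agent.H735.FM

open Set MeasureTheory Filter Topology

/-- the periodic set with period `2 ^ (-m)` and density `2 ^ (-n)` -/
def Cs (n m : ℕ) : Set ℝ :=
  ⋃ k : ℤ, Ioo ((k : ℝ) * (1 / 2) ^ m) (((k : ℝ) + (1 / 2) ^ n) * (1 / 2) ^ m)

theorem Cs_open (n m : ℕ) : IsOpen (Cs n m) := isOpen_iUnion (fun _ => isOpen_Ioo)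

/-- the null set of the function `f` -/
def Nf (f : ℕ → ℕ) : Set ℝ := {x | x ∈ Icc (0 : ℝ) 1 ∧ ∀ k, ∃ n, k ≤ n ∧ x ∈ Cs n (f n)}

theorem measure_Cs (n m : ℕ) : volume (Icc (0 : ℝ) 1 ∩ Cs n m) ≤ ENNReal.ofReal (3 * (1 / 2) ^ n) := by
  set r : ℝ := (1 / 2) ^ m with hr
  set c : ℝ := (1 / 2) ^ n with hc
  have hr0 : 0 < r := by positivity
  have hc0 : 0 < c := by positivity
  have hc1 : c ≤ 1 := pow_le_one₀ (by norm_num) (by norm_num)
  have h2r : r * 2 ^ m = 1 := by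
    rw [hr, ← mul_pow]
    norm_num
  have hsub : Icc (0 : ℝ) 1 ∩ Cs n m ⊆
      ⋃ k ∈ Finset.Icc (-1 : ℤ) (2 ^ m), Ioo ((k : ℝ) * r) (((k : ℝ) + c) * r) := by
    rintro x ⟨⟨hx0, hx1⟩, hx⟩
    obtain ⟨k, hk1, hk2⟩ := mem_iUnion.mp hx
    refine mem_iUnion₂.mpr ⟨k, ?_, hk1, hk2⟩
    rw [Finset.mem_Icc]
    constructor
    · have h1 : 0 < ((k : ℝ) + c) * r := lt_of_le_of_lt hx0 hk2
      have h2 : 0 < (k : ℝ) + c := (mul_pos_iff_of_pos_right hr0).mp h1
      have h3 : (-1 : ℝ) ≤ (k : ℝ) := by linarith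
      exact_mod_cast h3
    · have h1 : (k : ℝ) * r < r * 2 ^ m := by rw [h2r]; exact lt_of_lt_of_le hk1 hx1
      have h2 : (k : ℝ) < 2 ^ m := by
        rw [mul_comm] at h1
        exact lt_of_mul_lt_mul_left h1 hr0.le
      have h3 : (k : ℝ) ≤ ((2 ^ m : ℤ) : ℝ) := by push_cast; exact h2.le
      exact_mod_cast h3
  refine (measure_mono hsub).trans ((measure_biUnion_finset_le _ _).trans ?_)
  have hvol : ∀ k ∈ Finset.Icc (-1 : ℤ) (2 ^ m),
      volume (Ioo ((k : ℝ) * r) (((k : ℝ) + c) * r)) = ENNReal.ofReal (c * r) := by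
    intro k _
    rw [Real.volume_Ioo]
    congr 1
    ring
  rw [Finset.sum_congr rfl hvol, Finset.sum_const, nsmul_eq_mul, Int.card_Icc]
  have hcard : ((2 ^ m + 1 - (-1 : ℤ)).toNat : ℕ) = 2 ^ m + 2 := by
    have : (2 ^ m + 1 - (-1 : ℤ)) = ((2 ^ m + 2 : ℕ) : ℤ) := by push_cast; ring
    rw [this]
    exact Int.toNat_natCast _
  rw [hcard, ← ENNReal.ofReal_natCast, ← ENNReal.ofReal_mul (by positivity)]
  apply ENNReal.ofReal_le_ofReal
  push_cast
  have hr1 : r ≤ 1 := pow_le_one₀ (by norm_num) (by norm_num)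
  have : ((2 : ℝ) ^ m + 2) * (c * r) = c * (r * 2 ^ m) + 2 * c * r := by ring
  rw [this, h2r]
  nlinarith

theorem null_Nf (f : ℕ → ℕ) : volume (Nf f) = 0 := by
  have h1 : Nf f ⊆ limsup (fun n => Icc (0 : ℝ) 1 ∩ Cs n (f n)) atTop := by
    rintro x ⟨hx, h⟩
    rw [mem_limsup_iff_frequently_mem, frequently_atTop]
    intro k
    obtain ⟨n, hn, hxn⟩ := h k
    exact ⟨n, hn, hx, hxn⟩
  refine measure_mono_null h1 (measure_limsup_atTop_eq_zero ?_)
  have h2 : ∑' n, volume (Icc (0 : ℝ) 1 ∩ Cs n (f n)) ≤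
      ∑' n, ENNReal.ofReal (3 * (1 / 2) ^ n) := ENNReal.tsum_le_tsum (fun n => measure_Cs n (f n))
  have h3 : Summable (fun n : ℕ => (3 : ℝ) * (1 / 2) ^ n) :=
    summable_geometric_two.mul_left 3
  rw [← ENNReal.ofReal_tsum_of_nonneg (fun n => by positivity) h3] at h2
  exact ne_top_of_le_ne_top ENNReal.ofReal_ne_top h2

/-- a measurable set which is almost disjoint from `Cs n m` for infinitely many `m` is null -/
theorem null_of_Cs (n : ℕ) {A : Set ℝ} (hA : MeasurableSet A)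
    (h : ∀ M, ∃ m, M ≤ m ∧ volume (A ∩ Cs n m) = 0) : volume A = 0 := by
  set c : ℝ := (1 / 2) ^ n with hc
  have hc0 : 0 < c := by positivity
  have hc1 : c ≤ 1 := pow_le_one₀ (by norm_num) (by norm_num)
  have hae := Besicovitch.ae_tendsto_measure_inter_div_of_measurableSet (volume : Measure ℝ) hA
  have : ∀ᵐ x ∂(volume : Measure ℝ), x ∉ A := by
    filter_upwards [hae] with x hx hxA
    rw [Set.indicator_of_mem hxA] at hx
    have hr : Tendsto (fun m : ℕ => ((1 : ℝ) / 2) ^ m) atTop (𝓝[>] 0) := by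
      rw [tendsto_nhdsWithin_iff]
      exact ⟨tendsto_pow_atTop_nhds_zero_of_lt_one (by norm_num) (by norm_num),
        Eventually.of_forall (fun m => by simp)⟩
    have h1 := hx.comp hr
    have hlt : ENNReal.ofReal (1 - c / 2) < (1 : ℝ → ENNReal) x := by
      show ENNReal.ofReal (1 - c / 2) < 1
      rw [← ENNReal.ofReal_one]
      exact (ENNReal.ofReal_lt_ofReal_iff (by norm_num)).mpr (by linarith)
    obtain ⟨M, hM⟩ := eventually_atTop.mp ((tendsto_order.1 h1).1 _ hlt)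
    obtain ⟨m, hm, hmA⟩ := h M
    have h2 := hM m hm
    simp only [Function.comp_apply] at h2
    set r : ℝ := (1 / 2) ^ m with hrdef
    have hr0 : 0 < r := by positivity
    set k : ℤ := ⌊x / r⌋ with hk
    have hk1 : (k : ℝ) * r ≤ x := by
      have := Int.floor_le (x / r)
      rw [le_div_iff₀ hr0] at this
      exact this
    have hk2 : x < ((k : ℝ) + 1) * r := by
      have := Int.lt_floor_add_one (x / r)
      rw [div_lt_iff₀ hr0] at this
      exact this
    set J := Ioo ((k : ℝ) * r) (((k : ℝ) + c) * r) with hJ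
    have hJC : J ⊆ Cs n m := subset_iUnion (fun k : ℤ =>
      Ioo ((k : ℝ) * (1 / 2) ^ m) (((k : ℝ) + (1 / 2) ^ n) * (1 / 2) ^ m)) k
    have hJB : J ⊆ Metric.closedBall x r := by
      rintro z ⟨hz1, hz2⟩
      rw [Metric.mem_closedBall, Real.dist_eq, abs_le]
      constructor
      · nlinarith
      · nlinarith
    have hsub : A ∩ Metric.closedBall x r ⊆ (Metric.closedBall x r \ J) ∪ (A ∩ Cs n m) := by
      rintro z ⟨hz1, hz2⟩
      by_cases hzJ : z ∈ J
      · exact Or.inr ⟨hz1, hJC hzJ⟩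
      · exact Or.inl ⟨hz2, hzJ⟩
    have hvol : volume (A ∩ Metric.closedBall x r) ≤ ENNReal.ofReal (2 * r - c * r) := by
      refine (measure_mono hsub).trans ((measure_union_le _ _).trans ?_)
      rw [hmA, add_zero, measure_sdiff hJB measurableSet_Ioo.nullMeasurableSet
        (by rw [Real.volume_Ioo]; exact ENNReal.ofReal_ne_top), Real.volume_closedBall,
        Real.volume_Ioo, ← ENNReal.ofReal_sub _ (by nlinarith)]
      apply ENNReal.ofReal_le_ofReal
      nlinarith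
    have h3 : volume (A ∩ Metric.closedBall x r) / volume (Metric.closedBall x r) ≤
        ENNReal.ofReal (1 - c / 2) := by
      rw [Real.volume_closedBall]
      refine (ENNReal.div_le_div_right hvol _).trans ?_
      rw [← ENNReal.ofReal_div_of_pos (by positivity)]
      apply ENNReal.ofReal_le_ofReal
      apply le_of_eq
      field_simp
    exact absurd h2 (not_lt.mpr h3)
  rw [ae_iff] at this
  simpa using this

/-- an unbounded family gives null sets whose union is not null -/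
theorem not_null_of_unb {K : Type} {g : K → ℕ → ℕ} (hg : Unb K g) :
    volume (⋃ b, Nf (g b)) ≠ 0 := by
  classical
  intro h0
  obtain ⟨Z, hZ1, hZ2, hZ3⟩ := exists_measurable_superset_of_null h0
  have hS : MeasurableSet (Icc (0 : ℝ) 1 \ Z) := measurableSet_Icc.diff hZ2
  have hvS : (0 : ENNReal) < volume (Icc (0 : ℝ) 1 \ Z) := by
    rw [measure_sdiff_null hZ3, Real.volume_Icc]
    norm_num
  obtain ⟨K₀, hK₀S, hK₀c, hK₀⟩ := hS.exists_lt_isCompact hvS
  set B := TopologicalSpace.countableBasis ℝ with hB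
  have hBc : B.Countable := TopologicalSpace.countable_countableBasis ℝ
  have hBb := TopologicalSpace.isBasis_countableBasis ℝ
  set bad : Set ℝ := ⋃ U ∈ {U ∈ B | volume (K₀ ∩ U) = 0}, U with hbad
  have hbado : IsOpen bad := isOpen_biUnion (fun U hU => hBb.isOpen hU.1)
  have hbad0 : volume (K₀ ∩ bad) = 0 := by
    rw [hbad, inter_iUnion₂]
    rw [measure_biUnion_null_iff (hBc.mono (fun U hU => hU.1))]
    exact fun U hU => hU.2
  set K₁ : Set ℝ := K₀ \ bad with hK₁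
  have hK₁cl : IsClosed K₁ := hK₀c.isClosed.sdiff hbado
  have hK₁sub : K₁ ⊆ K₀ := sdiff_subset
  have hK₁v : ∀ U, volume (K₁ ∩ U) = volume (K₀ ∩ U) := by
    intro U
    apply le_antisymm (measure_mono (inter_subset_inter_left _ hK₁sub))
    have : K₀ ∩ U ⊆ (K₁ ∩ U) ∪ (K₀ ∩ bad) := by
      rintro x ⟨hx1, hx2⟩
      by_cases hxb : x ∈ bad
      · exact Or.inr ⟨hx1, hxb⟩
      · exact Or.inl ⟨⟨hx1, hxb⟩, hx2⟩
    refine (measure_mono this).trans ((measure_union_le _ _).trans ?_)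
    rw [hbad0, add_zero]
  have hpos : ∀ U ∈ B, (K₁ ∩ U).Nonempty → volume (K₁ ∩ U) ≠ 0 := by
    rintro U hU ⟨x, hx1, hx2⟩ h1
    rw [hK₁v] at h1
    exact hx1.2 (mem_biUnion (show U ∈ {U ∈ B | volume (K₀ ∩ U) = 0} from ⟨hU, h1⟩) hx2)
  have hK₁ne : K₁.Nonempty := by
    by_contra hne
    rw [not_nonempty_iff_eq_empty] at hne
    have h1 := hK₁v Set.univ
    rw [hne, empty_inter, measure_empty, inter_univ] at h1
    rw [← h1] at hK₀
    exact lt_irrefl _ hK₀
  obtain ⟨Bi, hBi⟩ := hBc.exists_eq_range (by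
    obtain ⟨x, -⟩ := hK₁ne
    obtain ⟨U, hU, -⟩ := hBb.exists_subset_of_mem_open (mem_univ x) isOpen_univ
    exact ⟨U, hU⟩)
  have hBiB : ∀ i, Bi i ∈ B := fun i => by rw [hBi]; exact ⟨i, rfl⟩
  have hM : ∀ i n, ∃ M, (K₁ ∩ Bi i).Nonempty → ∀ m, M ≤ m → (K₁ ∩ Bi i ∩ Cs n m).Nonempty := by
    intro i n
    by_cases hne : (K₁ ∩ Bi i).Nonempty
    · by_contra hcon
      push Not at hcon
      apply hpos _ (hBiB i) hne
      apply null_of_Cs n (hK₁cl.measurableSet.inter (hBb.isOpen (hBiB i)).measurableSet)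
      intro M
      obtain ⟨-, m, hm, h1⟩ := hcon M
      exact ⟨m, hm, by rw [h1]; exact measure_empty⟩
    · exact ⟨0, fun h => absurd h hne⟩
  choose M hM using hM
  obtain ⟨b, hb⟩ := hg (fun n => (Finset.range (n + 1)).sup (fun i => M i n))
  set O : ℕ → Set K₁ := fun k => {x | ∃ n, k ≤ n ∧ x.1 ∈ Cs n (g b n)} with hO
  have hOo : ∀ k, IsOpen (O k) := by
    intro k
    have : O k = ⋃ n ∈ Set.Ici k, (Subtype.val ⁻¹' (Cs n (g b n)) : Set K₁) := by
      ext x
      simp [hO]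
    rw [this]
    exact isOpen_biUnion (fun n _ => (Cs_open n _).preimage continuous_subtype_val)
  have hOd : ∀ k, Dense (O k) := by
    intro k
    rw [dense_iff_inter_open]
    rintro V hV ⟨x, hx⟩
    obtain ⟨V', hV', rfl⟩ := isOpen_induced_iff.mp hV
    obtain ⟨U, hU, hxU, hUV⟩ := hBb.exists_subset_of_mem_open (show x.1 ∈ V' from hx) hV'
    obtain ⟨i, rfl⟩ : U ∈ Set.range Bi := by
      rw [← hBi]
      exact hU
    obtain ⟨n, hn, hn'⟩ := hb (max k i)
    have h1 : M i n ≤ g b n := by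
      have : M i n ≤ (Finset.range (n + 1)).sup (fun i => M i n) :=
        Finset.le_sup (f := fun i => M i n) (by rw [Finset.mem_range]; omega)
      exact this.trans hn'.le
    obtain ⟨z, ⟨hz1, hz2⟩, hz3⟩ := hM i n ⟨x.1, x.2, hxU⟩ (g b n) h1
    exact ⟨⟨z, hz1⟩, hUV hz2, n, (le_max_left _ _).trans hn, hz3⟩
  have : CompleteSpace K₁ := hK₁cl.completeSpace_coe
  have : Nonempty K₁ := hK₁ne.to_subtype
  obtain ⟨x, hx⟩ := (dense_iInter_of_isOpen_nat hOo hOd).nonempty
  rw [mem_iInter] at hx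
  have hx0 : x.1 ∈ Icc (0 : ℝ) 1 \ Z := hK₀S (hK₁sub x.2)
  exact hx0.2 (hZ1 (mem_iUnion.mpr ⟨b, hx0.1, hx⟩))

end Pool.Agent.H735.FM
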