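import Mathlib
import Pool.Graph.R_pool_sql_team_seeded_620a6dc7.Helper467_LV.Node
import Pool.Agent.H735.FM.Defs

/-!
Labels, and embeddings of the tree of finite sequences of labels.
-/

set_option autoImplicit false

namespace Pool.Agent.H735.FM

open Pool.Agent.Helper467_LV (pre pre_length pre_zero pre_succ pre_getElem pre_eq_iff pre_take
  pre_eq_of_le ofList pre_ofList pre_eq_of_append apply_of_pre)

/-- the label with string `v` and index `i` -/
def lab (v : List ℕ) (i : ℕ) : ℕ := Encodable.encode (v, i)

@[simp] theorem str_lab (v : List ℕ) (i : ℕ) : str (lab v i) = v := by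
  simp [str, lab]

theorem lab_inj {v v' : List ℕ} {i i' : ℕ} (h : lab v i = lab v' i') : i = i' := by
  have := Encodable.encode_injective h
  simpa using congrArg Prod.snd this

/-- An embedding of the tree of finite sequences of labels into itself. The sequence `tr u` is the
image of `u`, and `pos u 0 < pos u 1 < …` are the free positions at `u`. Different successors of
`u` are mapped to extensions of different successors of `tr u`: for every label `a`, the sequence
`tr (u ++ [a])` extends `tr u ++ [j a]`, where `j` is injective, and the entry of the string of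
`j a` at the position `pos u l` is the entry of the string of `a` at `l`. -/
@[ext] structure FE where
  /-- the map of finite sequences -/
  tr : List ℕ → List ℕ
  /-- the free positions -/
  pos : List ℕ → ℕ → ℕ
  /-- the free positions are increasing -/
  mono : ∀ u, StrictMono (pos u)
  /-- successors go to extensions of successors -/
  spec : ∀ u, ∃ j : ℕ → ℕ, Function.Injective j ∧
    (∀ a l, l < (str a).length → (str (j a))[pos u l]? = (str a)[l]?) ∧
    ∀ a, tr u ++ [j a] <+: tr (u ++ [a])

namespace FE

theorem tr_snoc (e : FE) (u : List ℕ) (a : ℕ) : e.tr u <+: e.tr (u ++ [a]) := by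
  obtain ⟨j, -, -, hj⟩ := e.spec u
  exact (List.prefix_append _ _).trans (hj a)

theorem tr_append (e : FE) (u v : List ℕ) : e.tr u <+: e.tr (u ++ v) := by
  induction v using List.reverseRecOn with
  | nil => simp
  | append_singleton v m ih =>
    rw [← List.append_assoc]
    exact ih.trans (e.tr_snoc _ _)

theorem tr_mono (e : FE) {u v : List ℕ} (h : u <+: v) : e.tr u <+: e.tr v := by
  obtain ⟨w, rfl⟩ := h
  exact e.tr_append u w

theorem length_snoc (e : FE) (u : List ℕ) (a : ℕ) :
    (e.tr u).length < (e.tr (u ++ [a])).length := by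
  obtain ⟨j, -, -, hj⟩ := e.spec u
  have := (hj a).length_le
  simp at this
  omega

theorem length_append (e : FE) (u v : List ℕ) :
    (e.tr u).length + v.length ≤ (e.tr (u ++ v)).length := by
  induction v using List.reverseRecOn with
  | nil => simp
  | append_singleton v m ih =>
    rw [← List.append_assoc]
    have := e.length_snoc (u ++ v) m
    simp only [List.length_append, List.length_singleton]
    omega

theorem length_le (e : FE) (u : List ℕ) : u.length ≤ (e.tr u).length := by
  have := e.length_append [] u
  simp only [List.nil_append] at this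
  omega

/-- the identity -/
instance : One FE := ⟨⟨id, fun _ l => l, fun _ => strictMono_id, fun _ =>
  ⟨id, Function.injective_id, fun _ _ _ => rfl, fun _ => List.prefix_rfl⟩⟩⟩

/-- composition -/
instance : Mul FE := ⟨fun e f => ⟨e.tr ∘ f.tr, fun u l => e.pos (f.tr u) (f.pos u l),
  fun u => (e.mono _).comp (f.mono u), fun u => by
  obtain ⟨j, hj1, hj2, hj3⟩ := f.spec u
  obtain ⟨k, hk1, hk2, hk3⟩ := e.spec (f.tr u)
  refine ⟨k ∘ j, hk1.comp hj1, fun a l hl => ?_, fun a => ?_⟩
  · have h1 := hj2 a l hl
    have h2 : f.pos u l < (str (j a)).length := by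
      by_contra h
      rw [List.getElem?_eq_none (not_lt.mp h), List.getElem?_eq_getElem hl] at h1
      simp at h1
    show (str (k (j a)))[e.pos (f.tr u) (f.pos u l)]? = _
    rw [hk2 (j a) _ h2, h1]
  · exact (hk3 (j a)).trans (e.tr_mono (hj3 a))⟩⟩

@[simp] theorem one_tr (u : List ℕ) : (1 : FE).tr u = u := rfl

@[simp] theorem one_pos (u : List ℕ) (l : ℕ) : (1 : FE).pos u l = l := rfl

@[simp] theorem mul_tr (e f : FE) (u : List ℕ) : (e * f).tr u = e.tr (f.tr u) := rfl

@[simp] theorem mul_pos (e f : FE) (u : List ℕ) (l : ℕ) :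
    (e * f).pos u l = e.pos (f.tr u) (f.pos u l) := rfl

instance : Monoid FE where
  mul_assoc a b c := rfl
  one_mul a := rfl
  mul_one a := rfl

/-- the map of infinite sequences -/
def map (e : FE) (y : ℕ → ℕ) : ℕ → ℕ := fun i => (e.tr (pre y (i + 1))).getD i 0

theorem pre_prefix (y : ℕ → ℕ) {n m : ℕ} (h : n ≤ m) : pre y n <+: pre y m := by
  rw [← pre_take y m n h]
  exact List.take_prefix _ _

theorem map_pre (e : FE) (y : ℕ → ℕ) (n : ℕ) :
    pre (e.map y) (e.tr (pre y n)).length = e.tr (pre y n) := by
  apply List.ext_getElem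
  · simp [pre_length]
  · intro i h1 h2
    rw [pre_getElem]
    unfold map
    have hi : i < (e.tr (pre y (i + 1))).length := by
      have := e.length_le (pre y (i + 1))
      rw [pre_length] at this
      omega
    rw [List.getD_eq_getElem _ _ hi]
    rcases le_total n (i + 1) with h | h
    · exact ((e.tr_mono (pre_prefix y h)).getElem h2).symm
    · exact (e.tr_mono (pre_prefix y h)).getElem hi

theorem map_eq_of (e : FE) (y z : ℕ → ℕ)
    (h : ∀ n, pre z (e.tr (pre y n)).length = e.tr (pre y n)) : z = e.map y := by
  funext i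
  have h1 := (h (i + 1)).trans (e.map_pre y (i + 1)).symm
  rw [pre_eq_iff] at h1
  refine h1 i ?_
  have := e.length_le (pre y (i + 1))
  rw [pre_length] at this
  omega

@[simp] theorem map_one (y : ℕ → ℕ) : (1 : FE).map y = y := by
  symm
  apply map_eq_of
  intro n
  simp [pre_length]

theorem map_mul (e f : FE) (y : ℕ → ℕ) : (e * f).map y = e.map (f.map y) := by
  symm
  apply map_eq_of
  intro n
  have h1 := f.map_pre y n
  have h2 := e.map_pre (f.map y) (f.tr (pre y n)).length
  rw [h1] at h2
  exact h2

theorem map_congr (e f : FE) (y : ℕ → ℕ) (h : ∀ n, e.tr (pre y n) = f.tr (pre y n)) :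
    e.map y = f.map y := by
  apply map_eq_of
  intro n
  rw [← h n]
  exact e.map_pre y n

theorem snoc_injective (e : FE) {u : List ℕ} {a b : ℕ} {v w : List ℕ}
    (h : e.tr (u ++ [a] ++ v) <+: e.tr (u ++ [b] ++ w) ∨
      e.tr (u ++ [b] ++ w) <+: e.tr (u ++ [a] ++ v)) : a = b := by
  obtain ⟨j, hj1, -, hj3⟩ := e.spec u
  have ha := (hj3 a).trans (e.tr_append (u ++ [a]) v)
  have hb := (hj3 b).trans (e.tr_append (u ++ [b]) w)
  apply hj1
  have key : e.tr u ++ [j a] <+: e.tr u ++ [j b] := by
    rcases h with h | h
    · exact List.prefix_of_prefix_length_le (ha.trans h) hb (by simp)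
    · exact List.prefix_of_prefix_length_le ha (hb.trans h) (by simp)
  have := key.eq_of_length (by simp)
  simpa using this

theorem prefix_cases (u v : List ℕ) : u <+: v ∨ v <+: u ∨
    ∃ w a b r s, a ≠ b ∧ u = w ++ [a] ++ r ∧ v = w ++ [b] ++ s := by
  induction u generalizing v with
  | nil => exact Or.inl List.nil_prefix
  | cons x u ih =>
    cases v with
    | nil => exact Or.inr (Or.inl List.nil_prefix)
    | cons y v =>
      by_cases hxy : x = y
      · subst hxy
        rcases ih v with h | h | ⟨w, a, b, r, s, hab, h1, h2⟩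
        · exact Or.inl (List.cons_prefix_cons.mpr ⟨rfl, h⟩)
        · exact Or.inr (Or.inl (List.cons_prefix_cons.mpr ⟨rfl, h⟩))
        · exact Or.inr (Or.inr ⟨x :: w, a, b, r, s, hab, by simp [h1], by simp [h2]⟩)
      · exact Or.inr (Or.inr ⟨[], x, y, u, v, hxy, rfl, rfl⟩)

theorem prefix_of_tr_prefix (e : FE) {u v : List ℕ} (h : e.tr u <+: e.tr v) : u <+: v := by
  rcases prefix_cases u v with h1 | h1 | ⟨w, a, b, r, s, hab, rfl, rfl⟩
  · exact h1
  · obtain ⟨w, rfl⟩ := h1
    have h2 := h.length_le
    have h3 := e.length_append v w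
    have : w.length = 0 := by omega
    rw [List.length_eq_zero_iff.mp this]
    simp
  · exact absurd (e.snoc_injective (Or.inl h)) hab

theorem tr_injective (e : FE) {u v : List ℕ} (h : e.tr u = e.tr v) : u = v := by
  have h1 : u <+: v := e.prefix_of_tr_prefix (by rw [h])
  have h2 : v <+: u := e.prefix_of_tr_prefix (by rw [h])
  exact h1.eq_of_length (le_antisymm h1.length_le h2.length_le)

theorem map_injective (e : FE) {y z : ℕ → ℕ} (h : e.map y = e.map z) : y = z := by
  funext i
  have h1 := e.map_pre y (i + 1)
  have h2 := e.map_pre z (i + 1)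
  rw [h] at h1
  have key : pre y (i + 1) <+: pre z (i + 1) ∨ pre z (i + 1) <+: pre y (i + 1) := by
    rcases le_total (e.tr (pre y (i + 1))).length (e.tr (pre z (i + 1))).length with h3 | h3
    · left
      apply e.prefix_of_tr_prefix
      rw [← h1, ← h2]
      exact pre_prefix _ h3
    · right
      apply e.prefix_of_tr_prefix
      rw [← h1, ← h2]
      exact pre_prefix _ h3
  have h3 : pre y (i + 1) = pre z (i + 1) := by
    rcases key with h | h
    · exact h.eq_of_length (by simp [pre_length])
    · exact (h.eq_of_length (by simp [pre_length])).symm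
  exact (pre_eq_iff _ _ _).mp h3 i (by omega)

/-- left cancellation -/
theorem cancel {e f g : FE} (h : e * f = e * g) : f = g := by
  have h1 : ∀ u, f.tr u = g.tr u := fun u =>
    e.tr_injective (show (e * f).tr u = (e * g).tr u by rw [h])
  ext1
  · funext u
    exact h1 u
  · funext u l
    have h2 : e.pos (f.tr u) (f.pos u l) = e.pos (g.tr u) (g.pos u l) :=
      show (e * f).pos u l = (e * g).pos u l by rw [h]
    rw [h1] at h2
    exact (e.mono _).injective h2

/-- if all values start with `u`, then the stem starts with `u` -/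
theorem stem_prefix (e : FE) (u : List ℕ) (h : ∀ y, pre (e.map y) u.length = u) :
    u <+: e.tr [] := by
  have h0 : ∀ y : ℕ → ℕ, e.tr [] <+: pre (e.map y) (e.tr []).length := by
    intro y
    have := e.map_pre y 0
    rw [pre_zero] at this
    rw [this]
  rcases le_or_gt u.length (e.tr []).length with hl | hl
  · have h1 := e.map_pre (fun _ => 0) 0
    rw [pre_zero] at h1
    have h2 := pre_prefix (e.map (fun _ => 0)) hl
    rw [h (fun _ => 0), h1] at h2
    exact h2
  · exfalso
    obtain ⟨j, hj1, -, hj3⟩ := e.spec []
    have key : ∀ a, j a = u[(e.tr []).length] := by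
      intro a
      have h1 := e.map_pre (ofList [a]) 1
      have h2 : pre (ofList [a]) 1 = [] ++ [a] := by
        have := pre_ofList [a]
        simpa using this
      rw [h2] at h1
      have h3 := hj3 a
      rw [← h1] at h3
      have h4 : (e.map (ofList [a])) (e.tr []).length = j a := by
        have h6 := h3.getElem (i := (e.tr []).length) (by simp)
        rw [pre_getElem] at h6
        simpa using h6.symm
      have h7 := h (ofList [a])
      have h8 : (pre (e.map (ofList [a])) u.length)[(e.tr []).length]'(by
          rw [pre_length]; exact hl) = u[(e.tr []).length] := by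
        simp only [h7]
      rw [pre_getElem, h4] at h8
      exact h8
    have := hj1 ((key 0).trans (key 1).symm)
    omega

end FE

/-- the embedding onto the set of the sequences starting with `u` -/
def sh (u : List ℕ) : FE where
  tr := fun v => u ++ v
  pos := fun _ l => l
  mono := fun _ => strictMono_id
  spec := fun v => ⟨id, Function.injective_id, fun _ _ _ => rfl, fun a => by simp⟩

@[simp] theorem sh_tr (u v : List ℕ) : (sh u).tr v = u ++ v := rfl
@[simp] theorem sh_pos (u v : List ℕ) (l : ℕ) : (sh u).pos v l = l := rfl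

theorem sh_nil : sh [] = 1 := rfl

theorem sh_mul (u v : List ℕ) : sh u * sh v = sh (u ++ v) := by
  ext1
  · funext w
    simp
  · rfl

/-- inverse of `sh`, on infinite sequences -/
def unsh (u : List ℕ) (z : ℕ → ℕ) : ℕ → ℕ := fun i => z (i + u.length)

theorem pre_add (z : ℕ → ℕ) (n m : ℕ) : pre z (n + m) = pre z n ++ pre (fun i => z (i + n)) m := by
  induction m with
  | zero => simp [pre_zero]
  | succ m ih =>
    rw [← add_assoc, pre_succ, pre_succ, ih, List.append_assoc, Nat.add_comm m n]

theorem sh_map (u : List ℕ) (y : ℕ → ℕ) : pre ((sh u).map y) u.length = u := by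
  have := (sh u).map_pre y 0
  rw [pre_zero, sh_tr, List.append_nil] at this
  exact this

theorem unsh_sh (u : List ℕ) (y : ℕ → ℕ) : unsh u ((sh u).map y) = y := by
  funext i
  have h1 := (sh u).map_pre y (i + 1)
  rw [sh_tr, List.length_append, pre_length, pre_add, sh_map] at h1
  have h2 := List.append_cancel_left h1
  rw [pre_eq_iff] at h2
  exact h2 i (by omega)

theorem sh_unsh (u : List ℕ) (z : ℕ → ℕ) (h : pre z u.length = u) :
    (sh u).map (unsh u z) = z := by
  symm
  apply FE.map_eq_of
  intro n
  rw [sh_tr, List.length_append, pre_length, pre_add, h]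
  rfl

/-- division by `sh u` on the left -/
def divFE (e : FE) (u : List ℕ) (h : u <+: e.tr []) : FE where
  tr := fun v => (e.tr v).drop u.length
  pos := e.pos
  mono := e.mono
  spec := by
    intro v
    obtain ⟨j, hj1, hj2, hj3⟩ := e.spec v
    refine ⟨j, hj1, hj2, fun a => ?_⟩
    obtain ⟨r, hr⟩ := h.trans (e.tr_mono List.nil_prefix : e.tr [] <+: e.tr v)
    obtain ⟨s, hs⟩ := hj3 a
    rw [← hs, ← hr]
    simp

theorem sh_mul_divFE (e : FE) (u : List ℕ) (h : u <+: e.tr []) : sh u * divFE e u h = e := by
  ext1
  · funext v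
    obtain ⟨r, hr⟩ := h.trans (e.tr_mono List.nil_prefix : e.tr [] <+: e.tr v)
    show u ++ (e.tr v).drop u.length = e.tr v
    rw [← hr]
    simp
  · rfl

end Pool.Agent.H735.FM
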