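import Mathlib
import Pool.Graph.R_pool_sql_team_seeded_620a6dc7.Helper467_LV.Node
import Pool.Agent.H735.FM.Emb

/-!
The guiding principle implies that unions of `K` many Rothberger sets are Rothberger.
-/

set_option autoImplicit false

namespace Pool.Agent.H735.FM

open Set
open Pool.Agent.Helper467_LV (pre pre_length pre_getElem pre_eq_iff wt wt_nil wt_cons wt_append
  length_le_wt finite_wt_le)

/-- the concatenation of the strings of the labels in a sequence -/
def cat (s : List ℕ) : List ℕ := (s.map str).flatten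

theorem cat_append (s t : List ℕ) : cat (s ++ t) = cat s ++ cat t := by simp [cat]

theorem cat_prefix {s t : List ℕ} (h : s <+: t) : cat s <+: cat t := by
  obtain ⟨r, rfl⟩ := h
  rw [cat_append]
  exact List.prefix_append _ _

/-- the sequence coded by a sequence of labels -/
noncomputable def zy (y : ℕ → ℕ) (n : ℕ) : ℕ := by
  classical
  exact if h : ∃ m, n < (cat (pre y m)).length then (cat (pre y (Nat.find h))).getD n 0 else 0

theorem zy_eq {y : ℕ → ℕ} {s : List ℕ} (hs : ∀ i, i < s.length → y i = s.getD i 0) {n v : ℕ}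
    (h : (cat s)[n]? = some v) : zy y n = v := by
  classical
  have h1 : pre y s.length = s := by
    apply List.ext_getElem
    · simp [pre_length]
    · intro i h1 h2
      rw [pre_getElem, hs i h2, List.getD_eq_getElem _ _ h2]
  have hlt : n < (cat s).length := by
    by_contra hn
    rw [List.getElem?_eq_none (not_lt.mp hn)] at h
    simp at h
  have hex : ∃ m, n < (cat (pre y m)).length := ⟨s.length, by rw [h1]; exact hlt⟩
  unfold zy
  rw [dif_pos hex]
  have h2 := Nat.find_spec hex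
  have h3 : Nat.find hex ≤ s.length := Nat.find_min' hex (by rw [h1]; exact hlt)
  have h4 : cat (pre y (Nat.find hex)) <+: cat s := by
    rw [← h1]
    exact cat_prefix (FE.pre_prefix y h3)
  rw [List.getD_eq_getElem _ _ h2]
  have h5 := h4.getElem h2
  rw [h5]
  rw [List.getElem?_eq_getElem hlt] at h
  exact Option.some_injective _ h

theorem isEmb_mono {tr : List ℕ → List ℕ} {pos : List ℕ → ℕ → ℕ} (h : IsEmb tr pos)
    (u v : List ℕ) : tr u <+: tr (u ++ v) := by
  induction v using List.reverseRecOn with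
  | nil => simp
  | append_singleton v a ih =>
    rw [← List.append_assoc]
    obtain ⟨-, c, hc, -⟩ := h (u ++ v) a a 0
    exact ih.trans ((List.prefix_append _ _).trans hc)

section construction

variable (e : List ℕ → List ℕ) (ps : List ℕ → ℕ → ℕ) (g : List ℕ → ℕ → ℕ)

/-- the string of the new label -/
def vl (t : List ℕ) (a J : ℕ) : List ℕ :=
  (List.range (2 * (J + (str a).length + 1))).map
    (fun p => if p % 2 = 0 then (str a).getD (p / 2) 0 else g t (p / 2))

/-- the new label -/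
def newlab (t : List ℕ) (a J : ℕ) : ℕ := lab (vl g t a J) a

theorem vl_even (t : List ℕ) (a J l : ℕ) (hl : l < (str a).length) :
    (vl g t a J)[2 * l]? = (str a)[l]? := by
  unfold vl
  rw [List.getElem?_map, List.getElem?_range (by omega)]
  simp [hl]

theorem vl_odd (t : List ℕ) (a J l : ℕ) (hl : l ≤ J) :
    (vl g t a J)[2 * l + 1]? = some (g t l) := by
  unfold vl
  rw [List.getElem?_map, List.getElem?_range (by omega)]
  have h1 : (2 * l + 1) % 2 = 1 := by omega
  have h2 : (2 * l + 1) / 2 = l := by omega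
  simp [h1, h2]

/-- the new embedding -/
def ntr (m : ℕ → ℕ) (u : List ℕ) : List ℕ :=
  u.foldl (fun t a => t ++ [newlab g t a (m (wt (t ++ [a])))]) []

theorem ntr_snoc (m : ℕ → ℕ) (u : List ℕ) (a : ℕ) :
    ntr g m (u ++ [a]) = ntr g m u ++ [newlab g (ntr g m u) a (m (wt (ntr g m u ++ [a])))] := by
  unfold ntr
  rw [List.foldl_append]
  rfl

theorem ntr_length (m : ℕ → ℕ) (u : List ℕ) : (ntr g m u).length = u.length := by
  induction u using List.reverseRecOn with
  | nil => rfl
  | append_singleton u a ih => rw [ntr_snoc]; simp [ih]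

theorem isEmb_ntr (m : ℕ → ℕ) : IsEmb (ntr g m) (fun _ l => 2 * l) := by
  intro u a b l
  refine ⟨by show 2 * l < 2 * (l + 1); omega,
    newlab g (ntr g m u) a (m (wt (ntr g m u ++ [a]))), ?_, ?_, ?_⟩
  · rw [ntr_snoc]
  · intro hl
    unfold newlab
    rw [str_lab]
    exact vl_even g _ a _ l hl
  · intro h
    rw [ntr_snoc] at h
    have h1 := h.eq_of_length (by simp)
    have h2 : newlab g (ntr g m u) a (m (wt (ntr g m u ++ [a]))) =
      newlab g (ntr g m u) b (m (wt (ntr g m u ++ [b]))) := by simpa using h1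
    exact lab_inj h2

end construction

/-- the selection of an embedding for one Rothberger set -/
theorem exists_emb {X : Set ℝ} (hX : IsRothberger X) {V : ℕ → ℕ → Set ℝ}
    (hV : ∀ n v, IsOpen (V n v)) (hXV : ∀ n, X ⊆ ⋃ v, V n v) {e : List ℕ → List ℕ}
    {ps : List ℕ → ℕ → ℕ} (he : IsEmb e ps) :
    ∃ (tr : List ℕ → List ℕ) (pos : List ℕ → ℕ → ℕ), IsEmb tr pos ∧
      ∀ x ∈ X, ∃ i, ∀ u : List ℕ, u.length = i → ∃ n v, (cat (e (tr u)))[n]? = some v ∧
        x ∈ V n v := by
  classical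
  -- selections at the nodes
  set q : List ℕ → ℕ → ℕ := fun t l => (cat (e t)).length + ps t (2 * l + 1) with hq
  have hg : ∀ t, ∃ g : ℕ → ℕ, ∀ x ∈ X, ∃ l, x ∈ V (q t l) (g l) := by
    intro t
    obtain ⟨c, hc1, hc2⟩ := hX (fun l => Set.range (V (q t l))) (fun l =>
      ⟨Set.range_nonempty _, by rintro _ ⟨v, rfl⟩; exact hV _ _, by
        rw [Set.sUnion_range]; exact hXV _⟩)
    choose g hg using hc1
    refine ⟨g, fun x hx => ?_⟩
    obtain ⟨l, hl⟩ := mem_iUnion.mp (hc2 hx)
    exact ⟨l, by rw [hg]; exact hl⟩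
  choose g hg using hg
  set Ht : ℝ → List ℕ → ℕ → Prop := fun x t l => ∃ l', l' ≤ l ∧ x ∈ V (q t l') (g t l') with hHt
  have Ht_mono : ∀ {x t l l'}, l ≤ l' → Ht x t l → Ht x t l' := by
    rintro x t l l' h ⟨k, hk, hx⟩
    exact ⟨k, hk.trans h, hx⟩
  have Ht_open : ∀ t l, IsOpen {x | Ht x t l} := by
    intro t l
    have : {x | Ht x t l} = ⋃ l' ∈ Set.Iic l, V (q t l') (g t l') := by
      ext x
      simp [hHt]
    rw [this]
    exact isOpen_biUnion (fun _ _ => hV _ _)
  set Hx : ℝ → ℕ → ℕ → Prop := fun x n l => ∀ t, wt t ≤ n → Ht x t l with hHx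
  have Hx_open : ∀ n l, IsOpen {x | Hx x n l} := by
    intro n l
    have : {x | Hx x n l} = ⋂ t ∈ {t : List ℕ | wt t ≤ n}, {x | Ht x t l} := by
      ext x
      simp [hHx]
    rw [this]
    exact (finite_wt_le n).isOpen_biInter (fun t _ => Ht_open t l)
  have Hx_ex : ∀ x ∈ X, ∀ n, ∃ l, Hx x n l := by
    intro x hx n
    choose l hl using fun t => hg t x hx
    obtain ⟨b, hb⟩ := ((finite_wt_le n).image l).bddAbove
    refine ⟨b, fun t ht => ⟨l t, hb ⟨t, ht, rfl⟩, hl t⟩⟩
  -- the bound of the weights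
  have hHh : ∀ n j, ∃ b, n ≤ b ∧ ∀ t a J, wt (t ++ [a]) ≤ n → J ≤ j →
      wt (t ++ [newlab g t a J]) ≤ b := by
    intro n j
    have hfin : ((fun p : List ℕ × ℕ => wt (p.1.dropLast ++
        [newlab g p.1.dropLast (p.1.getLastD 0) p.2])) ''
        ({s : List ℕ | wt s ≤ n} ×ˢ Set.Iic j)).Finite :=
      ((finite_wt_le n).prod (Set.finite_Iic j)).image _
    obtain ⟨b, hb⟩ := hfin.bddAbove
    refine ⟨max n b, le_max_left _ _, fun t a J h1 h2 => le_trans (hb ?_) (le_max_right _ _)⟩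
    refine ⟨(t ++ [a], J), ⟨h1, h2⟩, ?_⟩
    simp
  choose Hh hHh1 hHh2 using hHh
  -- the Menger selection
  obtain ⟨c, hc1, hc2⟩ := hX (fun i => Set.range (fun c : ℕ =>
    {x : ℝ | ∃ j, Hx x i j ∧ Hx x (Hh i j) c})) (fun i => ⟨Set.range_nonempty _, by
      rintro _ ⟨c, rfl⟩
      have : {x : ℝ | ∃ j, Hx x i j ∧ Hx x (Hh i j) c} =
        ⋃ j, ({x | Hx x i j} ∩ {x | Hx x (Hh i j) c}) := by
        ext x
        simp
      show IsOpen {x : ℝ | ∃ j, Hx x i j ∧ Hx x (Hh i j) c}
      rw [this]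
      exact isOpen_iUnion (fun j => (Hx_open _ _).inter (Hx_open _ _)), by
      intro x hx
      obtain ⟨j, hj⟩ := Hx_ex x hx i
      obtain ⟨k, hk⟩ := Hx_ex x hx (Hh i j)
      exact ⟨_, ⟨k, rfl⟩, j, hj, hk⟩⟩)
  choose c' hc' using hc1
  set m : ℕ → ℕ := fun i => (Finset.range (i + 1)).sup c' with hm
  have hmmono : Monotone m := by
    intro a b hab
    apply Finset.sup_mono
    intro k hk
    rw [Finset.mem_range] at *
    omega
  have hmc : ∀ i, c' i ≤ m i := fun i =>
    Finset.le_sup (f := c') (Finset.mem_range.mpr (Nat.lt_succ_self i))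
  refine ⟨ntr g m, fun _ l => 2 * l, isEmb_ntr g m, fun x hx => ?_⟩
  obtain ⟨i, hi⟩ := mem_iUnion.mp (hc2 hx)
  rw [← hc' i] at hi
  obtain ⟨j, hj1, hj2⟩ := hi
  have hj3 : Hx x (Hh i j) (m i) := fun t ht => Ht_mono (hmc i) (hj2 t ht)
  refine ⟨i + 2, fun u hu => ?_⟩
  -- it is enough to find a hit
  suffices h : ∃ k, ∃ hk : k < u.length, Ht x (ntr g m (u.take k))
      (m (wt (ntr g m (u.take k) ++ [u[k]]))) by
    obtain ⟨k, hk, l, hl, hxl⟩ := h
    set t := ntr g m (u.take k) with ht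
    refine ⟨q t l, g t l, ?_, hxl⟩
    set b := newlab g t u[k] (m (wt (t ++ [u[k]]))) with hb
    have h1 : ntr g m (u.take (k + 1)) = t ++ [b] := by
      rw [List.take_succ_eq_append_getElem hk, ntr_snoc]
    have h2 : e (t ++ [b]) <+: e (ntr g m u) := by
      rw [← h1]
      obtain ⟨r, hr⟩ : ∃ r, ntr g m u = ntr g m (u.take (k + 1)) ++ r := by
        obtain ⟨r, hr⟩ := isEmb_mono (isEmb_ntr g m) (u.take (k + 1)) (u.drop (k + 1))
        rw [List.take_append_drop] at hr
        exact ⟨r, hr.symm⟩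
      rw [hr]
      exact isEmb_mono he _ _
    have hbs : (str b)[2 * l + 1]? = some (g t l) := by
      rw [hb]
      unfold newlab
      rw [str_lab]
      exact vl_odd g t _ _ l hl
    have hlen : 2 * l + 1 < (str b).length := by
      by_contra hn
      rw [List.getElem?_eq_none (not_lt.mp hn)] at hbs
      simp at hbs
    obtain ⟨-, c₀, h3, h4, -⟩ := he t b b (2 * l + 1)
    have h5 := h4 hlen
    rw [hbs] at h5
    have h6 : cat (e t ++ [c₀]) <+: cat (e (ntr g m u)) := cat_prefix (h3.trans h2)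
    have h7 : (cat (e t ++ [c₀]))[q t l]? = some (g t l) := by
      rw [cat_append, hq]
      simp only
      rw [List.getElem?_append_right (by omega)]
      have h8 : cat [c₀] = str c₀ := by simp [cat]
      rw [h8, Nat.add_sub_cancel_left]
      exact h5
    obtain ⟨r, hr⟩ := h6
    rw [← hr, List.getElem?_append_left]
    · exact h7
    · by_contra hn
      rw [List.getElem?_eq_none (not_lt.mp hn)] at h7
      simp at h7
  by_contra hcon
  push Not at hcon
  have hw0 : wt (ntr g m (u.take 0)) ≤ i := by simp [ntr]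
  have hwk : ∀ k, k ≤ u.length → k ≤ wt (ntr g m (u.take k)) := by
    intro k hk
    have h1 := length_le_wt (ntr g m (u.take k))
    rw [ntr_length, List.length_take] at h1
    omega
  obtain ⟨k, hk1, hk2, hk3⟩ : ∃ k, k ≤ i ∧ wt (ntr g m (u.take k)) ≤ i ∧
      i < wt (ntr g m (u.take (k + 1))) := by
    by_contra hno
    push Not at hno
    have : ∀ k, k ≤ i + 1 → wt (ntr g m (u.take k)) ≤ i := by
      intro k
      induction k with
      | zero => intro _; exact hw0
      | succ k ih => intro hk; exact hno k (by omega) (ih (by omega))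
    have h1 := this (i + 1) le_rfl
    have h2 := hwk (i + 1) (by omega)
    omega
  set t := ntr g m (u.take k) with ht
  have hku : k < u.length := by omega
  have hku' : k + 1 < u.length := by omega
  have h0 := hcon k hku
  have h0' := hcon (k + 1) hku'
  rw [← ht] at h0
  set w' := wt (t ++ [u[k]]) with hw'
  have h1 : ntr g m (u.take (k + 1)) = t ++ [newlab g t u[k] (m w')] := by
    rw [List.take_succ_eq_append_getElem hku, ntr_snoc]
  rcases le_or_gt i w' with h2 | h2
  · apply h0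
    apply Ht_mono (hmmono h2)
    exact hj3 t (hk2.trans (hHh1 i j))
  · have h3 : m w' ≤ j := by
      by_contra h3
      push Not at h3
      exact h0 (Ht_mono h3.le (hj1 t hk2))
    have h4 := hHh2 i j t u[k] (m w') h2.le h3
    rw [← h1] at h4
    apply h0'
    refine Ht_mono (hmmono ?_) (hj3 _ h4)
    rw [wt_append]
    omega

/-- unions of `K` many Rothberger sets are Rothberger -/
theorem rothberger_of_guide {K W : Type} {T : W → List ℕ → List ℕ} {Tp : W → List ℕ → ℕ → ℕ}
    (hT : ∀ w, IsEmb (T w) (Tp w)) (hG : Guide K W T) (X : K → Set ℝ)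
    (hX : ∀ ξ, IsRothberger (X ξ)) : IsRothberger (⋃ ξ, X ξ) := by
  classical
  intro U hU
  have hsub : ∀ n, ∃ V : ℕ → Set ℝ, (∀ v, V v ∈ U n) ∧ (⋃ ξ, X ξ) ⊆ ⋃ v, V v := by
    intro n
    obtain ⟨⟨u₀, hu₀⟩, h2, h3⟩ := hU n
    obtain ⟨S, hS1, hS2, hS3⟩ := TopologicalSpace.isOpen_sUnion_countable (U n) h2
    have h4 : (insert u₀ S).Countable := hS1.insert u₀
    obtain ⟨V, hV⟩ := h4.exists_eq_range (Set.insert_nonempty _ _)
    refine ⟨V, fun v => ?_, ?_⟩
    · have : V v ∈ insert u₀ S := by rw [hV]; exact ⟨v, rfl⟩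
      rcases this with h | h
      · rw [h]; exact hu₀
      · exact hS2 h
    · intro x hx
      have h5 := h3 hx
      rw [← hS3] at h5
      obtain ⟨s, hs, hxs⟩ := h5
      have h6 : s ∈ Set.range V := by rw [← hV]; exact Or.inr hs
      obtain ⟨v, rfl⟩ := h6
      exact mem_iUnion.mpr ⟨v, hxs⟩
  choose V hV1 hV2 using hsub
  have hsel : ∀ (ξ : K) (w : W), ∃ (tr : List ℕ → List ℕ) (pos : List ℕ → ℕ → ℕ),
      IsEmb tr pos ∧ ∀ x ∈ X ξ, ∃ i, ∀ u : List ℕ, u.length = i →
        ∃ n v, (cat (T w (tr u)))[n]? = some v ∧ x ∈ V n v := fun ξ w =>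
    exists_emb (hX ξ) (fun n v => (hU n).2.1 _ (hV1 n v))
      (fun n => (subset_iUnion X ξ).trans (hV2 n)) (hT w)
  choose F G hFG hF using hsel
  obtain ⟨y, hy⟩ := hG F G hFG
  refine ⟨fun n => V n (zy y n), fun n => hV1 n _, ?_⟩
  intro x hx
  obtain ⟨ξ, hξ⟩ := mem_iUnion.mp hx
  obtain ⟨w, hw⟩ := hy ξ
  obtain ⟨i, hi⟩ := hF ξ w x hξ
  obtain ⟨u, hu1, hu2⟩ := hw i
  obtain ⟨n, v, h1, h2⟩ := hi u hu1
  refine mem_iUnion.mpr ⟨n, ?_⟩
  rw [zy_eq hu2 h1]
  exact h2

end Pool.Agent.H735.FM
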