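import Mathlib
import Pool.Agent.H735.FM.Roth
import Pool.Agent.H735.FM.Null

/-!
The guiding principle and an unbounded family imply that the additivity number of the ideal of the
null sets is smaller than the additivity number of the Rothberger property.
-/

set_option autoImplicit false

namespace Pool.Agent.H735.FM

open Set MeasureTheory

theorem isRothberger_empty : IsRothberger ∅ := by
  intro U hU
  choose c hc using fun n => (hU n).1
  exact ⟨c, hc, empty_subset _⟩

theorem isRothberger_singleton (x : ℝ) : IsRothberger {x} := by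
  intro U hU
  have h : ∀ n, ∃ u ∈ U n, x ∈ u := fun n => (hU n).2.2 rfl
  choose c hc hx using h
  refine ⟨c, hc, ?_⟩
  rintro y rfl
  exact mem_iUnion.mpr ⟨0, hx 0⟩

theorem not_isRothberger_univ : ¬ IsRothberger Set.univ := by
  intro h
  obtain ⟨c, hc, hcov⟩ := h (fun n => Set.range (fun x : ℝ => Metric.ball x ((1 / 2) ^ n)))
    (fun n => ⟨Set.range_nonempty _, by rintro _ ⟨x, rfl⟩; exact Metric.isOpen_ball,
      fun x _ => ⟨_, ⟨x, rfl⟩, Metric.mem_ball_self (by positivity)⟩⟩)
  choose x hx using hc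
  have h1 : volume (Set.univ : Set ℝ) ≤ ∑' n, ENNReal.ofReal (2 * (1 / 2) ^ n) := by
    refine (measure_mono hcov).trans ((measure_iUnion_le _).trans ?_)
    apply ENNReal.tsum_le_tsum
    intro n
    rw [← hx n]
    simp only
    rw [Real.volume_ball]
  have h3 : Summable (fun n : ℕ => (2 : ℝ) * (1 / 2) ^ n) :=
    summable_geometric_two.mul_left 2
  rw [← ENNReal.ofReal_tsum_of_nonneg (fun n => by positivity) h3, Real.volume_univ] at h1
  exact absurd h1 (not_le.mpr ENNReal.ofReal_lt_top)

theorem addN_le {K : Type} {g : K → ℕ → ℕ} (hg : Unb K g) :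
    addOf (fun X => volume X = 0) ≤ Cardinal.mk K := by
  have h1 : addOf (fun X => volume X = 0) ≤ Cardinal.mk (Set.range (fun b => Nf (g b))) := by
    apply csInf_le'
    refine ⟨Set.range (fun b => Nf (g b)), ?_, ?_, rfl⟩
    · rintro _ ⟨b, rfl⟩
      exact null_Nf _
    · rw [sUnion_range]
      exact not_null_of_unb hg
  exact h1.trans Cardinal.mk_range_le

theorem lt_addR {K W : Type} {T : W → List ℕ → List ℕ} {Tp : W → List ℕ → ℕ → ℕ}
    (hT : ∀ w, IsEmb (T w) (Tp w)) (hG : Guide K W T) :
    Cardinal.mk K < addOf IsRothberger := by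
  have hne : {κ | ∃ F : Set (Set ℝ), (∀ X ∈ F, IsRothberger X) ∧ ¬ IsRothberger (⋃₀ F) ∧
      Cardinal.mk F = κ}.Nonempty := by
    refine ⟨_, Set.range (fun x : ℝ => {x}), ?_, ?_, rfl⟩
    · rintro _ ⟨x, rfl⟩
      exact isRothberger_singleton x
    · have : ⋃₀ (Set.range (fun x : ℝ => ({x} : Set ℝ))) = Set.univ := by
        rw [sUnion_range]
        exact iUnion_of_singleton ℝ
      rw [this]
      exact not_isRothberger_univ
  obtain ⟨F, hF1, hF2, hF3⟩ := csInf_mem hne
  show Cardinal.mk K < sInf _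
  rw [← hF3]
  by_contra hle
  rw [not_lt] at hle
  apply hF2
  rcases F.eq_empty_or_nonempty with rfl | hFne
  · rw [sUnion_empty]
    exact isRothberger_empty
  · have : Nonempty F := hFne.to_subtype
    obtain ⟨s, hs⟩ : ∃ s : K → F, Function.Surjective s := by
      obtain ⟨i⟩ := Cardinal.le_def _ _ |>.mp hle
      exact ⟨Function.invFun i, Function.invFun_surjective i.injective⟩
    have h1 : ⋃₀ F = ⋃ k, (s k).1 := by
      ext x
      constructor
      · rintro ⟨X, hX, hx⟩
        obtain ⟨k, hk⟩ := hs ⟨X, hX⟩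
        exact mem_iUnion.mpr ⟨k, by rw [hk]; exact hx⟩
      · intro hx
        obtain ⟨k, hk⟩ := mem_iUnion.mp hx
        exact ⟨_, (s k).2, hk⟩
    rw [h1]
    exact rothberger_of_guide hT hG _ (fun k => hF1 _ (s k).2)

end Pool.Agent.H735.FM
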