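import Mathlib
import Pool.Agent.H735.FM.Emb

/-!
The frontier of the finite sequences of weight at most `n`; embeddings fixing the sequences of
small weight; changing an embedding beyond the frontier; infinite compositions.
-/

set_option autoImplicit false

namespace Pool.Agent.H735.FM

open Pool.Agent.Helper467_LV (pre pre_length pre_zero pre_succ pre_getElem pre_eq_iff pre_take
  pre_eq_of_le ofList pre_ofList pre_eq_of_append apply_of_pre wt wt_nil wt_cons wt_append lp
  wt_lp reg_lp lp_unique Reg)

namespace FE

/-- the two parts of an embedding together -/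
def ev (e : FE) (c : List ℕ × ℕ) : List ℕ × ℕ := (e.tr c.1, e.pos c.1 c.2)

@[simp] theorem one_ev (c : List ℕ × ℕ) : (1 : FE).ev c = c := rfl

@[simp] theorem mul_ev (e f : FE) (c : List ℕ × ℕ) : (e * f).ev c = e.ev (f.ev c) := rfl

theorem ext_ev {e f : FE} (h : ∀ c, e.ev c = f.ev c) : e = f := by
  ext1
  · funext u
    exact congrArg Prod.fst (h (u, 0))
  · funext u l
    exact congrArg Prod.snd (h (u, l))

theorem ev_tr {e f : FE} {u : List ℕ} {p : ℕ} (h : e.ev (u, p) = f.ev (u, p)) :
    e.tr u = f.tr u := congrArg Prod.fst h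

end FE

theorem divFE_ev (e : FE) (u : List ℕ) (h : u <+: e.tr []) (c : List ℕ × ℕ) :
    (divFE e u h).ev c = ((e.ev c).1.drop u.length, (e.ev c).2) := rfl

/-! ### The frontier -/

/-- the sequence `s` is minimal of weight larger than `n` -/
def IsFr (n : ℕ) (s : List ℕ) : Prop := n < wt s ∧ ∃ u a, s = u ++ [a] ∧ wt u ≤ n

/-- the length of the shortest initial segment of weight larger than `n` -/
def frk : ℕ → List ℕ → ℕ
  | _, [] => 0
  | n, a :: l => if n < a + 1 then 1 else frk (n - (a + 1)) l + 1

theorem isFr_take (n : ℕ) (l : List ℕ) (h : n < wt l) : IsFr n (l.take (frk n l)) := by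
  induction l generalizing n with
  | nil => simp at h
  | cons a l ih =>
    unfold frk
    split_ifs with h1
    · refine ⟨by simpa using h1, [], a, by simp, by simp⟩
    · have h2 : n - (a + 1) < wt l := by
        simp only [wt_cons] at h
        omega
      obtain ⟨h3, u, b, h4, h5⟩ := ih _ h2
      refine ⟨?_, a :: u, b, ?_, ?_⟩
      · simp only [List.take_succ_cons, wt_cons]
        omega
      · simp [h4]
      · simp only [wt_cons]
        omega

theorem frk_append {n : ℕ} {s : List ℕ} (hs : IsFr n s) (r : List ℕ) :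
    frk n (s ++ r) = s.length := by
  obtain ⟨h1, u, a, rfl, h2⟩ := hs
  induction u generalizing n with
  | nil =>
    simp only [List.nil_append, wt_cons, wt_nil, add_zero] at h1
    simp [frk, h1]
  | cons b u ih =>
    have h3 : n - (b + 1) < wt (u ++ [a]) := by
      simp only [wt_cons, List.cons_append] at h1
      simp only [wt_append, wt_cons, wt_nil] at *
      omega
    have h4 : wt u ≤ n - (b + 1) := by
      simp only [wt_cons] at h2
      omega
    have h5 := ih h4 h3
    simp only [wt_cons] at h2
    simp only [List.cons_append] at h5 ⊢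
    unfold frk
    rw [if_neg (by omega), h5]
    simp

theorem frk_take {n : ℕ} {s : List ℕ} (hs : IsFr n s) (r : List ℕ) :
    (s ++ r).take (frk n (s ++ r)) = s := by
  rw [frk_append hs, List.take_left]

theorem frk_drop {n : ℕ} {s : List ℕ} (hs : IsFr n s) (r : List ℕ) :
    (s ++ r).drop (frk n (s ++ r)) = r := by
  rw [frk_append hs, List.drop_left]

theorem IsFr.lt {n : ℕ} {s : List ℕ} (hs : IsFr n s) (r : List ℕ) : n < wt (s ++ r) := by
  have := hs.1
  simp only [wt_append]
  omega

/-- the element of the frontier below an infinite sequence -/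
def fr (n : ℕ) (y : ℕ → ℕ) : List ℕ := pre y ((lp n y).length + 1)

theorem pre_lp (n : ℕ) (y : ℕ → ℕ) : pre y (lp n y).length = lp n y := (reg_lp n y).1

theorem fr_eq (n : ℕ) (y : ℕ → ℕ) : fr n y = lp n y ++ [y (lp n y).length] := by
  unfold fr
  rw [pre_succ, pre_lp]

theorem isFr_fr (n : ℕ) (y : ℕ → ℕ) : IsFr n (fr n y) := by
  refine ⟨?_, lp n y, _, fr_eq n y, wt_lp n y⟩
  rw [fr_eq]
  have := (reg_lp n y).2
  have := wt_lp n y
  simp only [wt_append, wt_cons, wt_nil]
  omega

theorem pre_fr (n : ℕ) (y : ℕ → ℕ) : pre y (fr n y).length = fr n y := by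
  unfold fr
  rw [pre_length]

theorem fr_unique {n : ℕ} {s : List ℕ} (hs : IsFr n s) {y : ℕ → ℕ} (hy : pre y s.length = s) :
    fr n y = s := by
  obtain ⟨h1, u, a, rfl, h2⟩ := hs
  have h3 : pre y u.length = u := pre_eq_of_append hy
  have h4 : y u.length = a := by
    have h5 : pre y (u ++ a :: []).length = u ++ a :: [] := hy
    exact apply_of_pre h5
  have h5 : lp n y = u := by
    apply lp_unique n y u h2
    refine ⟨h3, ?_⟩
    rw [h4]
    simp only [wt_append, wt_cons, wt_nil] at h1
    omega
  rw [fr_eq, h5, h4]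

/-! ### Changing an embedding beyond the frontier -/

open Classical in
/-- the identity up to the frontier, and the embedding `e s` beyond the element `s` of the
frontier -/
noncomputable def brF (n : ℕ) (e : List ℕ → FE) : FE where
  tr := fun l => if wt l ≤ n then l else
    l.take (frk n l) ++ (e (l.take (frk n l))).tr (l.drop (frk n l))
  pos := fun l p => if wt l ≤ n then p else
    (e (l.take (frk n l))).pos (l.drop (frk n l)) p
  mono := by
    intro l
    by_cases h : wt l ≤ n
    · simp only [if_pos h]
      exact strictMono_id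
    · simp only [if_neg h]
      exact (e _).mono _
  spec := by
    intro l
    by_cases h : wt l ≤ n
    · refine ⟨id, Function.injective_id, fun a p _ => ?_, fun a => ?_⟩
      · simp only [if_pos h]
        rfl
      · simp only [if_pos h]
        by_cases h1 : wt (l ++ [a]) ≤ n
        · rw [if_pos h1]
          exact List.prefix_rfl
        · rw [if_neg h1]
          have h2 : IsFr n (l ++ [a]) := ⟨not_le.mp h1, l, a, rfl, h⟩
          have h3 := frk_take h2 []
          rw [List.append_nil] at h3
          rw [h3]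
          exact List.prefix_append _ _
    · simp only [if_neg h]
      obtain ⟨s, r, hs, rfl⟩ : ∃ s r, IsFr n s ∧ l = s ++ r :=
        ⟨_, _, isFr_take n l (not_le.mp h), (List.take_append_drop _ _).symm⟩
      obtain ⟨j, hj1, hj2, hj3⟩ := (e s).spec r
      refine ⟨j, hj1, fun a p hp => ?_, fun a => ?_⟩
      · rw [frk_take hs, frk_drop hs]
        exact hj2 a p hp
      · rw [List.append_assoc s r [a], if_neg (not_le.mpr (hs.lt _)), frk_take hs, frk_drop hs,
          frk_take hs, frk_drop hs, List.append_assoc]
        exact (List.prefix_append_right_inj s).mpr (hj3 a)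

theorem brF_tr_small {n : ℕ} {e : List ℕ → FE} {l : List ℕ} (h : wt l ≤ n) :
    (brF n e).tr l = l := if_pos h

theorem brF_pos_small {n : ℕ} {e : List ℕ → FE} {l : List ℕ} (h : wt l ≤ n) (p : ℕ) :
    (brF n e).pos l p = p := if_pos h

theorem brF_tr {n : ℕ} {e : List ℕ → FE} {s : List ℕ} (hs : IsFr n s) (r : List ℕ) :
    (brF n e).tr (s ++ r) = s ++ (e s).tr r := by
  show (if _ then _ else _) = _
  rw [if_neg (not_le.mpr (hs.lt _)), frk_take hs, frk_drop hs]

theorem brF_pos {n : ℕ} {e : List ℕ → FE} {s : List ℕ} (hs : IsFr n s) (r : List ℕ) (p : ℕ) :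
    (brF n e).pos (s ++ r) p = (e s).pos r p := by
  show (if _ then _ else _) = _
  rw [if_neg (not_le.mpr (hs.lt _)), frk_take hs, frk_drop hs]

theorem brF_mul_sh {n : ℕ} {e : List ℕ → FE} {s : List ℕ} (hs : IsFr n s) :
    brF n e * sh s = sh s * e s := by
  apply FE.ext_ev
  rintro ⟨u, p⟩
  show ((brF n e).tr (s ++ u), (brF n e).pos (s ++ u) p) = _
  rw [brF_tr hs, brF_pos hs]
  rfl

/-- every sequence is small or beyond an element of the frontier -/
theorem small_or_fr (n : ℕ) (l : List ℕ) : wt l ≤ n ∨ ∃ s r, IsFr n s ∧ l = s ++ r := by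
  rcases le_or_gt (wt l) n with h | h
  · exact Or.inl h
  · exact Or.inr ⟨_, _, isFr_take n l h, (List.take_append_drop _ _).symm⟩

/-! ### Fixing the sequences of small weight -/

/-- embeddings fixing the finite sequences of weight at most `n`, and the first free positions -/
def FixFE (n : ℕ) (e : FE) : Prop := ∀ c : List ℕ × ℕ, wt c.1 + c.2 ≤ n → e.ev c = c

theorem FixFE.mono {n m : ℕ} (h : n ≤ m) {e : FE} (he : FixFE m e) : FixFE n e :=
  fun c hc => he c (hc.trans h)

theorem fixFE_one (n : ℕ) : FixFE n 1 := fun _ _ => rfl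

theorem FixFE.mul {n : ℕ} {e f : FE} (he : FixFE n e) (hf : FixFE n f) : FixFE n (e * f) :=
  fun c hc => by rw [FE.mul_ev, hf c hc, he c hc]

theorem fixFE_brF (n : ℕ) (e : List ℕ → FE) : FixFE n (brF n e) := by
  rintro ⟨u, p⟩ h
  have h1 : wt u ≤ n := by
    have : wt u + p ≤ n := h
    omega
  show ((brF n e).tr u, (brF n e).pos u p) = _
  rw [brF_tr_small h1, brF_pos_small h1]

/-! ### Infinite compositions -/

/-- finite compositions -/
def fp (e : ℕ → FE) : ℕ → FE
  | 0 => 1
  | n + 1 => fp e n * e n

/-- the sequence of embeddings converges -/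
def Conv (e : ℕ → FE) : Prop := ∃ K, ∀ j, K ≤ j → FixFE j (e j)

theorem fp_stable {e : ℕ → FE} {K : ℕ} (hK : ∀ j, K ≤ j → FixFE j (e j)) (c : List ℕ × ℕ)
    {n m : ℕ} (h1 : K ≤ n) (h2 : wt c.1 + c.2 ≤ n) (h3 : n ≤ m) :
    (fp e m).ev c = (fp e n).ev c := by
  induction m, h3 using Nat.le_induction with
  | base => rfl
  | succ m hm ih =>
    show (fp e m).ev ((e m).ev c) = _
    rw [hK m (h1.trans hm) c (h2.trans hm), ih]

theorem fp_succ' (e : ℕ → FE) (n : ℕ) : fp e (n + 1) = e 0 * fp (fun j => e (j + 1)) n := by
  induction n with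
  | zero => rfl
  | succ n ih =>
    show fp e (n + 1) * e (n + 1) = e 0 * (fp (fun j => e (j + 1)) n * e (n + 1))
    rw [ih, mul_assoc]

open Classical in
/-- the infinite composition -/
noncomputable def FEinf (e : ℕ → FE) : FE :=
  if h : Conv e then
    { tr := fun u => (fp e (max h.choose (wt u))).tr u
      pos := fun u p => (fp e (max h.choose (wt u + p))).pos u p
      mono := by
        intro u p q hpq
        have hK := h.choose_spec
        set K := h.choose with hKdef
        have h1 := congrArg Prod.snd (fp_stable hK (u, p) (n := max K (wt u + p))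
          (m := max K (wt u + q)) (le_max_left _ _) (le_max_right _ _) (by omega))
        have h2 : (fp e (max K (wt u + q))).pos u p = (fp e (max K (wt u + p))).pos u p := h1
        show (fp e (max K (wt u + p))).pos u p < (fp e (max K (wt u + q))).pos u q
        rw [← h2]
        exact (fp e _).mono u hpq
      spec := by
        intro u
        have hK := h.choose_spec
        set K := h.choose with hKdef
        have hj : ∀ n, ∃ j : ℕ → ℕ, Function.Injective j ∧
            (∀ a l, l < (str a).length → (str (j a))[(fp e n).pos u l]? = (str a)[l]?) ∧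
            ∀ a, (fp e n).tr u ++ [j a] <+: (fp e n).tr (u ++ [a]) := fun n => (fp e n).spec u
        choose j hj1 hj2 hj3 using hj
        have htr : ∀ v n m, K ≤ n → wt v ≤ n → n ≤ m → (fp e m).tr v = (fp e n).tr v :=
          fun v n m h1 h2 h3 => congrArg Prod.fst (fp_stable hK (v, 0) h1 (by simpa using h2) h3)
        have key : ∀ a n, max K (wt (u ++ [a])) ≤ n →
            j (max K (wt (u ++ [a]))) a = j n a := by
          intro a n hn
          have h1 := htr (u ++ [a]) _ n (le_max_left _ _) (le_max_right K _) hn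
          have h2 := htr u (max K (wt (u ++ [a]))) n (le_max_left _ _)
            (le_trans (by simp) (le_max_right K _)) hn
          have h3 := hj3 n a
          have h4 := hj3 (max K (wt (u ++ [a]))) a
          rw [h1, h2] at h3
          have h5 := List.prefix_of_prefix_length_le h3 h4 (by simp)
          have h6 := h5.eq_of_length (by simp)
          simpa using h6.symm
        refine ⟨fun a => j (max K (wt (u ++ [a]))) a, ?_, ?_, ?_⟩
        · intro a b hab
          simp only at hab
          rw [key a (max K (max (wt (u ++ [a])) (wt (u ++ [b])))) (by omega),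
            key b (max K (max (wt (u ++ [a])) (wt (u ++ [b])))) (by omega)] at hab
          exact hj1 _ hab
        · intro a l hl
          simp only
          have h1 := congrArg Prod.snd (fp_stable hK (u, l) (n := max K (wt u + l))
            (m := max (max K (wt u + l)) (wt (u ++ [a]))) (le_max_left _ _) (le_max_right _ _)
            (le_max_left _ _))
          have h2 : (fp e (max (max K (wt u + l)) (wt (u ++ [a])))).pos u l =
            (fp e (max K (wt u + l))).pos u l := h1
          rw [key a (max (max K (wt u + l)) (wt (u ++ [a]))) (by omega), ← h2]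
          exact hj2 _ a l hl
        · intro a
          simp only
          rw [← htr u (max K (wt u)) (max K (wt (u ++ [a]))) (le_max_left _ _) (le_max_right _ _)
            (by simp only [wt_append]; omega)]
          exact hj3 _ a }
  else 1

theorem FEinf_ev {e : ℕ → FE} {K : ℕ} (hK : ∀ j, K ≤ j → FixFE j (e j)) (c : List ℕ × ℕ)
    {n : ℕ} (h1 : K ≤ n) (h2 : wt c.1 + c.2 ≤ n) : (FEinf e).ev c = (fp e n).ev c := by
  have h : Conv e := ⟨K, hK⟩
  obtain ⟨u, p⟩ := c
  simp only at h2
  unfold FEinf
  rw [dif_pos h]
  show ((fp e (max h.choose (wt u))).tr u, (fp e (max h.choose (wt u + p))).pos u p) = _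
  have hK' := h.choose_spec
  have key : ∀ q, q ≤ p → (fp e (max h.choose (wt u + q))).ev (u, q) = (fp e n).ev (u, q) := by
    intro q hq
    have e1 := fp_stable hK' (u, q) (n := max h.choose (wt u + q))
      (m := max (max h.choose (wt u + q)) n)
      (le_max_left _ _) (le_max_right _ _) (le_max_left _ _)
    have e2 := fp_stable hK (u, q) (n := n) (m := max (max h.choose (wt u + q)) n) h1
      (by simp only; omega) (le_max_right _ _)
    rw [← e1, e2]
  have k1 := congrArg Prod.fst (key 0 (Nat.zero_le _))
  have k2 := congrArg Prod.snd (key p le_rfl)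
  exact Prod.ext k1 k2

theorem FEinf_eq {e : ℕ → FE} (h : Conv e) : FEinf e = e 0 * FEinf (fun j => e (j + 1)) := by
  obtain ⟨K, hK⟩ := h
  apply FE.ext_ev
  intro c
  have hK' : ∀ j, K ≤ j → FixFE j ((fun j => e (j + 1)) j) :=
    fun j hj => (hK (j + 1) (by omega)).mono (by omega)
  rw [FE.mul_ev, FEinf_ev hK' c (n := max K (wt c.1 + c.2)) (le_max_left _ _) (le_max_right _ _),
    FEinf_ev hK c (n := max K (wt c.1 + c.2) + 1) (by omega) (by omega), fp_succ', FE.mul_ev]

theorem FEinf_fix {e : ℕ → FE} {n : ℕ} (h : Conv e) (he : ∀ j, FixFE n (e j)) :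
    FixFE n (FEinf e) := by
  obtain ⟨K, hK⟩ := h
  intro c hc
  rw [FEinf_ev hK c (n := max K (wt c.1 + c.2)) (le_max_left _ _) (le_max_right _ _)]
  have : ∀ m, FixFE n (fp e m) := by
    intro m
    induction m with
    | zero => exact fixFE_one n
    | succ m ih => exact ih.mul (he m)
  exact this _ c hc

theorem fp_one (n : ℕ) : fp (fun _ => 1) n = 1 := by
  induction n with
  | zero => rfl
  | succ n ih => show fp _ n * 1 = 1; rw [ih, mul_one]

theorem FEinf_one : FEinf (fun _ => 1) = 1 := by
  apply FE.ext_ev
  intro c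
  rw [FEinf_ev (K := 0) (fun j _ => fixFE_one j) c (n := wt c.1 + c.2) (Nat.zero_le _) le_rfl,
    fp_one]

theorem fp_eventually {X : Type} {l : Filter X} {e : X → ℕ → FE} {e₀ : ℕ → FE}
    (h : ∀ j c, ∀ᶠ x in l, (e x j).ev c = (e₀ j).ev c) (n : ℕ) (c : List ℕ × ℕ) :
    ∀ᶠ x in l, (fp (e x) n).ev c = (fp e₀ n).ev c := by
  induction n generalizing c with
  | zero => exact Filter.Eventually.of_forall (fun _ => rfl)
  | succ n ih =>
    filter_upwards [h n c, ih ((e₀ n).ev c)] with x h1 h2
    show (fp (e x) n).ev ((e x n).ev c) = (fp e₀ n).ev ((e₀ n).ev c)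
    rw [h1, h2]

/-! ### Closed classes of embeddings -/

/-- a class of embeddings closed under composition, changes beyond the frontier, and infinite
compositions -/
structure Cls (C : FE → Prop) : Prop where
  one : C 1
  mul : ∀ e f, C e → C f → C (e * f)
  br : ∀ n (e : List ℕ → FE), (∀ s, C (e s)) → C (brF n e)
  inf : ∀ e : ℕ → FE, (∀ j, C (e j)) → C (FEinf e)

theorem cls_true : Cls (fun _ => True) := ⟨trivial, fun _ _ _ _ => trivial, fun _ _ _ => trivial,
  fun _ _ => trivial⟩

end Pool.Agent.H735.FM
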