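import Mathlib
import Pool.Graph.R_pool_sql_team_seeded_620a6dc7.Helper467_LV.Fusion
import Pool.Agent.H735.FM.Node

/-!
The monoid `GG I` of progressive continuous families of embeddings with countable support, acting
on the space `Om I` of families of sequences.
-/

set_option autoImplicit false

namespace Pool.Agent.H735.FM

open Set Filter
open Pool.Agent.Helper467_LV (pre pre_length pre_zero pre_succ pre_getElem pre_eq_iff pre_take
  pre_eq_of_le ofList pre_ofList pre_eq_of_append apply_of_pre Om N mem_N N_anti N_self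
  N_of_agree N_congr N_coord N_pre N_agree tendsto_N tendsto_N_id)

variable {I : Type} [LinearOrder I]

/-- The family `E` of embeddings has support `A`: outside `A` it is trivial, and `E γ x`
depends continuously on the coordinates of `x` which are in `A` and below `γ`. -/
def Supp (A : Set I) (E : I → Om I → FE) : Prop :=
  (∀ γ, γ ∉ A → ∀ x, E γ x = 1) ∧
  ∀ γ x c, ∀ᶠ x' in N (A ∩ Iio γ) x, (E γ x').ev c = (E γ x).ev c

theorem Supp.mono {A B : Set I} (h : A ⊆ B) {E : I → Om I → FE} (hE : Supp A E) : Supp B E :=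
  ⟨fun γ hγ x => hE.1 γ (fun h' => hγ (h h')) x,
    fun γ x u => N_anti (inter_subset_inter_left _ h) x (hE.2 γ x u)⟩

theorem Supp.congr {A : Set I} {E : I → Om I → FE} (hE : Supp A E) {γ : I} {x y : Om I}
    (h : ∀ δ ∈ A, δ < γ → x δ = y δ) : E γ x = E γ y := by
  apply FE.ext_ev
  intro c
  exact N_of_agree (hE.2 γ y c) (fun δ hδ => h δ hδ.1 hδ.2)

/-- progressive continuous families of embeddings with countable support -/
structure GG (I : Type) [LinearOrder I] where
  /-- the embeddings -/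
  E : I → Om I → FE
  /-- a countable support exists -/
  supp : ∃ A : Set I, A.Countable ∧ Supp A E

namespace GG

/-- the action on families of sequences -/
def act (t : GG I) (x : Om I) : Om I := fun γ => (t.E γ x).map (x γ)

/-- a countable support -/
def A (t : GG I) : Set I := t.supp.choose

theorem A_countable (t : GG I) : t.A.Countable := t.supp.choose_spec.1

theorem A_supp (t : GG I) : Supp t.A t.E := t.supp.choose_spec.2

theorem E_congr (t : GG I) {γ : I} {x y : Om I} (h : ∀ δ, δ < γ → x δ = y δ) :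
    t.E γ x = t.E γ y := t.A_supp.congr (fun δ _ h' => h δ h')

theorem act_congr (t : GG I) {γ : I} {x y : Om I} (h : ∀ δ, δ ≤ γ → x δ = y δ) :
    t.act x γ = t.act y γ := by
  unfold act
  rw [t.E_congr (fun δ hδ => h δ hδ.le), h γ le_rfl]

theorem act_eventually {A : Set I} (t : GG I) (hA : Supp A t.E) (γ : I) (i : ℕ) (x : Om I) :
    ∀ᶠ x' in N ((A ∩ Iio γ) ∪ {γ}) x, t.act x' γ i = t.act x γ i := by
  have h1 := N_anti (show A ∩ Iio γ ⊆ (A ∩ Iio γ) ∪ {γ} from subset_union_left) x
    (hA.2 γ x (pre (x γ) (i + 1), 0))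
  have h2 := N_pre (A := (A ∩ Iio γ) ∪ {γ}) x (show γ ∈ _ by simp) (i + 1)
  filter_upwards [h1, h2] with x' h1 h2
  unfold act FE.map
  rw [h2, FE.ev_tr h1]

/-- continuity of the action -/
theorem tendsto_act {A B : Set I} (t : GG I) (hA : Supp A t.E)
    (hB : ∀ δ ∈ B, A ∩ Iio δ ⊆ B) (x : Om I) : Tendsto t.act (N B x) (N B (t.act x)) := by
  apply tendsto_N
  intro γ hγ i
  apply N_anti _ x (t.act_eventually hA γ i x)
  rintro δ (hδ | rfl)
  · exact hB γ hγ hδ
  · exact hγ

theorem tendsto_act_lt {A : Set I} (t : GG I) (hA : Supp A t.E) (γ : I) (x : Om I) :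
    Tendsto t.act (N (A ∩ Iio γ) x) (N (A ∩ Iio γ) (t.act x)) :=
  t.tendsto_act hA (B := A ∩ Iio γ) (by
    intro δ hδ ε hε
    exact ⟨hε.1, lt_trans (mem_Iio.mp hε.2) (mem_Iio.mp hδ.2)⟩) x

theorem ext_E {p q : GG I} (h : p.E = q.E) : p = q := by
  cases p
  cases q
  simp only at h
  subst h
  rfl

instance : One (GG I) := ⟨⟨fun _ _ => 1, ∅, countable_empty, fun _ _ _ => rfl,
  fun _ _ _ => Filter.Eventually.of_forall (fun _ => rfl)⟩⟩

@[simp] theorem one_E (γ : I) (x : Om I) : (1 : GG I).E γ x = 1 := rfl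

@[simp] theorem one_act (x : Om I) : (1 : GG I).act x = x := by
  funext γ
  simp [act]

theorem supp_mul (t u : GG I) {A : Set I} (ht : Supp A t.E) (hu : Supp A u.E) :
    Supp A (fun γ x => t.E γ (u.act x) * u.E γ x) := by
  constructor
  · intro γ hγ x
    show t.E γ (u.act x) * u.E γ x = 1
    rw [ht.1 γ hγ, hu.1 γ hγ, one_mul]
  · intro γ x w
    have h1 := hu.2 γ x w
    have h2 := (u.tendsto_act_lt hu γ x).eventually (ht.2 γ (u.act x) ((u.E γ x).ev w))
    filter_upwards [h1, h2] with x' h1 h2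
    rw [FE.mul_ev, FE.mul_ev, h1, h2]

instance : Mul (GG I) := ⟨fun t u => ⟨fun γ x => t.E γ (u.act x) * u.E γ x,
  t.A ∪ u.A, t.A_countable.union u.A_countable,
    supp_mul t u (t.A_supp.mono subset_union_left) (u.A_supp.mono subset_union_right)⟩⟩

@[simp] theorem mul_E (t u : GG I) (γ : I) (x : Om I) :
    (t * u).E γ x = t.E γ (u.act x) * u.E γ x := rfl

@[simp] theorem mul_act (t u : GG I) (x : Om I) : (t * u).act x = t.act (u.act x) := by
  funext γ
  show ((t * u).E γ x).map (x γ) = (t.E γ (u.act x)).map ((u.E γ x).map (x γ))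
  rw [mul_E, FE.map_mul]

theorem Supp_mul {t u : GG I} {A : Set I} (ht : Supp A t.E) (hu : Supp A u.E) :
    Supp A (t * u).E := supp_mul t u ht hu

instance : Monoid (GG I) where
  mul_assoc a b c := ext_E (by
    funext γ x
    rw [mul_E, mul_E, mul_E, mul_E, mul_act, mul_assoc])
  one_mul a := ext_E (by
    funext γ x
    rw [mul_E, one_E, one_mul])
  mul_one a := ext_E (by
    funext γ x
    rw [mul_E, one_E, one_act, mul_one])

/-- the preorder: `q` is stronger than `p` if `q` factors through `p` -/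
instance : Preorder (GG I) where
  le q p := ∃ r, q = p * r
  le_refl p := ⟨1, by simp⟩
  le_trans := by
    rintro a b c ⟨r, rfl⟩ ⟨s, rfl⟩
    exact ⟨s * r, by rw [mul_assoc]⟩

theorem le_iff {p q : GG I} : q ≤ p ↔ ∃ r, q = p * r := Iff.rfl

theorem mul_le (p r : GG I) : p * r ≤ p := ⟨r, rfl⟩

end GG

end Pool.Agent.H735.FM
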