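import Mathlib
import Pool.Agent.H735.FM.Mon

/-!
Operations in the monoid `GG I`: the embeddings onto regions, division on the left, the lower and
upper parts, pulling back along a map acting on the lower coordinates.
-/

set_option autoImplicit false

namespace Pool.Agent.H735.FM

open Set Filter
open Pool.Agent.Helper467_LV (pre pre_length pre_zero pre_succ pre_getElem pre_eq_iff pre_take
  pre_eq_of_le ofList pre_ofList pre_eq_of_append apply_of_pre Om N mem_N N_anti N_self
  N_of_agree N_congr N_coord N_pre N_agree tendsto_N tendsto_N_id)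

variable {I : Type} [LinearOrder I]

/-- `t` acts only on the coordinates in `S` -/
def InS (S : Set I) (t : GG I) : Prop := ∀ γ, γ ∉ S → ∀ x, t.E γ x = 1

theorem InS.one {S : Set I} : InS S (1 : GG I) := fun _ _ _ => rfl

theorem InS.mul {S : Set I} {t u : GG I} (ht : InS S t) (hu : InS S u) : InS S (t * u) :=
  fun γ hγ x => by rw [GG.mul_E, ht γ hγ, hu γ hγ, one_mul]

theorem InS.mono {S T : Set I} (h : S ⊆ T) {t : GG I} (ht : InS S t) : InS T t :=
  fun γ hγ x => ht γ (fun h' => hγ (h h')) x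

theorem InS.act {S : Set I} {t : GG I} (ht : InS S t) {γ : I} (hγ : γ ∉ S) (x : Om I) :
    t.act x γ = x γ := by
  unfold GG.act
  rw [ht γ hγ, FE.map_one]

theorem InS.univ (t : GG I) : InS Set.univ t := fun _ hγ _ => absurd (mem_univ _) hγ

theorem InS.supp {S : Set I} {t : GG I} (ht : InS S t) {A : Set I} (hA : Supp A t.E)
    (hS : IsLowerSet S) : Supp (A ∩ S) t.E := by
  refine ⟨fun γ hγ x => ?_, fun γ x u => ?_⟩
  · by_cases h : γ ∈ S
    · exact hA.1 γ (fun h' => hγ ⟨h', h⟩) x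
    · exact ht γ h x
  · by_cases h : γ ∈ S
    · apply N_anti _ x (hA.2 γ x u)
      intro δ hδ
      exact ⟨⟨hδ.1, hS (le_of_lt (mem_Iio.mp hδ.2)) h⟩, hδ.2⟩
    · simp only [ht γ h]
      exact Filter.Eventually.of_forall (fun _ => trivial)

/-- the embedding onto the region given by `B` at the coordinates in `F` -/
def rho (F : Finset I) (B : I → List ℕ) : GG I where
  E := fun γ _ => if γ ∈ F then sh (B γ) else 1
  supp := ⟨F, F.countable_toSet, fun γ hγ x => if_neg (by simpa using hγ),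
    fun _ _ _ => Filter.Eventually.of_forall (fun _ => rfl)⟩

theorem rho_E (F : Finset I) (B : I → List ℕ) (γ : I) (x : Om I) :
    (rho F B).E γ x = if γ ∈ F then sh (B γ) else 1 := rfl

theorem rho_supp (F : Finset I) (B : I → List ℕ) {A : Set I} (h : ↑F ⊆ A) :
    Supp A (rho F B).E :=
  ⟨fun γ hγ x => if_neg (fun h' => hγ (h (by simpa using h'))),
    fun _ _ _ => Filter.Eventually.of_forall (fun _ => rfl)⟩

theorem rho_inS (F : Finset I) (B : I → List ℕ) {S : Set I} (h : ↑F ⊆ S) :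
    InS S (rho F B) := fun γ hγ _ => if_neg (fun h' => hγ (h (by simpa using h')))

theorem rho_act (F : Finset I) (B : I → List ℕ) (x : Om I) (γ : I) :
    (rho F B).act x γ = if γ ∈ F then (sh (B γ)).map (x γ) else x γ := by
  unfold GG.act
  rw [rho_E]
  split_ifs <;> simp

/-- inverse of `rho` on families of sequences -/
def unrho (F : Finset I) (B : I → List ℕ) (x : Om I) : Om I :=
  fun γ => if γ ∈ F then unsh (B γ) (x γ) else x γ

/-- being in a region -/
def RegF (F : Finset I) (B : I → List ℕ) (x : Om I) : Prop :=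
  ∀ γ ∈ F, pre (x γ) (B γ).length = B γ

theorem regF_rho (F : Finset I) (B : I → List ℕ) (x : Om I) :
    RegF F B ((rho F B).act x) := by
  intro γ hγ
  rw [rho_act, if_pos hγ]
  exact sh_map _ _

theorem unrho_rho (F : Finset I) (B : I → List ℕ) (x : Om I) :
    unrho F B ((rho F B).act x) = x := by
  funext γ
  unfold unrho
  rw [rho_act]
  split_ifs with h
  · rw [unsh_sh]
  · rfl

theorem rho_unrho (F : Finset I) (B : I → List ℕ) (x : Om I) (h : RegF F B x) :
    (rho F B).act (unrho F B x) = x := by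
  funext γ
  rw [rho_act]
  unfold unrho
  by_cases hγ : γ ∈ F
  · simp only [if_pos hγ]
    exact sh_unsh _ _ (h γ hγ)
  · simp only [if_neg hγ]

theorem div_aux (r : GG I) (F : Finset I) (B : I → List ℕ)
    (h : ∀ x, RegF F B (r.act x)) (γ : I) (hγ : γ ∈ F) (x : Om I) :
    B γ <+: (r.E γ x).tr [] := by
  apply FE.stem_prefix
  intro y
  have h1 := h (Function.update x γ y) γ hγ
  unfold GG.act at h1
  rw [r.E_congr (y := x) (fun δ hδ => by simp [hδ.ne]), Function.update_self] at h1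
  exact h1

/-- division by `rho F B` on the left -/
noncomputable def divG (r : GG I) (F : Finset I) (B : I → List ℕ)
    (h : ∀ x, RegF F B (r.act x)) : GG I where
  E := fun γ x => if hγ : γ ∈ F then divFE (r.E γ x) (B γ) (div_aux r F B h γ hγ x)
    else r.E γ x
  supp := by
    refine ⟨r.A ∪ F, r.A_countable.union F.countable_toSet, ?_, ?_⟩
    · intro γ hγ x
      simp only [mem_union, SetLike.mem_coe, not_or] at hγ
      exact (dif_neg hγ.2).trans (r.A_supp.1 γ hγ.1 x)
    · intro γ x u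
      have h0 : r.A ∩ Iio γ ⊆ (r.A ∪ ↑F) ∩ Iio γ := inter_subset_inter_left _ subset_union_left
      have h1 := N_anti h0 x (r.A_supp.2 γ x u)
      filter_upwards [h1] with x' hx'
      split_ifs
      · rw [divFE_ev, divFE_ev, hx']
      · exact hx'

theorem divG_E_of_mem (r : GG I) (F : Finset I) (B : I → List ℕ)
    (h : ∀ x, RegF F B (r.act x)) (γ : I) (hγ : γ ∈ F) (x : Om I) :
    (divG r F B h).E γ x = divFE (r.E γ x) (B γ) (div_aux r F B h γ hγ x) :=
  dif_pos hγ

theorem divG_E_of_notMem (r : GG I) (F : Finset I) (B : I → List ℕ)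
    (h : ∀ x, RegF F B (r.act x)) (γ : I) (hγ : γ ∉ F) (x : Om I) :
    (divG r F B h).E γ x = r.E γ x :=
  dif_neg hγ

theorem rho_mul_divG (r : GG I) (F : Finset I) (B : I → List ℕ)
    (h : ∀ x, RegF F B (r.act x)) : rho F B * divG r F B h = r := by
  apply GG.ext_E
  funext γ x
  rw [GG.mul_E, rho_E]
  by_cases hγ : γ ∈ F
  · rw [if_pos hγ, divG_E_of_mem r F B h γ hγ, sh_mul_divFE]
  · rw [if_neg hγ, divG_E_of_notMem r F B h γ hγ, one_mul]

theorem divG_act (r : GG I) (F : Finset I) (B : I → List ℕ)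
    (h : ∀ x, RegF F B (r.act x)) (x : Om I) :
    (divG r F B h).act x = unrho F B (r.act x) := by
  conv_rhs => rw [← rho_mul_divG r F B h, GG.mul_act, unrho_rho]

theorem divG_supp (r : GG I) (F : Finset I) (B : I → List ℕ)
    (h : ∀ x, RegF F B (r.act x)) {A : Set I} (hA : Supp A r.E) (hF : ↑F ⊆ A) :
    Supp A (divG r F B h).E := by
  constructor
  · intro γ hγ x
    rw [divG_E_of_notMem r F B h γ (fun h' => hγ (hF (by simpa using h'))), hA.1 γ hγ]
  · intro γ x u
    filter_upwards [hA.2 γ x u] with x' hx'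
    by_cases hγ : γ ∈ F
    · rw [divG_E_of_mem r F B h γ hγ, divG_E_of_mem r F B h γ hγ]
      rw [divFE_ev, divFE_ev, hx']
    · rw [divG_E_of_notMem r F B h γ hγ, divG_E_of_notMem r F B h γ hγ]
      exact hx'

theorem divG_inS (r : GG I) (F : Finset I) (B : I → List ℕ)
    (h : ∀ x, RegF F B (r.act x)) {S : Set I} (hr : InS S r) (hF : ↑F ⊆ S) :
    InS S (divG r F B h) := by
  intro γ hγ x
  rw [divG_E_of_notMem r F B h γ (fun h' => hγ (hF (by simpa using h'))), hr γ hγ]

/-- the embedding onto the set of `x` agreeing with `y` at the entries below `n` at the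
coordinates in `F` -/
def iota (F : Finset I) (n : ℕ) (y : Om I) : GG I := rho F (fun γ => pre (y γ) n)

omit [LinearOrder I] in
theorem regF_iota {F : Finset I} {n : ℕ} {y x : Om I} :
    RegF F (fun γ => pre (y γ) n) x ↔ ∀ γ ∈ F, ∀ i, i < n → x γ i = y γ i := by
  constructor
  · intro h γ hγ
    have h1 := h γ hγ
    rw [pre_length] at h1
    exact (pre_eq_iff _ _ _).mp h1
  · intro h γ hγ
    rw [pre_length]
    exact (pre_eq_iff _ _ _).mpr (h γ hγ)

theorem iota_agree (F : Finset I) (n : ℕ) (y x : Om I) :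
    ∀ γ ∈ F, ∀ i, i < n → (iota F n y).act x γ i = y γ i := regF_iota.mp (regF_rho _ _ _)

theorem iota_supp (F : Finset I) (n : ℕ) (y : Om I) {A : Set I} (h : ↑F ⊆ A) :
    Supp A (iota F n y).E := rho_supp _ _ h

theorem iota_inS (F : Finset I) (n : ℕ) (y : Om I) {S : Set I} (h : ↑F ⊆ S) :
    InS S (iota F n y) := rho_inS _ _ h

/-- a point of the region is in the range -/
theorem exists_iota {F : Finset I} {n : ℕ} {y x : Om I}
    (h : ∀ γ ∈ F, ∀ i, i < n → x γ i = y γ i) : ∃ x', (iota F n y).act x' = x :=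
  ⟨_, rho_unrho _ _ _ (regF_iota.mpr h)⟩

/-- factoring through `iota` -/
theorem factor {F : Finset I} {n : ℕ} {y : Om I} {r : GG I}
    (h : ∀ x, ∀ γ ∈ F, ∀ i, i < n → r.act x γ i = y γ i) :
    ∃ r', r = iota F n y * r' ∧ (∀ S : Set I, InS S r → ↑F ⊆ S → InS S r') ∧
      ∀ A : Set I, Supp A r.E → ↑F ⊆ A → Supp A r'.E :=
  ⟨divG r F _ (fun x => regF_iota.mpr (h x)), (rho_mul_divG _ _ _ _).symm,
    fun _ hr hF => divG_inS _ _ _ _ hr hF, fun _ hr hF => divG_supp _ _ _ _ hr hF⟩

theorem iota_congr {F : Finset I} {n : ℕ} {y y' : Om I}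
    (h : ∀ γ ∈ F, ∀ i, i < n → y' γ i = y γ i) : iota F n y' = iota F n y := by
  apply GG.ext_E
  funext γ x
  unfold iota
  rw [rho_E, rho_E]
  split_ifs with hγ
  · have : pre (y' γ) n = pre (y γ) n := (pre_eq_iff _ _ _).mpr (h γ hγ)
    simp only [this]
  · rfl

/-- continuity, in terms of `iota` -/
theorem factor_of_eventually {A : Set I} {r : GG I} {y : Om I} {F : Finset I} {n : ℕ}
    (hA : ∀ δ ∈ A, r.A ∩ Iio δ ⊆ A) (hF : ↑F ⊆ A) :
    ∃ F' : Finset I, ↑F' ⊆ A ∧ ∃ n', ∀ x, (∀ γ ∈ F', ∀ i, i < n' → x γ i = y γ i) →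
      ∀ γ ∈ F, ∀ i, i < n → r.act x γ i = r.act y γ i := by
  have h1 := (r.tendsto_act r.A_supp hA y).eventually (N_agree (r.act y) F hF n)
  obtain ⟨F', hF', n', h2⟩ := h1
  exact ⟨F', hF', n', h2⟩

/-- insertion of the finite sequence `s` at the coordinate `β` -/
def ins (β : I) (s : List ℕ) : GG I := rho {β} (fun _ => s)

theorem ins_E_self (β : I) (s : List ℕ) (x : Om I) : (ins β s).E β x = sh s := by
  unfold ins
  rw [rho_E]
  simp

theorem ins_E_ne (β : I) (s : List ℕ) (x : Om I) (γ : I) (h : γ ≠ β) : (ins β s).E γ x = 1 := by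
  unfold ins
  rw [rho_E]
  simp [h]

theorem ins_act_self (β : I) (s : List ℕ) (x : Om I) :
    (ins β s).act x β = (sh s).map (x β) := by
  unfold GG.act
  rw [ins_E_self]

theorem ins_act_ne (β : I) (s : List ℕ) (x : Om I) (γ : I) (h : γ ≠ β) :
    (ins β s).act x γ = x γ := by
  unfold GG.act
  rw [ins_E_ne β s x γ h, FE.map_one]

theorem ins_inS (β : I) (s : List ℕ) {S : Set I} (h : β ∈ S) : InS S (ins β s) :=
  rho_inS _ _ (by simpa using h)

theorem ins_supp (β : I) (s : List ℕ) {A : Set I} (h : β ∈ A) : Supp A (ins β s).E :=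
  rho_supp _ _ (by simpa using h)

theorem ins_nil (β : I) : ins β [] = 1 := by
  apply GG.ext_E
  funext γ x
  rw [GG.one_E]
  by_cases h : γ = β
  · subst h; rw [ins_E_self, sh_nil]
  · exact ins_E_ne β [] x γ h

theorem ins_mul_ins (β : I) (s v : List ℕ) : ins β s * ins β v = ins β (s ++ v) := by
  apply GG.ext_E
  funext γ x
  rw [GG.mul_E]
  by_cases h : γ = β
  · subst h; rw [ins_E_self, ins_E_self, ins_E_self, sh_mul]
  · rw [ins_E_ne _ _ _ _ h, ins_E_ne _ _ _ _ h, ins_E_ne _ _ _ _ h, one_mul]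

open Classical in
/-- the part of `t` below `β` -/
noncomputable def low (β : I) (t : GG I) : GG I where
  E := fun γ x => if γ < β then t.E γ x else 1
  supp := by
    refine ⟨t.A, t.A_countable, fun γ hγ x => ?_, fun γ x u => ?_⟩
    · show (if γ < β then t.E γ x else 1) = 1
      split_ifs
      · exact t.A_supp.1 γ hγ x
      · rfl
    · show ∀ᶠ x' in N (t.A ∩ Iio γ) x, (if γ < β then t.E γ x' else 1).ev u =
        (if γ < β then t.E γ x else 1).ev u
      split_ifs
      · exact t.A_supp.2 γ x u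
      · exact Filter.Eventually.of_forall (fun _ => rfl)

open Classical in
/-- the part of `t` from `β` on -/
noncomputable def up (β : I) (t : GG I) : GG I where
  E := fun γ x => if γ < β then 1 else t.E γ x
  supp := by
    refine ⟨t.A, t.A_countable, fun γ hγ x => ?_, fun γ x u => ?_⟩
    · show (if γ < β then 1 else t.E γ x) = 1
      split_ifs
      · rfl
      · exact t.A_supp.1 γ hγ x
    · show ∀ᶠ x' in N (t.A ∩ Iio γ) x, (if γ < β then 1 else t.E γ x').ev u =
        (if γ < β then 1 else t.E γ x).ev u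
      split_ifs
      · exact Filter.Eventually.of_forall (fun _ => rfl)
      · exact t.A_supp.2 γ x u

theorem low_E_lt {β γ : I} (h : γ < β) (t : GG I) (x : Om I) : (low β t).E γ x = t.E γ x :=
  if_pos h

theorem low_E_ge {β γ : I} (h : β ≤ γ) (t : GG I) (x : Om I) : (low β t).E γ x = 1 :=
  if_neg (not_lt.mpr h)

theorem up_E_lt {β γ : I} (h : γ < β) (t : GG I) (x : Om I) : (up β t).E γ x = 1 :=
  if_pos h

theorem up_E_ge {β γ : I} (h : β ≤ γ) (t : GG I) (x : Om I) : (up β t).E γ x = t.E γ x :=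
  if_neg (not_lt.mpr h)

theorem low_inS (β : I) (t : GG I) : InS (Iio β) (low β t) :=
  fun _ hγ _ => low_E_ge (not_lt.mp hγ) t _

theorem up_inS (β : I) (t : GG I) : InS (Ici β) (up β t) :=
  fun _ hγ _ => up_E_lt (not_le.mp hγ) t _

theorem low_inS' {S : Set I} (β : I) {t : GG I} (h : InS S t) : InS S (low β t) := by
  intro γ hγ x
  rcases lt_or_ge γ β with h1 | h1
  · rw [low_E_lt h1, h γ hγ]
  · exact low_E_ge h1 t x

theorem up_inS' {S : Set I} (β : I) {t : GG I} (h : InS S t) : InS S (up β t) := by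
  intro γ hγ x
  rcases lt_or_ge γ β with h1 | h1
  · exact up_E_lt h1 t x
  · rw [up_E_ge h1, h γ hγ]

theorem low_supp {A : Set I} (β : I) {t : GG I} (h : Supp A t.E) : Supp A (low β t).E := by
  refine ⟨fun γ hγ x => ?_, fun γ x u => ?_⟩
  · rcases lt_or_ge γ β with h1 | h1
    · rw [low_E_lt h1, h.1 γ hγ]
    · exact low_E_ge h1 t x
  · rcases lt_or_ge γ β with h1 | h1
    · simp only [low_E_lt h1]; exact h.2 γ x u
    · simp only [low_E_ge h1]; exact Filter.Eventually.of_forall (fun _ => trivial)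

theorem up_supp {A : Set I} (β : I) {t : GG I} (h : Supp A t.E) : Supp A (up β t).E := by
  refine ⟨fun γ hγ x => ?_, fun γ x u => ?_⟩
  · rcases lt_or_ge γ β with h1 | h1
    · exact up_E_lt h1 t x
    · rw [up_E_ge h1, h.1 γ hγ]
  · rcases lt_or_ge γ β with h1 | h1
    · simp only [up_E_lt h1]; exact Filter.Eventually.of_forall (fun _ => trivial)
    · simp only [up_E_ge h1]; exact h.2 γ x u

theorem low_mul_up (β : I) (t : GG I) : low β t * up β t = t := by
  apply GG.ext_E
  funext γ x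
  rw [GG.mul_E]
  rcases lt_or_ge γ β with h1 | h1
  · rw [low_E_lt h1, up_E_lt h1, mul_one]
    apply t.E_congr
    intro δ hδ
    exact (up_inS β t).act (by simpa using hδ.trans h1) x
  · rw [low_E_ge h1, up_E_ge h1, one_mul]

theorem low_mul (β : I) (p q : GG I) : low β (p * q) = low β p * low β q := by
  apply GG.ext_E
  funext γ x
  rw [GG.mul_E]
  rcases lt_or_ge γ β with h1 | h1
  · rw [low_E_lt h1, low_E_lt h1, low_E_lt h1, GG.mul_E]
    congr 1
    apply p.E_congr
    intro δ hδ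
    unfold GG.act
    rw [low_E_lt (hδ.trans h1)]
  · rw [low_E_ge h1, low_E_ge h1, low_E_ge h1, one_mul]

theorem low_of_inS {β : I} {t : GG I} (h : InS (Iio β) t) : low β t = t := by
  apply GG.ext_E
  funext γ x
  rcases lt_or_ge γ β with h1 | h1
  · rw [low_E_lt h1]
  · rw [low_E_ge h1, h γ (by simpa using h1)]

/-- `φ` acts on the coordinates below `β` only, reading only coordinates in `A` below `β` -/
def LowMap (β : I) (A : Set I) (φ : Om I → Om I) : Prop :=
  (∀ x γ, β ≤ γ → φ x γ = x γ) ∧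
  ∀ γ ∈ A, γ < β → ∀ i x, ∀ᶠ x' in N (A ∩ Iio β) x, φ x' γ i = φ x γ i

theorem LowMap.tendsto {β : I} {A : Set I} {φ : Om I → Om I} (h : LowMap β A φ) {γ : I}
    (hγ : β ≤ γ) (x : Om I) : Tendsto φ (N (A ∩ Iio γ) x) (N (A ∩ Iio γ) (φ x)) := by
  apply tendsto_N
  intro δ hδ i
  rcases lt_or_ge δ β with h1 | h1
  · exact N_anti (inter_subset_inter_right A (Iio_subset_Iio hγ)) x (h.2 δ hδ.1 h1 i x)
  · simp only [h.1 _ δ h1]
    exact N_coord x hδ i

theorem LowMap.mono_of {β : I} {A : Set I} {φ : Om I → Om I} (h0 : ∀ x γ, β ≤ γ → φ x γ = x γ)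
    (h : ∀ γ, γ < β → ∀ i x, ∀ᶠ x' in N (A ∩ Iio β) x, φ x' γ i = φ x γ i) : LowMap β A φ :=
  ⟨h0, fun γ _ h1 => h γ h1⟩

theorem lowMap_act {β : I} {A : Set I} {p : GG I} (hp : InS (Iio β) p) (hA : Supp A p.E) :
    LowMap β A p.act := by
  constructor
  · intro x γ hγ
    exact hp.act (by simpa using hγ) x
  · intro γ hγA hγ i x
    apply N_anti _ x (p.act_eventually hA γ i x)
    rintro δ (hδ | rfl)
    · exact ⟨hδ.1, lt_trans (mem_Iio.mp hδ.2) hγ⟩
    · exact ⟨hγA, hγ⟩

theorem lowMap_unrho {β : I} {A : Set I} (F : Finset I) (hF : ↑F ⊆ Iio β)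
    (B : I → List ℕ) : LowMap β A (unrho F B) := by
  constructor
  · intro x γ hγ
    unfold unrho
    rw [if_neg]
    intro h
    exact absurd (hF h) (by simpa using hγ)
  · intro γ hγA hγ i x
    have h1 := N_pre (A := A ∩ Iio β) x ⟨hγA, hγ⟩ (i + (B γ).length + 1)
    filter_upwards [h1] with x' hx'
    rw [pre_eq_iff] at hx'
    unfold unrho
    split_ifs with h2
    · unfold unsh
      exact hx' _ (by omega)
    · exact hx' i (by omega)

/-- gluing of elements acting from `β` on, along a partition depending on the coordinates below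
`β`, after maps acting below `β` -/
noncomputable def glueUp (β : I) (A : Set I) (hA : A.Countable) (idx : Om I → ℕ)
    (hidx : ∀ x, ∀ᶠ x' in N (A ∩ Iio β) x, idx x' = idx x) (φ : ℕ → Om I → Om I)
    (hφ : ∀ k, LowMap β A (φ k)) (w : ℕ → GG I) (hw : ∀ k, InS (Ici β) (w k))
    (hwA : ∀ k, Supp A (w k).E) : GG I where
  E := fun γ x => (w (idx x)).E γ (φ (idx x) x)
  supp := by
    refine ⟨A, hA, fun γ hγ x => (hwA _).1 γ hγ _, fun γ x u => ?_⟩
    rcases lt_or_ge γ β with h1 | h1
    · simp only [hw _ γ (by simpa using h1)]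
      exact Filter.Eventually.of_forall (fun _ => trivial)
    · have h2 := N_anti (inter_subset_inter_right A (Iio_subset_Iio h1)) x (hidx x)
      have h3 := ((hφ (idx x)).tendsto h1 x).eventually ((hwA (idx x)).2 γ (φ (idx x) x) u)
      filter_upwards [h2, h3] with x' h2 h3
      rw [h2, h3]

theorem glueUp_E (β : I) (A : Set I) (hA : A.Countable) (idx : Om I → ℕ)
    (hidx : ∀ x, ∀ᶠ x' in N (A ∩ Iio β) x, idx x' = idx x) (φ : ℕ → Om I → Om I)
    (hφ : ∀ k, LowMap β A (φ k)) (w : ℕ → GG I) (hw : ∀ k, InS (Ici β) (w k))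
    (hwA : ∀ k, Supp A (w k).E) (γ : I) (x : Om I) :
    (glueUp β A hA idx hidx φ hφ w hw hwA).E γ x = (w (idx x)).E γ (φ (idx x) x) := rfl

theorem glueUp_inS (β : I) (A : Set I) (hA : A.Countable) (idx : Om I → ℕ)
    (hidx : ∀ x, ∀ᶠ x' in N (A ∩ Iio β) x, idx x' = idx x) (φ : ℕ → Om I → Om I)
    (hφ : ∀ k, LowMap β A (φ k)) (w : ℕ → GG I) (hw : ∀ k, InS (Ici β) (w k))
    (hwA : ∀ k, Supp A (w k).E) : InS (Ici β) (glueUp β A hA idx hidx φ hφ w hw hwA) := by
  intro γ hγ x
  rw [glueUp_E, hw _ γ hγ]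

theorem glueUp_inS' (β : I) (A : Set I) (hA : A.Countable) (idx : Om I → ℕ)
    (hidx : ∀ x, ∀ᶠ x' in N (A ∩ Iio β) x, idx x' = idx x) (φ : ℕ → Om I → Om I)
    (hφ : ∀ k, LowMap β A (φ k)) (w : ℕ → GG I) (hw : ∀ k, InS (Ici β) (w k))
    (hwA : ∀ k, Supp A (w k).E) {S : Set I} (hS : ∀ k, InS S (w k)) :
    InS S (glueUp β A hA idx hidx φ hφ w hw hwA) := by
  intro γ hγ x
  rw [glueUp_E, hS _ γ hγ]

/-- `u` pulled back along `φ`, which acts below `β`, while `u` acts from `β` on -/
theorem exists_pull {β : I} {A : Set I} (hA : A.Countable) {φ : Om I → Om I}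
    (hφ : LowMap β A φ) {u : GG I} (hu : InS (Ici β) u) (huA : Supp A u.E) :
    ∃ u' : GG I, ∀ γ x, u'.E γ x = u.E γ (φ x) :=
  ⟨glueUp β A hA (fun _ => 0) (fun _ => Filter.Eventually.of_forall (fun _ => rfl)) (fun _ => φ)
    (fun _ => hφ) (fun _ => u) (fun _ => hu) (fun _ => huA), fun _ _ => rfl⟩

/-- commuting an element acting from `β` on with one acting below `β` -/
theorem exists_comm {β : I} {u p : GG I} (hu : InS (Ici β) u) (hp : InS (Iio β) p) :
    ∃ u' : GG I, (∀ γ x, u'.E γ x = u.E γ (p.act x)) ∧ u * p = p * u' := by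
  obtain ⟨u', hu'⟩ := exists_pull (u.A_countable.union p.A_countable)
    (lowMap_act hp (p.A_supp.mono subset_union_right)) hu (u.A_supp.mono subset_union_left)
  refine ⟨u', hu', ?_⟩
  apply GG.ext_E
  funext γ x
  rw [GG.mul_E, GG.mul_E, hu']
  rcases lt_or_ge γ β with h1 | h1
  · rw [hu γ (by simpa using h1), one_mul, mul_one]
    apply p.E_congr
    intro δ hδ
    unfold GG.act
    rw [hu', hu δ (by simpa using hδ.trans h1), FE.map_one]
  · rw [hp γ (by simpa using h1), hp γ (by simpa using h1), mul_one, one_mul]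

end Pool.Agent.H735.FM
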