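import Mathlib
import Pool.Agent.H735.FM.Ops

/-!
Infinite compositions.
-/

set_option autoImplicit false

namespace Pool.Agent.H735.FM

open Set Filter
open Pool.Agent.Helper467_LV (pre pre_length pre_zero pre_succ pre_getElem pre_eq_iff pre_take
  pre_eq_of_le ofList pre_ofList pre_eq_of_append apply_of_pre Om N mem_N N_anti N_self
  N_of_agree N_congr N_coord N_pre N_agree tendsto_N tendsto_N_id wt)

variable {I : Type} [LinearOrder I] [WellFoundedLT I]

/-- values of the infinite compositions, by recursion on the coordinate -/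
noncomputable def Tv (t : ℕ → GG I) : I → ℕ → Om I → (ℕ → ℕ) :=
  (wellFounded_lt : WellFounded (fun a b : I => a < b)).fix
    (fun γ ih k x => (FEinf (fun j => (t (k + j)).E γ
      (fun δ => if h : δ < γ then ih δ h (k + j + 1) x else fun _ => 0))).map (x γ))

/-- the infinite compositions as maps -/
noncomputable def Tx (t : ℕ → GG I) (k : ℕ) (x : Om I) : Om I := fun γ => Tv t γ k x

/-- the embeddings of the infinite compositions -/
noncomputable def TE (t : ℕ → GG I) (k : ℕ) (γ : I) (x : Om I) : FE :=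
  FEinf (fun j => (t (k + j)).E γ (Tx t (k + j + 1) x))

theorem Tx_eq (t : ℕ → GG I) (k : ℕ) (x : Om I) (γ : I) :
    Tx t k x γ = (TE t k γ x).map (x γ) := by
  unfold Tx Tv TE
  rw [WellFounded.fix_eq]
  congr 2
  funext j
  apply (t (k + j)).E_congr
  intro δ hδ
  rw [dif_pos hδ]
  rfl

/-- The sequence `t` can be composed: each coordinate is eventually fixed more and more. -/
def Fusible (t : ℕ → GG I) : Prop := ∀ γ, ∃ K, ∀ j, K ≤ j → ∀ x, FixFE j ((t j).E γ x)

theorem Fusible.conv {t : ℕ → GG I} (h : Fusible t) (γ : I) : ∃ K, ∀ k (y : ℕ → Om I) j, K ≤ j →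
    FixFE j ((t (k + j)).E γ (y j)) := by
  obtain ⟨K, hK⟩ := h γ
  exact ⟨K, fun k y j hj => (hK (k + j) (by omega) _).mono (by omega)⟩

theorem Tx_supp (t : ℕ → GG I) (ht : Fusible t) {A : Set I} (hA : ∀ k, Supp A (t k).E) (γ : I) :
    ∀ k x, (∀ i, ∀ᶠ x' in N ((A ∩ Iio γ) ∪ {γ}) x, Tx t k x' γ i = Tx t k x γ i) ∧
      ∀ c, ∀ᶠ x' in N (A ∩ Iio γ) x, (TE t k γ x').ev c = (TE t k γ x).ev c := by
  induction γ using WellFoundedLT.induction with
  | ind γ ih =>
  intro k x
  have h1 : ∀ m, Tendsto (Tx t m) (N (A ∩ Iio γ) x) (N (A ∩ Iio γ) (Tx t m x)) := by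
    intro m
    apply tendsto_N
    intro δ hδ i
    apply N_anti _ x ((ih δ hδ.2 m x).1 i)
    rintro ε (hε | rfl)
    · exact ⟨hε.1, lt_trans (mem_Iio.mp hε.2) (mem_Iio.mp hδ.2)⟩
    · exact hδ
  have h2 : ∀ c, ∀ᶠ x' in N (A ∩ Iio γ) x, (TE t k γ x').ev c = (TE t k γ x).ev c := by
    intro c
    obtain ⟨K, hK⟩ := ht.conv γ
    have h3 : ∀ x', (TE t k γ x').ev c =
        (fp (fun j => (t (k + j)).E γ (Tx t (k + j + 1) x')) (max K (wt c.1 + c.2))).ev c := by
      intro x'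
      exact FEinf_ev (hK k (fun j => Tx t (k + j + 1) x')) c (le_max_left _ _) (le_max_right _ _)
    simp only [h3]
    apply fp_eventually
    intro j v
    exact (h1 (k + j + 1)).eventually ((hA (k + j)).2 γ (Tx t (k + j + 1) x) v)
  refine ⟨fun i => ?_, h2⟩
  have h4 := N_anti (show A ∩ Iio γ ⊆ (A ∩ Iio γ) ∪ {γ} from subset_union_left) x
    (h2 (pre (x γ) (i + 1), 0))
  have h5 := N_pre (A := (A ∩ Iio γ) ∪ {γ}) x (show γ ∈ _ by simp) (i + 1)
  filter_upwards [h4, h5] with x' h4 h5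
  rw [Tx_eq, Tx_eq]
  unfold FE.map
  rw [h5, FE.ev_tr h4]

/-- the infinite compositions exist -/
theorem exists_limit (t : ℕ → GG I) (ht : Fusible t) {A : Set I} (hAc : A.Countable)
    (hA : ∀ k, Supp A (t k).E) :
    ∃ T : ℕ → GG I, (∀ k, T k = t k * T (k + 1)) ∧ (∀ k, Supp A (T k).E) ∧
      (∀ γ n k, (∀ j, k ≤ j → ∀ x, FixFE n ((t j).E γ x)) → ∀ x, FixFE n ((T k).E γ x)) ∧
      (∀ S : Set I, (∀ k, InS S (t k)) → ∀ k, InS S (T k)) ∧
      (∀ C : FE → Prop, Cls C → (∀ k γ x, C ((t k).E γ x)) → ∀ k γ x, C ((T k).E γ x)) := by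
  have hS : ∀ k, Supp A (TE t k) := by
    intro k
    constructor
    · intro γ hγ x
      unfold TE
      simp only [(hA _).1 γ hγ]
      exact FEinf_one
    · intro γ x u
      exact (Tx_supp t ht hA γ k x).2 u
  refine ⟨fun k => ⟨TE t k, A, hAc, hS k⟩, ?_, hS, ?_, ?_, ?_⟩
  · intro k
    have hact : ∀ k x, (⟨TE t k, A, hAc, hS k⟩ : GG I).act x = Tx t k x := by
      intro k x
      funext γ
      rw [Tx_eq]
      rfl
    apply GG.ext_E
    funext γ x
    rw [GG.mul_E, hact]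
    show TE t k γ x = (t k).E γ (Tx t (k + 1) x) * TE t (k + 1) γ x
    unfold TE
    obtain ⟨K, hK⟩ := ht.conv γ
    rw [FEinf_eq ⟨K, hK k (fun j => Tx t (k + j + 1) x)⟩]
    have : ∀ j, k + 1 + j = k + (j + 1) := fun j => by omega
    simp only [this]
    rfl
  · intro γ n k h x
    obtain ⟨K, hK⟩ := ht.conv γ
    exact FEinf_fix ⟨K, hK k (fun j => Tx t (k + j + 1) x)⟩
      (fun j => h (k + j) (by omega) _)
  · intro S h k γ hγ x
    show TE t k γ x = 1
    unfold TE
    simp only [h _ γ hγ]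
    exact FEinf_one
  · intro C hC h k γ x
    exact hC.inf _ (fun j => h _ _ _)

end Pool.Agent.H735.FM
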