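import Mathlib
import Pool.Agent.H735.FM.Lim

/-!
Open sets and dense sets; local membership; the fusion lemma.
-/

set_option autoImplicit false

namespace Pool.Agent.H735.FM

open Set Filter
open Pool.Agent.Helper467_LV (pre pre_length pre_zero pre_succ pre_getElem pre_eq_iff pre_take
  pre_eq_of_le ofList pre_ofList pre_eq_of_append apply_of_pre Om N mem_N N_anti N_self
  N_of_agree N_congr N_coord N_pre N_agree tendsto_N tendsto_N_id wt exists_boxes exists_least
  box_eventually exists_idx exists_enf)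

variable {I : Type} [LinearOrder I]

/-- closed under extension, in the part `S` -/
def OpenS (S : Set I) (D : Set (GG I)) : Prop :=
  ∀ p r, InS S p → InS S r → p ∈ D → p * r ∈ D

/-- all embeddings of the family `t` are in the class `C` -/
def CG (C : FE → Prop) (t : GG I) : Prop := ∀ γ x, C (t.E γ x)

theorem CG.one {C : FE → Prop} (hC : Cls C) : CG C (1 : GG I) := fun _ _ => hC.one

theorem CG.mul {C : FE → Prop} (hC : Cls C) {t u : GG I} (ht : CG C t) (hu : CG C u) :
    CG C (t * u) := fun γ x => hC.mul _ _ (ht γ _) (hu γ x)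

theorem CG.low {C : FE → Prop} (hC : Cls C) (β : I) {t : GG I} (ht : CG C t) :
    CG C (low β t) := by
  intro γ x
  rcases lt_or_ge γ β with h | h
  · rw [low_E_lt h]; exact ht γ x
  · rw [low_E_ge h]; exact hC.one

theorem CG.up {C : FE → Prop} (hC : Cls C) (β : I) {t : GG I} (ht : CG C t) :
    CG C (up β t) := by
  intro γ x
  rcases lt_or_ge γ β with h | h
  · rw [up_E_lt h]; exact hC.one
  · rw [up_E_ge h]; exact ht γ x

/-- a pair of classes, of embeddings and of conditions, for a relative form of density -/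
structure Adm (C : FE → Prop) (M : GG I → Prop) : Prop where
  cls : Cls C
  mul : ∀ p r, M p → M r → M (p * r)
  of : ∀ r, CG C r → M r
  rho : ∀ F B, M (rho F B)

theorem Adm.one {C : FE → Prop} {M : GG I → Prop} (h : Adm C M) : M 1 :=
  h.of 1 (CG.one h.cls)

theorem adm_true : Adm (fun _ => True) (fun _ : GG I => True) :=
  ⟨cls_true, fun _ _ _ _ => trivial, fun _ _ => trivial, fun _ _ => trivial⟩

/-- dense, in the part `S`, for the conditions in `M`, with extensions in `C` -/
def DenseS (C : FE → Prop) (M : GG I → Prop) (S : Set I) (D : Set (GG I)) : Prop :=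
  ∀ p, InS S p → M p → ∃ r, InS S r ∧ CG C r ∧ p * r ∈ D

/-- locally in `D` -/
def LocD (S : Set I) (D : Set (GG I)) (t : GG I) : Prop :=
  ∃ A : Set I, A.Countable ∧ A ⊆ S ∧ ∀ y, ∃ F : Finset I, ↑F ⊆ A ∧ ∃ n, t * iota F n y ∈ D

theorem open_mul {S : Set I} {D : Set (GG I)} (hD : OpenS S D) {t r : GG I} {F : Finset I}
    {n : ℕ} {y : Om I} (ht : InS S t) (hr : InS S r) (hF : ↑F ⊆ S) (h : t * iota F n y ∈ D)
    (hry : ∀ x, ∀ γ ∈ F, ∀ i, i < n → r.act x γ i = y γ i) : t * r ∈ D := by
  obtain ⟨r', h1, h2, -⟩ := factor hry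
  rw [h1, ← mul_assoc]
  exact hD _ _ (ht.mul (iota_inS F n y hF)) (h2 S hr hF) h

theorem LocD.mul {S : Set I} (hS : IsLowerSet S) {D : Set (GG I)} (hD : OpenS S D) {t r : GG I}
    (ht : InS S t) (hr : InS S r) (h : LocD S D t) : LocD S D (t * r) := by
  obtain ⟨A, hA, hAS, h⟩ := h
  refine ⟨(A ∪ r.A) ∩ S, (hA.union r.A_countable).mono inter_subset_left, inter_subset_right,
    fun y => ?_⟩
  obtain ⟨F, hF, n, h1⟩ := h (r.act y)
  have hF' : ↑F ⊆ (A ∪ r.A) ∩ S := fun γ hγ => ⟨Or.inl (hF hγ), hAS (hF hγ)⟩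
  obtain ⟨F', h2, n', h3⟩ := factor_of_eventually (A := (A ∪ r.A) ∩ S) (r := r) (y := y) (F := F)
    (n := n) (by
      intro δ hδ ε hε
      exact ⟨Or.inr hε.1, hS (le_of_lt (mem_Iio.mp hε.2)) hδ.2⟩) hF'
  refine ⟨F', h2, n', ?_⟩
  rw [mul_assoc]
  apply open_mul hD ht (hr.mul (iota_inS F' n' y (fun γ hγ => (h2 hγ).2)))
    (fun γ hγ => hAS (hF hγ)) h1
  intro x γ hγ i hi
  rw [GG.mul_act]
  exact h3 _ (iota_agree F' n' y x) γ hγ i hi

theorem LocD.of_mem {S : Set I} {D : Set (GG I)} {t : GG I} (h : t ∈ D) :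
    LocD S D t := by
  refine ⟨∅, countable_empty, empty_subset _, fun y => ⟨∅, by simp, 0, ?_⟩⟩
  have : iota (∅ : Finset I) 0 y = 1 := by
    apply GG.ext_E
    funext γ x
    unfold iota
    rw [rho_E]
    simp
  rw [this, mul_one]
  exact h

/-- `t` fixes the sequences of weight at most `n` at the coordinates in `F` -/
def Fix (F : Finset I) (n : ℕ) (t : GG I) : Prop := ∀ γ ∈ F, ∀ x, FixFE n (t.E γ x)

theorem Fix.mul {F : Finset I} {n : ℕ} {t u : GG I} (ht : Fix F n t) (hu : Fix F n u) :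
    Fix F n (t * u) := fun γ hγ x => (ht γ hγ _).mul (hu γ hγ x)

theorem Fix.one {F : Finset I} {n : ℕ} : Fix F n (1 : GG I) := fun _ _ _ => fixFE_one n

/-- the coordinates moved by `t` -/
def Act (t : GG I) : Set I := {γ | ∃ x, t.E γ x ≠ 1}

theorem act_countable (t : GG I) : (Act t).Countable := by
  apply t.A_countable.mono
  rintro γ ⟨x, hx⟩
  by_contra h
  exact hx (t.A_supp.1 γ h x)

/-- an enumeration of the coordinates moved by `t` -/
noncomputable def enf (t : GG I) : ℕ → Finset I := (exists_enf (act_countable t)).choose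

theorem enf_sub (t : GG I) (j : ℕ) : ↑(enf t j) ⊆ Act t :=
  (exists_enf (act_countable t)).choose_spec.1 j

theorem enf_mem (t : GG I) (γ : I) (h : γ ∈ Act t) : ∃ j, γ ∈ enf t j :=
  (exists_enf (act_countable t)).choose_spec.2 γ h

variable [WellFoundedLT I]

theorem fusion {C : FE → Prop} {M : GG I → Prop} (hCM : Adm C M) (S : Set I) (F₀ : Finset I)
    (hF₀ : ↑F₀ ⊆ S) (n₀ : ℕ) (Step : ℕ → GG I → Finset I → GG I → Prop)
    (hstep : ∀ k P (F : Finset I), InS S P → M P → F₀ ⊆ F → ↑F ⊆ S →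
      ∃ t, InS S t ∧ CG C t ∧ Fix F (n₀ + k) t ∧ Step k P F t) :
    ∃ (Fs : ℕ → Finset I) (t T P : ℕ → GG I), Fs 0 = F₀ ∧ (∀ k, Fs k ⊆ Fs (k + 1)) ∧
      (∀ k, ↑(Fs k) ⊆ S) ∧ P 0 = 1 ∧ (∀ k, P (k + 1) = P k * t k) ∧ (∀ k, InS S (P k)) ∧
      (∀ k, InS S (t k)) ∧ (∀ k, Fix (Fs k) (n₀ + k) (t k)) ∧
      (∀ k, Step k (P k) (Fs k) (t k)) ∧ (∀ k, T k = t k * T (k + 1)) ∧
      (∀ k, InS S (T k)) ∧ (∀ k, Fix (Fs k) (n₀ + k) (T k)) ∧ (∀ k, P k * T k = T 0) ∧
      CG C (T 0) := by
  classical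
  set Fof : List (GG I) → Finset I := fun L => F₀ ∪ (Finset.range L.length).biUnion
    (fun i => (Finset.range L.length).biUnion (fun j => enf (L.getD i 1) j)) with hFof
  set pick : List (GG I) → GG I := fun L =>
    if h : InS S L.prod ∧ M L.prod ∧ F₀ ⊆ Fof L ∧ ↑(Fof L) ⊆ S then
      (hstep L.length L.prod (Fof L) h.1 h.2.1 h.2.2.1 h.2.2.2).choose else 1 with hpick
  have hpick' : ∀ L, InS S L.prod → M L.prod → F₀ ⊆ Fof L → ↑(Fof L) ⊆ S →
      InS S (pick L) ∧ CG C (pick L) ∧ Fix (Fof L) (n₀ + L.length) (pick L) ∧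
        Step L.length L.prod (Fof L) (pick L) := by
    intro L h1 h1' h2 h3
    have h : InS S L.prod ∧ M L.prod ∧ F₀ ⊆ Fof L ∧ ↑(Fof L) ⊆ S := ⟨h1, h1', h2, h3⟩
    have h4 : pick L = (hstep L.length L.prod (Fof L) h.1 h.2.1 h.2.2.1 h.2.2.2).choose :=
      dif_pos h
    rw [h4]
    exact (hstep L.length L.prod (Fof L) h.1 h.2.1 h.2.2.1 h.2.2.2).choose_spec
  set hist : ℕ → List (GG I) := fun k => Nat.rec [] (fun _ L => L ++ [pick L]) k with hhist
  have hist0 : hist 0 = [] := rfl
  have hist1 : ∀ k, hist (k + 1) = hist k ++ [pick (hist k)] := fun _ => rfl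
  have hlen : ∀ k, (hist k).length = k := by
    intro k
    induction k with
    | zero => rfl
    | succ k ih => rw [hist1, List.length_append, ih]; rfl
  set t : ℕ → GG I := fun k => pick (hist k) with ht
  have hget : ∀ k i, i < k → (hist k).getD i 1 = t i := by
    intro k
    induction k with
    | zero => intro i hi; omega
    | succ k ih =>
      intro i hi
      rw [hist1]
      rcases Nat.lt_succ_iff_lt_or_eq.mp hi with h | h
      · rw [List.getD_append _ _ _ _ (by rw [hlen]; exact h)]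
        exact ih i h
      · subst h
        rw [List.getD_append_right _ _ _ _ (by rw [hlen]), hlen]
        simp [ht]
  have hFs : ∀ k, Fof (hist k) = F₀ ∪ (Finset.range k).biUnion
      (fun i => (Finset.range k).biUnion (fun j => enf (t i) j)) := by
    intro k
    rw [hFof]
    simp only [hlen]
    congr 1
    apply Finset.biUnion_congr rfl
    intro i hi
    apply Finset.biUnion_congr rfl
    intro j hj
    rw [hget k i (Finset.mem_range.mp hi)]
  have hF0 : ∀ L, F₀ ⊆ Fof L := fun L => Finset.subset_union_left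
  have hall : ∀ k, InS S (hist k).prod ∧ (∀ i, i < k → InS S (t i)) ∧ ↑(Fof (hist k)) ⊆ S ∧
      M (hist k).prod := by
    intro k
    induction k with
    | zero =>
      refine ⟨InS.one, fun i hi => by omega, ?_, hCM.one⟩
      rw [hFs]
      simpa using hF₀
    | succ k ih =>
      obtain ⟨h1, h2, h3, h1'⟩ := ih
      have h4 := hpick' (hist k) h1 h1' (hF0 _) h3
      have h5 : ∀ i, i < k + 1 → InS S (t i) := by
        intro i hi
        rcases Nat.lt_succ_iff_lt_or_eq.mp hi with h | h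
        · exact h2 i h
        · subst h; exact h4.1
      refine ⟨?_, h5, ?_, ?_⟩
      · rw [hist1, List.prod_append, List.prod_singleton]
        exact h1.mul h4.1
      · intro γ hγ'
        have hγ : γ ∈ Fof (hist (k + 1)) := hγ'
        rw [hFs (k + 1)] at hγ
        simp only [Finset.mem_union, Finset.mem_biUnion, Finset.mem_range] at hγ
        rcases hγ with hγ | ⟨i, hi, j, hj, hγ⟩
        · exact hF₀ hγ
        · obtain ⟨x, hx⟩ := enf_sub (t i) j hγ
          by_contra hn
          exact hx (h5 i hi γ hn x)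
      · rw [hist1, List.prod_append, List.prod_singleton]
        exact hCM.mul _ _ h1' (hCM.of _ h4.2.1)
  have htS : ∀ k, InS S (t k) := fun k => (hall (k + 1)).2.1 k (by omega)
  have hspec' : ∀ k, CG C (t k) ∧ Fix (Fof (hist k)) (n₀ + k) (t k) ∧
      Step k (hist k).prod (Fof (hist k)) (t k) := by
    intro k
    have h := hpick' (hist k) (hall k).1 (hall k).2.2.2 (hF0 _) (hall k).2.2.1
    rw [hlen] at h
    exact h.2
  have hspec := fun k => (hspec' k).2
  have hmono : ∀ a b, a ≤ b → Fof (hist a) ⊆ Fof (hist b) := by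
    intro a b hab
    rw [hFs, hFs]
    intro γ hγ
    simp only [Finset.mem_union, Finset.mem_biUnion, Finset.mem_range] at hγ ⊢
    rcases hγ with hγ | ⟨i, hi, j, hj, hγ⟩
    · exact Or.inl hγ
    · exact Or.inr ⟨i, by omega, j, by omega, hγ⟩
  have hfus : Fusible t := by
    intro γ
    by_cases h : ∃ i, γ ∈ Act (t i)
    · obtain ⟨i, hi⟩ := h
      obtain ⟨j, hj⟩ := enf_mem (t i) γ hi
      refine ⟨max i j + 1, fun k hk x => ?_⟩
      have h1 : γ ∈ Fof (hist k) := by
        rw [hFs]
        simp only [Finset.mem_union, Finset.mem_biUnion, Finset.mem_range]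
        exact Or.inr ⟨i, by omega, j, by omega, hj⟩
      exact ((hspec k).1 γ h1 x).mono (by omega)
    · refine ⟨0, fun k _ x => ?_⟩
      have : (t k).E γ x = 1 := by
        by_contra hn
        exact h ⟨k, x, hn⟩
      rw [this]
      exact fixFE_one k
  obtain ⟨T, hT1, -, hT3, hT4, hT5⟩ := exists_limit t hfus (A := ⋃ k, (t k).A)
    (countable_iUnion (fun k => (t k).A_countable))
    (fun k => (t k).A_supp.mono (subset_iUnion (fun k => (t k).A) k))
  refine ⟨fun k => Fof (hist k), t, T, fun k => (hist k).prod, ?_, ?_, fun k => (hall k).2.2.1,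
    rfl, ?_, fun k => (hall k).1, htS, fun k => (hspec k).1, fun k => (hspec k).2, hT1,
    hT4 S htS, ?_, ?_, hT5 C hCM.cls (fun k => (hspec' k).1) 0⟩
  · simp only [hFs]
    simp
  · exact fun k => hmono k (k + 1) (by omega)
  · intro k
    simp only [hist1, List.prod_append, List.prod_singleton]
    rfl
  · intro k γ hγ x
    apply hT3
    intro j hj x'
    exact ((hspec j).1 γ (hmono k j hj hγ) x').mono (by omega)
  · intro k
    induction k with
    | zero => simp [hist0]
    | succ k ih =>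
      show (hist k ++ [t k]).prod * T (k + 1) = T 0
      rw [List.prod_append, List.prod_singleton, mul_assoc, ← hT1]
      exact ih

end Pool.Agent.H735.FM
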