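import Mathlib
import Pool.Agent.H735.FM.Fusion

/-!
Reading dense sets: the fusion theorem.
-/

set_option autoImplicit false

namespace Pool.Agent.H735.FM

open Set Filter
open Pool.Agent.Helper467_LV (pre pre_length pre_zero pre_succ pre_getElem pre_eq_iff pre_take
  pre_eq_of_le ofList pre_ofList pre_eq_of_append apply_of_pre Om N mem_N N_anti N_self
  N_of_agree N_congr N_coord N_pre N_agree tendsto_N tendsto_N_id wt exists_boxes exists_least
  box_eventually exists_idx exists_enf)

variable {I : Type} [LinearOrder I]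

theorem ins_comm {β : I} {p : GG I} (hp : InS (Iio β) p) (s : List ℕ) :
    ins β s * p = p * ins β s := by
  apply GG.ext_E
  funext γ x
  rw [GG.mul_E, GG.mul_E]
  rcases lt_trichotomy γ β with h | h | h
  · rw [ins_E_ne _ _ _ _ h.ne, ins_E_ne _ _ _ _ h.ne, one_mul, mul_one]
    apply p.E_congr
    intro δ hδ
    rw [ins_act_ne _ _ _ _ (hδ.trans h).ne]
  · subst h
    rw [ins_E_self, ins_E_self, hp γ (by simp), hp γ (by simp), one_mul, mul_one]
  · rw [ins_E_ne _ _ _ _ h.ne', ins_E_ne _ _ _ _ h.ne', hp γ (by simpa using h.le),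
      hp γ (by simpa using h.le)]

theorem tendsto_unrho (F : Finset I) (B : I → List ℕ) (A : Set I) (x : Om I) :
    Tendsto (unrho F B) (N A x) (N A (unrho F B x)) := by
  apply tendsto_N
  intro δ hδ i
  filter_upwards [N_pre x hδ (i + (B δ).length + 1)] with x' hx'
  rw [pre_eq_iff] at hx'
  unfold unrho
  split_ifs with h2
  · unfold unsh
    exact hx' _ (by omega)
  · exact hx' i (by omega)

/-- factoring through `rho` -/
theorem factor_rho {F : Finset I} {B : I → List ℕ} {r : GG I} (h : ∀ x, RegF F B (r.act x)) :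
    ∃ r', r = rho F B * r' ∧ (∀ S : Set I, InS S r → ↑F ⊆ S → InS S r') :=
  ⟨divG r F B h, (rho_mul_divG r F B h).symm, fun _ hr hF => divG_inS r F B h hr hF⟩

/-- reading dense sets below extensions fixing the small sequences -/
def Fus (C : FE → Prop) (M : GG I → Prop) (S : Set I) : Prop :=
  ∀ D : ℕ → Set (GG I), (∀ n, OpenS S (D n)) → (∀ n, DenseS C M S (D n)) →
    ∀ F : Finset I, ↑F ⊆ S → ∀ n₀, ∃ t, InS S t ∧ CG C t ∧ Fix F n₀ t ∧ ∀ n, LocD S (D n) t

/-- the part below `β` forces that beyond the sequence `s` at `β` there is an extension in `D` -/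
def Dl (C : FE → Prop) (S : Set I) (β : I) (D : Set (GG I)) (s : List ℕ) : Set (GG I) :=
  {q | ∃ w, InS S w ∧ InS (Ici β) w ∧ CG C w ∧ q * ins β s * w ∈ D}

theorem Iio_sub {S : Set I} (hS : IsLowerSet S) {β : I} (hβ : β ∈ S) : Iio β ⊆ S :=
  fun _ hγ => hS (le_of_lt (mem_Iio.mp hγ)) hβ

theorem Dl_open {C : FE → Prop} {S : Set I} (hS : IsLowerSet S) {β : I} (hβ : β ∈ S)
    {D : Set (GG I)} (hD : OpenS S D) (s : List ℕ) : OpenS (Iio β) (Dl C S β D s) := by
  rintro p r hp hr ⟨w, hw1, hw2, hw3, hw4⟩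
  obtain ⟨w', h1, h2⟩ := exists_comm hw2 hr
  refine ⟨w', ?_, ?_, ?_, ?_⟩
  · intro γ hγ x
    rw [h1, hw1 γ hγ]
  · intro γ hγ x
    rw [h1, hw2 γ hγ]
  · intro γ x
    rw [h1]
    exact hw3 γ _
  · have : p * r * ins β s * w' = p * ins β s * w * r := by
      rw [mul_assoc p r, ← ins_comm hr, ← mul_assoc p, mul_assoc (p * ins β s), ← h2]
      simp only [mul_assoc]
    rw [this]
    exact hD _ _ (((hp.mono (Iio_sub hS hβ)).mul (ins_inS β s hβ)).mul hw1)
      (hr.mono (Iio_sub hS hβ)) hw4

theorem Dl_dense {C : FE → Prop} {M : GG I → Prop} (hCM : Adm C M) {S : Set I}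
    (hS : IsLowerSet S) {β : I} (hβ : β ∈ S) {D : Set (GG I)} (hDd : DenseS C M S D)
    (s : List ℕ) : DenseS C M (Iio β) (Dl C S β D s) := by
  intro p hp hMp
  obtain ⟨r, hr1, hr2, hr3⟩ := hDd (p * ins β s)
    ((hp.mono (Iio_sub hS hβ)).mul (ins_inS β s hβ)) (hCM.mul _ _ hMp (hCM.rho _ _))
  refine ⟨low β r, low_inS β r, hr2.low hCM.cls β, up β r, up_inS' β hr1, up_inS β r,
    hr2.up hCM.cls β, ?_⟩
  have : p * low β r * ins β s * up β r = p * ins β s * r := by
    conv_rhs => rw [← low_mul_up β r]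
    rw [mul_assoc p, ← ins_comm (low_inS β r) s]
    simp only [mul_assoc]
  rw [this]
  exact hr3

theorem step_insert {C : FE → Prop} {M : GG I → Prop} (hCM : Adm C M) {S : Set I}
    (hS : IsLowerSet S) {β : I} (hβ : β ∈ S) {F' : Finset I} (hF' : ∀ γ ∈ F', γ < β)
    (hFus : Fus C M (Iio β)) {D : Set (GG I)} (hD : OpenS S D) (hDd : DenseS C M S D) (n : ℕ) :
    ∃ t, InS S t ∧ CG C t ∧ Fix (insert β F') n t ∧ LocD S D t := by
  classical
  have hISub := Iio_sub hS hβ
  set dcd : ℕ → List ℕ := fun j => (Encodable.decode (α := List ℕ) j).getD [] with hdcd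
  have hdcd' : ∀ s : List ℕ, dcd (Encodable.encode s) = s := fun s => by
    rw [hdcd]; simp
  obtain ⟨t, ht, htC, htF, h5⟩ := hFus (fun j => Dl C S β D (dcd j))
    (fun j => Dl_open hS hβ hD _) (fun j => Dl_dense hCM hS hβ hDd _) F' hF' n
  choose A₀ hA₀ hA₀β h5 using h5
  set A : Set I := ⋃ k, A₀ k with hAdef
  have hA : A.Countable := countable_iUnion hA₀
  have hAβ : A ⊆ Iio β := iUnion_subset hA₀β
  obtain ⟨Fs, ns, xs, hFs, hcov⟩ := exists_boxes hA
  have hidx : ∀ s : List ℕ, ∃ idx : Om I → ℕ, (∀ x, ∀ᶠ x' in N A x, idx x' = idx x) ∧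
      ∀ x, (∀ γ ∈ Fs (idx x), ∀ i, i < ns (idx x) → x γ i = xs (idx x) γ i) ∧
        t * iota (Fs (idx x)) (ns (idx x)) (xs (idx x)) ∈ Dl C S β D s := by
    intro s
    apply exists_least (A := A) (fun c x => (∀ γ ∈ Fs c, ∀ i, i < ns c → x γ i = xs c γ i) ∧
        t * iota (Fs c) (ns c) (xs c) ∈ Dl C S β D s)
    · intro c x
      filter_upwards [box_eventually (Fs c) (hFs c) (ns c) (xs c) x] with x' h1
      rw [h1]
    · intro x
      obtain ⟨F, hF, n, h6⟩ := h5 (Encodable.encode s) x
      rw [hdcd'] at h6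
      obtain ⟨i, hi1, hi2, hi3⟩ := hcov x F n (hF.trans (subset_iUnion A₀ _))
      subst hi1
      subst hi2
      refine ⟨i, hi3, ?_⟩
      rw [← iota_congr hi3]
      exact h6
  choose idx hidx1 hidx2 using hidx
  set B : ℕ → I → List ℕ := fun i γ => pre (xs i γ) (ns i) with hB
  set bx : ℕ → GG I := fun i => iota (Fs i) (ns i) (xs i) with hbx
  have hbxβ : ∀ i, InS (Iio β) (bx i) := fun i => iota_inS _ _ _ ((hFs i).trans hAβ)
  have hw : ∀ (s : List ℕ) (i : ℕ), ∃ w, InS S w ∧ InS (Ici β) w ∧ CG C w ∧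
      (t * bx i ∈ Dl C S β D s → t * bx i * ins β s * w ∈ D) := by
    intro s i
    by_cases h : t * bx i ∈ Dl C S β D s
    · obtain ⟨w, h1, h2, h3, h4⟩ := id h
      exact ⟨w, h1, h2, h3, fun _ => h4⟩
    · exact ⟨1, InS.one, InS.one, CG.one hCM.cls, fun h' => absurd h' h⟩
  choose w hw1 hw2 hw3 hw4 using hw
  set A' : Set I := (A ∪ {β}) ∪ ⋃ s, ⋃ i, (w s i).A with hA'
  have hA'c : A'.Countable := (hA.union (countable_singleton β)).union
    (countable_iUnion (fun s => countable_iUnion (fun i => (w s i).A_countable)))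
  have hwA : ∀ s i, (w s i).A ⊆ A' := fun s i =>
    ((subset_iUnion (fun i => (w s i).A) i).trans
      (subset_iUnion (fun s => ⋃ i, (w s i).A) s)).trans subset_union_right
  have hAA' : A ⊆ A' := subset_union_left.trans subset_union_left
  have hβA' : β ∈ A' := Or.inl (Or.inr rfl)
  set E : I → Om I → FE := fun γ x =>
    if γ < β then 1 else if γ = β then
      brF n (fun s => (w s (idx s x)).E β (unrho (Fs (idx s x)) (B (idx s x)) x))
    else (w (fr n (x β)) (idx (fr n (x β)) x)).E γ (unrho {β} (fun _ => fr n (x β))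
      (unrho (Fs (idx (fr n (x β)) x)) (B (idx (fr n (x β)) x)) x)) with hE
  have hElt : ∀ γ, γ < β → ∀ x, E γ x = 1 := fun γ h x => if_pos h
  have hEeq : ∀ x, E β x =
      brF n (fun s => (w s (idx s x)).E β (unrho (Fs (idx s x)) (B (idx s x)) x)) := fun x => by
    rw [hE]; simp only; rw [if_neg (lt_irrefl _)]; simp
  have hEgt : ∀ γ, β < γ → ∀ x, E γ x = (w (fr n (x β)) (idx (fr n (x β)) x)).E γ
      (unrho {β} (fun _ => fr n (x β))
      (unrho (Fs (idx (fr n (x β)) x)) (B (idx (fr n (x β)) x)) x)) := fun γ h x => by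
    rw [hE]; simp only; rw [if_neg (not_lt.mpr h.le), if_neg h.ne']
  have hS' : Supp A' E := by
    constructor
    · intro γ hγ x
      rcases lt_trichotomy γ β with h | h | h
      · exact hElt γ h x
      · subst h; exact absurd hβA' hγ
      · rw [hEgt γ h]
        exact (w _ _).A_supp.1 γ (fun h' => hγ (hwA _ _ h')) _
    · intro γ x c
      rcases lt_trichotomy γ β with h | h | h
      · simp only [hElt γ h]
        exact Filter.Eventually.of_forall (fun _ => trivial)
      · subst h
        simp only [hEeq]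
        obtain ⟨u, p⟩ := c
        rcases small_or_fr n u with hu | ⟨s, r, hs, rfl⟩
        · refine Filter.Eventually.of_forall (fun x' => ?_)
          show ((brF n _).tr u, (brF n _).pos u p) = ((brF n _).tr u, (brF n _).pos u p)
          rw [brF_tr_small hu, brF_pos_small hu, brF_tr_small hu, brF_pos_small hu]
        · have h1 := N_anti (show A ⊆ A' ∩ Iio γ from fun δ hδ => ⟨hAA' hδ, hAβ hδ⟩) x
            (hidx1 s x)
          have h2 := (tendsto_unrho (Fs (idx s x)) (B (idx s x)) (A' ∩ Iio γ) x).eventually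
            (((w s (idx s x)).A_supp.mono (hwA _ _)).2 γ
              (unrho (Fs (idx s x)) (B (idx s x)) x) (r, p))
          filter_upwards [h1, h2] with x' h1 h2
          show ((brF n _).tr (s ++ r), (brF n _).pos (s ++ r) p) =
            ((brF n _).tr (s ++ r), (brF n _).pos (s ++ r) p)
          rw [brF_tr hs, brF_pos hs, brF_tr hs, brF_pos hs, h1]
          have k1 : ((w s (idx s x)).E γ (unrho (Fs (idx s x)) (B (idx s x)) x')).tr r =
            ((w s (idx s x)).E γ (unrho (Fs (idx s x)) (B (idx s x)) x)).tr r :=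
            congrArg Prod.fst h2
          have k2 : ((w s (idx s x)).E γ (unrho (Fs (idx s x)) (B (idx s x)) x')).pos r p =
            ((w s (idx s x)).E γ (unrho (Fs (idx s x)) (B (idx s x)) x)).pos r p :=
            congrArg Prod.snd h2
          rw [k1, k2]
      · simp only [hEgt γ h]
        set s := fr n (x β) with hs
        have h0 : ∀ᶠ x' in N (A' ∩ Iio γ) x, fr n (x' β) = s := by
          filter_upwards [N_pre x (show β ∈ A' ∩ Iio γ from ⟨hβA', h⟩) s.length] with x' hx'
          apply fr_unique (isFr_fr n (x β))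
          rw [← hs, hx']
          exact pre_fr n (x β)
        have h1 := N_anti (show A ⊆ A' ∩ Iio γ from fun δ hδ => ⟨hAA' hδ, (hAβ hδ).trans h⟩) x
            (hidx1 s x)
        have h2 := (tendsto_unrho (Fs (idx s x)) (B (idx s x)) (A' ∩ Iio γ) x)
        have h3 := (tendsto_unrho {β} (fun _ => s) (A' ∩ Iio γ)
          (unrho (Fs (idx s x)) (B (idx s x)) x))
        have h4 := (h3.comp h2).eventually (((w s (idx s x)).A_supp.mono (hwA _ _)).2 γ _ c)
        filter_upwards [h0, h1, h4] with x' h0 h1 h4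
        rw [h0, h1]
        exact h4
  set W : GG I := ⟨E, A', hA'c, hS'⟩ with hW
  have hWβ : InS (Ici β) W := fun γ hγ x => hElt γ (by simpa using hγ) x
  have hWS : InS S W := by
    intro γ hγ x
    rcases lt_trichotomy γ β with h | h | h
    · exact hElt γ h x
    · subst h; exact absurd hβ hγ
    · show E γ x = 1
      rw [hEgt γ h, hw1 _ _ γ hγ]
  have hWC : CG C W := by
    intro γ x
    rcases lt_trichotomy γ β with h | h | h
    · show C (E γ x)
      rw [hElt γ h]; exact hCM.cls.one
    · subst h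
      show C (E γ x)
      rw [hEeq]
      exact hCM.cls.br _ _ (fun s => hw3 _ _ _ _)
    · show C (E γ x)
      rw [hEgt γ h]
      exact hw3 _ _ _ _
  have hkey : ∀ (s : List ℕ) (i : ℕ) (r : GG I), IsFr n s →
      (∀ z, idx s ((bx i * ins β s * r).act z) = i) →
      W * (bx i * ins β s * r) = bx i * ins β s * (w s i * r) := by
    intro s i r hs hi
    apply GG.ext_E
    funext γ z
    simp only [GG.mul_E, GG.mul_act]
    set v := r.act z with hv
    set X := (bx i).act ((ins β s).act v) with hX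
    have hiX : idx s X = i := by
      have := hi z
      rw [GG.mul_act, GG.mul_act] at this
      exact this
    have hun : unrho (Fs i) (B i) X = (ins β s).act v := unrho_rho (Fs i) (B i) _
    have hXβ : X β = (ins β s).act v β := (hbxβ i).act (by simp) _
    have hfr : fr n (X β) = s := by
      apply fr_unique hs
      rw [hXβ, ins_act_self]
      exact sh_map s _
    rcases lt_trichotomy γ β with h | h | h
    · have e1 : W.E γ X = 1 := hElt γ h X
      have e2 : (w s i).E γ v = 1 := hw2 s i γ (by simpa using h) v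
      rw [e1, e2, one_mul, one_mul]
      congr 1
    · subst h
      have e1 : W.E γ X = brF n (fun s => (w s (idx s X)).E γ
        (unrho (Fs (idx s X)) (B (idx s X)) X)) := hEeq X
      rw [e1, (hbxβ i) γ (by simp), (hbxβ i) γ (by simp), ins_E_self, ins_E_self, one_mul,
        ← mul_assoc, ← mul_assoc, brF_mul_sh hs]
      congr 2
      rw [hiX, hun]
      apply (w s i).E_congr
      intro δ hδ
      exact ins_act_ne _ _ _ _ hδ.ne
    · have e1 : W.E γ X = (w (fr n (X β)) (idx (fr n (X β)) X)).E γ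
        (unrho {β} (fun _ => fr n (X β))
        (unrho (Fs (idx (fr n (X β)) X)) (B (idx (fr n (X β)) X)) X)) := hEgt γ h X
      rw [e1, hfr, hiX, hun]
      have h3 : unrho {β} (fun _ => s) ((ins β s).act v) = v := unrho_rho {β} (fun _ => s) v
      rw [h3, (hbxβ i) γ (by simpa using h.le), (hbxβ i) γ (by simpa using h.le),
        ins_E_ne _ _ _ _ h.ne', ins_E_ne _ _ _ _ h.ne', one_mul, one_mul, one_mul]
  refine ⟨t * W, (ht.mono hISub).mul hWS, htC.mul hCM.cls hWC, ?_, A ∪ {β},
    hA.union (countable_singleton β), union_subset (hAβ.trans hISub) (by simpa using hβ), ?_⟩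
  · intro γ hγ x
    rw [GG.mul_E]
    rcases Finset.mem_insert.mp hγ with rfl | hγ
    · rw [ht γ (by simp), one_mul]
      show FixFE n (E γ x)
      rw [hEeq]
      exact fixFE_brF n _
    · have e1 : W.E γ x = 1 := hElt γ (hF' γ hγ) x
      rw [e1, mul_one]
      exact htF γ hγ _
  · intro y
    set s := fr n (y β) with hs
    set i := idx s y with hi
    obtain ⟨F₁, hF₁, n₁, h6⟩ := hidx1 s y
    set F := F₁ ∪ (Fs i ∪ {β}) with hF
    set m := max n₁ (max (ns i) s.length) with hm
    have hFA : (F : Set I) ⊆ A ∪ {β} := by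
      rw [hF, Finset.coe_union, Finset.coe_union, Finset.coe_singleton]
      exact union_subset (hF₁.trans subset_union_left)
        (union_subset ((hFs i).trans subset_union_left) subset_union_right)
    refine ⟨F, hFA, m, ?_⟩
    have hag := iota_agree F m y
    set B' : I → List ℕ := fun γ => if γ = β then s else B i γ with hB'
    have hρ : bx i * ins β s = rho (insert β (Fs i)) B' := by
      apply GG.ext_E
      funext γ x
      rw [GG.mul_E, rho_E]
      by_cases hγ : γ = β
      · subst hγ
        rw [(hbxβ i) γ (by simp), ins_E_self, one_mul, if_pos (Finset.mem_insert_self _ _), hB']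
        simp
      · rw [ins_E_ne _ _ _ _ hγ, mul_one]
        show (rho (Fs i) (B i)).E γ _ = _
        rw [rho_E]
        by_cases h1 : γ ∈ Fs i
        · rw [if_pos h1, if_pos (Finset.mem_insert_of_mem h1), hB']
          simp only
          rw [if_neg hγ]
        · rw [if_neg h1, if_neg (by simp [hγ, h1])]
    have hreg : ∀ x, RegF (insert β (Fs i)) B' ((iota F m y).act x) := by
      intro x γ hγ
      by_cases h1 : γ = β
      · subst h1
        have h2 : B' γ = s := by rw [hB']; simp
        rw [h2]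
        have h3 : pre ((iota F m y).act x γ) s.length = pre (y γ) s.length := by
          rw [pre_eq_iff]
          intro k hk
          exact hag x γ (by rw [hF]; simp) k (by omega)
        rw [h3]
        exact pre_fr n (y γ)
      · have h2 : γ ∈ Fs i := by
          rcases Finset.mem_insert.mp hγ with h | h
          · exact absurd h h1
          · exact h
        have h3 : B' γ = pre (xs i γ) (ns i) := by rw [hB']; simp only; rw [if_neg h1]
        rw [h3, pre_length, pre_eq_iff]
        intro k hk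
        rw [hag x γ (by rw [hF]; simp [h2]) k (by omega)]
        exact (hidx2 s y).1 γ h2 k hk
    obtain ⟨r, hr1, hr2⟩ := factor_rho hreg
    rw [← hρ] at hr1
    have hrS : InS S r := by
      apply hr2 S (iota_inS _ _ _ (hFA.trans
        (union_subset (hAβ.trans hISub) (by simpa using hβ))))
      intro γ hγ
      rw [Finset.coe_insert] at hγ
      rcases hγ with rfl | hγ
      · exact hβ
      · exact hISub (hAβ (hFs i hγ))
    have hidz : ∀ z, idx s ((bx i * ins β s * r).act z) = i := by
      intro z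
      rw [← hr1]
      apply h6
      intro γ hγ k hk
      exact hag z γ (by rw [hF]; simp [hγ]) k (by omega)
    rw [mul_assoc, hr1, hkey s i r (isFr_fr n (y β)) hidz]
    have h7 : t * (bx i * ins β s * (w s i * r)) = t * bx i * ins β s * w s i * r := by
      simp only [mul_assoc]
    rw [h7]
    exact hD _ _ ((((ht.mul (hbxβ i)).mono hISub).mul (ins_inS β s hβ)).mul (hw1 s i)) hrS
      (hw4 s i (hidx2 s y).2)

theorem step_all {C : FE → Prop} {M : GG I → Prop} (hCM : Adm C M) {S : Set I}
    (hS : IsLowerSet S) (hFus : ∀ β ∈ S, Fus C M (Iio β)) {D : Set (GG I)} (hD : OpenS S D)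
    (hDd : DenseS C M S D) (F : Finset I) (hF : ↑F ⊆ S) (n : ℕ) :
    ∃ t, InS S t ∧ CG C t ∧ Fix F n t ∧ LocD S D t := by
  classical
  rcases F.eq_empty_or_nonempty with rfl | hne
  · obtain ⟨r, h1, h2, h3⟩ := hDd 1 InS.one hCM.one
    rw [one_mul] at h3
    exact ⟨r, h1, h2, fun γ hγ => by simp at hγ, LocD.of_mem h3⟩
  · set β := F.max' hne with hβ
    have hβF : β ∈ F := F.max'_mem hne
    have h1 : F = insert β (F.erase β) := (Finset.insert_erase hβF).symm
    rw [h1]
    apply step_insert hCM hS (hF hβF) _ (hFus β (hF hβF)) hD hDd n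
    intro γ hγ
    exact lt_of_le_of_ne (F.le_max' γ (Finset.mem_of_mem_erase hγ)) (Finset.ne_of_mem_erase hγ)

variable [WellFoundedLT I]

theorem fus_step {C : FE → Prop} {M : GG I → Prop} (hCM : Adm C M) {S : Set I}
    (hS : IsLowerSet S) (hFus : ∀ β ∈ S, Fus C M (Iio β)) : Fus C M S := by
  intro D hD hDd F hF n₀
  obtain ⟨Fs, t, T, P, h0, -, -, -, h4, h5, h6, -, h8, h9, h10, h11, h12, h13⟩ :=
    fusion hCM S F hF n₀ (fun k P _ t => LocD S (D k) (P * t)) (by
      intro k P F' hP hMP _ hF'
      obtain ⟨t, h1, h2, h3, A, hA1, hA2, hA3⟩ := step_all hCM hS hFus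
        (D := {s | P * s ∈ D k})
        (fun p r hp hr h => by
          show P * (p * r) ∈ D k
          rw [← mul_assoc]
          exact hD k _ _ (hP.mul hp) hr h)
        (fun p hp hMp => by
          obtain ⟨r, hr, hrC, h4⟩ := hDd k (P * p) (hP.mul hp) (hCM.mul _ _ hMP hMp)
          refine ⟨r, hr, hrC, ?_⟩
          show P * (p * r) ∈ D k
          rw [← mul_assoc]
          exact h4) F' hF' (n₀ + k)
      refine ⟨t, h1, h2, h3, A, hA1, hA2, fun y => ?_⟩
      obtain ⟨F'', hF'', n', h4⟩ := hA3 y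
      exact ⟨F'', hF'', n', by rw [mul_assoc]; exact h4⟩)
  refine ⟨T 0, h10 0, h13, ?_, fun k => ?_⟩
  · have := h11 0
    rw [h0] at this
    exact this
  · rw [← h12 (k + 1), h4]
    exact LocD.mul hS (hD k) ((h5 k).mul (h6 k)) (h10 (k + 1)) (h8 k)

theorem fus_Iio {C : FE → Prop} {M : GG I → Prop} (hCM : Adm C M) (β : I) :
    Fus C M (Iio β) := by
  induction β using WellFoundedLT.induction with
  | ind β ih => exact fus_step hCM (isLowerSet_Iio β) (fun γ hγ => ih γ hγ)

theorem fus_univ {C : FE → Prop} {M : GG I → Prop} (hCM : Adm C M) :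
    Fus C M (Set.univ : Set I) :=
  fus_step hCM isLowerSet_univ (fun γ _ => fus_Iio hCM γ)

end Pool.Agent.H735.FM
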