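import Mathlib
import Pool.Agent.H735.FM.Step

/-!
Names given by continuous functions; reading names continuously.
-/

set_option autoImplicit false

namespace Pool.Agent.H735.FM

open Set Filter
open Pool.Agent.Helper126.Sus.Forc
open Pool.Agent.W876.Two.Gen (IsFun)
open Pool.Agent.Helper467_LV (pre pre_length pre_zero pre_succ pre_getElem pre_eq_iff pre_take
  pre_eq_of_le ofList pre_ofList pre_eq_of_append apply_of_pre Om N mem_N N_anti N_self
  N_of_agree N_congr N_coord N_pre N_agree tendsto_N tendsto_N_id wt exists_boxes exists_least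
  box_eventually exists_idx exists_enf)

variable {I : Type} [LinearOrder I] [WellFoundedLT I]

theorem GG.act_injective (p : GG I) {x y : Om I} (h : p.act x = p.act y) : x = y := by
  have key : ∀ γ, x γ = y γ := by
    intro γ
    induction γ using WellFoundedLT.induction with
    | ind γ ih =>
    have h1 : (p.E γ x).map (x γ) = (p.E γ y).map (y γ) := congrFun h γ
    rw [p.E_congr ih] at h1
    exact FE.map_injective _ h1
  funext γ
  exact key γ

theorem GG.cancel {p r s : GG I} (h : p * r = p * s) : r = s := by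
  have h1 : ∀ x, r.act x = s.act x := by
    intro x
    apply p.act_injective
    rw [← GG.mul_act, ← GG.mul_act, h]
  apply GG.ext_E
  funext γ x
  have h2 : (p * r).E γ x = (p * s).E γ x := by rw [h]
  rw [GG.mul_E, GG.mul_E, h1] at h2
  exact FE.cancel h2

omit [WellFoundedLT I] in
/-- continuity in terms of boxes -/
theorem exists_box (r : GG I) (y : Om I) (F : Finset I) (n : ℕ) :
    ∃ (F' : Finset I) (n' : ℕ) (s : GG I), r * iota F' n' y = iota F n (r.act y) * s := by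
  obtain ⟨F', -, n', h⟩ := factor_of_eventually (A := Set.univ) (r := r) (y := y) (F := F) (n := n)
    (fun _ _ => subset_univ _) (subset_univ _)
  obtain ⟨s, hs, -⟩ := factor (r := r * iota F' n' y) (F := F) (n := n) (y := r.act y)
    (fun x γ hγ i hi => by
      rw [GG.mul_act]
      exact h _ (iota_agree F' n' y x) γ hγ i hi)
  exact ⟨F', n', s, hs⟩

omit [WellFoundedLT I] in
theorem exists_refine (r : GG I) (y : Om I) {Q : Om I → Prop}
    (h : ∀ᶠ x' in N Set.univ (r.act y), Q x') :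
    ∃ (F : Finset I) (n : ℕ), ∀ v, Q (r.act ((iota F n y).act v)) := by
  obtain ⟨F, -, n, h1⟩ := (r.tendsto_act r.A_supp (fun _ _ => subset_univ _) y).eventually h
  exact ⟨F, n, fun v => h1 _ (iota_agree F n y v)⟩

/-- the name of the value of `Φ` at the generic point relative to `p`, or of `d` if `p` is not in
the generic filter -/
def vn {X : Type} (p : GG I) (Φ : Om I → X) (d x : X) : Set (GG I) :=
  {r | (∃ r', r = p * r' ∧ ∀ v, Φ (r'.act v) = x) ∨ ((∀ s, s ≤ r → ¬ s ≤ p) ∧ x = d)}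

omit [WellFoundedLT I] in
theorem vn_down {X : Type} {p : GG I} {Φ : Om I → X} {d x : X} {r s : GG I}
    (h : r ∈ vn p Φ d x) : r * s ∈ vn p Φ d x := by
  rcases h with ⟨r', h1, h2⟩ | ⟨h1, h2⟩
  · exact Or.inl ⟨r' * s, by rw [h1, mul_assoc], fun v => by rw [GG.mul_act]; exact h2 _⟩
  · exact Or.inr ⟨fun t ht => h1 t (ht.trans (GG.mul_le _ _)), h2⟩

omit [WellFoundedLT I] in
theorem vn_of_meets {X : Type} {p : GG I} {Φ : Om I → X} {d x : X} {q : GG I}
    (h : q ∈ meets (vn p Φ d x)) : ∃ s, q * s ∈ vn p Φ d x := by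
  obtain ⟨r, ⟨s, rfl⟩, t, ht, ⟨u, hu⟩⟩ := h q le_rfl
  exact ⟨s, by rw [hu]; exact vn_down ht⟩

theorem vn_unique {X : Type} {p : GG I} {Φ : Om I → X} {d x x' : X} {r : GG I}
    (h : r ∈ vn p Φ d x) (h' : r ∈ vn p Φ d x') : x = x' := by
  rcases h with ⟨a, ha1, ha2⟩ | ⟨h1, h2⟩
  · rcases h' with ⟨b, hb1, hb2⟩ | ⟨h3, -⟩
    · have : a = b := GG.cancel (ha1.symm.trans hb1)
      subst this
      rw [← ha2 (fun _ _ => 0), ← hb2 (fun _ _ => 0)]
    · exact absurd ⟨a, ha1⟩ (h3 r le_rfl)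
  · rcases h' with ⟨b, hb1, -⟩ | ⟨-, h4⟩
    · exact absurd ⟨b, hb1⟩ (h1 r le_rfl)
    · rw [h2, h4]

omit [WellFoundedLT I] in
theorem mem_vn {X : Type} {p : GG I} {Φ : Om I → X} {d x : X} {r' : GG I}
    (h : ∀ v, Φ (r'.act v) = x) : p * r' ∈ meets (vn p Φ d x) :=
  meets_of_mem (Or.inl ⟨r', rfl, h⟩)

omit [WellFoundedLT I] in
theorem mem_vn_default {X : Type} {p : GG I} {Φ : Om I → X} {d : X} {r : GG I}
    (h : ∀ s, s ≤ r → ¬ s ≤ p) : r ∈ meets (vn p Φ d d) :=
  meets_of_mem (Or.inr ⟨h, rfl⟩)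

omit [WellFoundedLT I] in
/-- below every condition there is one which is below `p` or incompatible with `p` -/
theorem vn_cases (p q : GG I) : (∃ r', p * r' ≤ q) ∨ ∀ s, s ≤ q → ¬ s ≤ p := by
  by_cases h : ∃ s, s ≤ q ∧ s ≤ p
  · obtain ⟨s, h1, ⟨r', rfl⟩⟩ := h
    exact Or.inl ⟨r', h1⟩
  · push Not at h
    exact Or.inr h

/-- names given by continuous functions are names of functions -/
theorem isFun_vn {X Y : Type} (p q : GG I) {Φ : Y → Om I → X} {d : Y → X}
    (hΦ : ∀ n x, ∀ᶠ x' in N Set.univ x, Φ n x' = Φ n x) :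
    q ∈ IsFun (fun n m => vn p (Φ n) (d n) m) := by
  constructor
  · intro n
    rw [mem_fex]
    intro r _
    rcases vn_cases p r with ⟨r', hr'⟩ | h
    · obtain ⟨F, k, h1⟩ := exists_refine r' (fun _ _ => 0) (hΦ n _)
      refine ⟨p * (r' * iota F k (fun _ _ => 0)), ?_, Φ n (r'.act (fun _ _ => 0)), ?_⟩
      · rw [← mul_assoc]; exact (GG.mul_le _ _).trans hr'
      · exact mem_vn (fun v => by rw [GG.mul_act]; exact h1 v)
    · exact ⟨r, le_rfl, d n, mem_vn_default h⟩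
  · intro n m m'
    rw [mem_fimp]
    rintro r - ⟨h1, h2⟩
    obtain ⟨s, hs⟩ := vn_of_meets h1
    obtain ⟨t, ht⟩ := vn_of_meets (meets_down h2 (GG.mul_le r s))
    exact ⟨r, le_rfl, vn_unique (vn_down (s := t) hs) ht⟩

omit [WellFoundedLT I] in
theorem meets_of_box {p : GG I} {F : Finset I} {n : ℕ} {y : Om I} {Z : Set (GG I)}
    (h : p * iota F n y ∈ meets Z) {r : GG I}
    (hr : ∀ v, ∀ γ ∈ F, ∀ i, i < n → r.act v γ i = y γ i) : p * r ∈ meets Z := by
  obtain ⟨s, hs, -⟩ := factor hr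
  rw [hs, ← mul_assoc]
  exact meets_down h (GG.mul_le _ _)

theorem fex_intro {P : Type} [Preorder P] {ι : Type} {φ : ι → Set P} {r : P} (i : ι)
    (h : ∀ q ≤ r, q ∈ φ i) : r ∈ fex φ := by
  rw [mem_fex]
  exact fun q hq => ⟨q, le_rfl, i, h q hq⟩

/-- the generic sequences -/
def gen (a : I) (n m : ℕ) : Set (GG I) := vn 1 (fun v : Om I => v a n) 0 m

omit [WellFoundedLT I] in
theorem mem_gen {a : I} {n m : ℕ} {r : GG I} (h : ∀ v, r.act v a n = m) :
    r ∈ meets (gen a n m) := by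
  have := mem_vn (p := 1) (Φ := fun v : Om I => v a n) (d := 0) (x := m) (r' := r) h
  rwa [one_mul] at this

theorem gen_isFun (a : I) (p : GG I) : p ∈ IsFun (gen a) :=
  isFun_vn 1 p (Φ := fun n (v : Om I) => v a n) (d := fun _ => 0)
    (fun n x => N_coord x (mem_univ a) n)

/-- the embedding `E` depends continuously on the point -/
theorem embN_vn (p q : GG I) {E : Om I → FE}
    (hE : ∀ c x, ∀ᶠ x' in N Set.univ x, (E x').ev c = (E x).ev c) :
    q ∈ EmbN (fun u s => vn p (fun x => (E x).tr u) u s)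
      (fun u l m => vn p (fun x => (E x).pos u l) l m) := by
  have htr : ∀ u x, ∀ᶠ x' in N Set.univ x, (E x').tr u = (E x).tr u := fun u x =>
    (hE (u, 0) x).mono (fun x' h => congrArg Prod.fst h)
  have hpos : ∀ u l x, ∀ᶠ x' in N Set.univ x, (E x').pos u l = (E x).pos u l := fun u l x =>
    (hE (u, l) x).mono (fun x' h => congrArg Prod.snd h)
  refine ⟨⟨isFun_vn p q htr, fun u => isFun_vn p q (hpos u)⟩, ?_⟩
  intro u a b l
  have hrel : ∀ e : FE, EmbRel a b l (e.tr u) (e.tr (u ++ [a])) (e.tr (u ++ [b]))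
      (e.pos u l) (e.pos u (l + 1)) := by
    intro e
    refine ⟨e.mono u (Nat.lt_succ_self l), ?_⟩
    obtain ⟨j, hj1, hj2, hj3⟩ := e.spec u
    refine ⟨j a, hj3 a, hj2 a l, fun h => hj1 ?_⟩
    have h1 := List.prefix_of_prefix_length_le h (hj3 b) (by simp)
    simpa using h1.eq_of_length (by simp)
  have key : ∀ q' ≤ q, ∃ r ≤ q', ∃ e : FE, ∀ s ≤ r,
      s ∈ meets (vn p (fun x => (E x).tr u) u (e.tr u)) ∧
      s ∈ meets (vn p (fun x => (E x).tr (u ++ [a])) (u ++ [a]) (e.tr (u ++ [a]))) ∧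
      s ∈ meets (vn p (fun x => (E x).tr (u ++ [b])) (u ++ [b]) (e.tr (u ++ [b]))) ∧
      s ∈ meets (vn p (fun x => (E x).pos u l) l (e.pos u l)) ∧
      s ∈ meets (vn p (fun x => (E x).pos u (l + 1)) (l + 1) (e.pos u (l + 1))) := by
    intro q' _
    rcases vn_cases p q' with ⟨r', hr'⟩ | h
    · set o : Om I := fun _ _ => 0
      obtain ⟨F, k, h1⟩ := exists_refine r' o ((htr u _).and ((htr (u ++ [a]) _).and
        ((htr (u ++ [b]) _).and ((hpos u l _).and (hpos u (l + 1) _)))))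
      refine ⟨p * (r' * iota F k o), ?_, E (r'.act o), fun s hs => ⟨meets_down ?_ hs,
        meets_down ?_ hs, meets_down ?_ hs, meets_down ?_ hs, meets_down ?_ hs⟩⟩
      · rw [← mul_assoc]; exact (GG.mul_le _ _).trans hr'
      · exact mem_vn (fun v => by rw [GG.mul_act]; exact (h1 v).1)
      · exact mem_vn (fun v => by rw [GG.mul_act]; exact (h1 v).2.1)
      · exact mem_vn (fun v => by rw [GG.mul_act]; exact (h1 v).2.2.1)
      · exact mem_vn (fun v => by rw [GG.mul_act]; exact (h1 v).2.2.2.1)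
      · exact mem_vn (fun v => by rw [GG.mul_act]; exact (h1 v).2.2.2.2)
    · exact ⟨q', le_rfl, 1, fun s hs => ⟨meets_down (mem_vn_default h) hs,
        meets_down (mem_vn_default h) hs, meets_down (mem_vn_default h) hs,
        meets_down (mem_vn_default h) hs, meets_down (mem_vn_default h) hs⟩⟩
  rw [mem_fex]
  intro q' hq'
  obtain ⟨r, hr, e, h1⟩ := key q' hq'
  refine ⟨r, hr, e.tr u, ?_⟩
  apply fex_intro (e.tr (u ++ [a]))
  intro s₁ hs₁
  apply fex_intro (e.tr (u ++ [b]))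
  intro s₂ hs₂
  apply fex_intro (e.pos u l)
  intro s₃ hs₃
  apply fex_intro (e.pos u (l + 1))
  intro s₄ hs₄
  obtain ⟨h2, h3, h4, h5, h6⟩ := h1 s₄ (hs₄.trans (hs₃.trans (hs₂.trans hs₁)))
  exact ⟨⟨h2, h3, h4⟩, ⟨h5, h6⟩, hrel e⟩

omit [WellFoundedLT I] in
/-- reading a countable family of values continuously -/
theorem exists_read {C : FE → Prop} {M : GG I → Prop} (hCM : Adm C M) {S : Set I}
    (hF : Fus C M S) {V J : Type} [Nonempty V] [Encodable J] (R : J → V → Set (GG I))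
    (hopen : ∀ j v p r, InS S p → InS S r → p ∈ R j v → p * r ∈ R j v)
    (hd : ∀ j a, InS S a → M a → ∃ r, InS S r ∧ CG C r ∧ ∃ v, a * r ∈ R j v) :
    ∃ t, InS S t ∧ CG C t ∧ ∃ (φ : J → Om I → V) (A : Set I), A.Countable ∧ A ⊆ S ∧
      (∀ j x, ∀ᶠ x' in N A x, φ j x' = φ j x) ∧
      ∀ j y, ∃ (F : Finset I) (n : ℕ), ↑F ⊆ A ∧ t * iota F n y ∈ R j (φ j y) := by
  classical
  obtain ⟨t, ht, htC, -, h5⟩ := hF (fun k => {q | ∀ j : J, Encodable.encode j = k →
      ∃ v, q ∈ R j v})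
    (fun k p r hp hr h j hj => by
      obtain ⟨v, hv⟩ := h j hj
      exact ⟨v, hopen j v p r hp hr hv⟩)
    (fun k a ha hMa => by
      by_cases h : ∃ j : J, Encodable.encode j = k
      · obtain ⟨j, hj⟩ := h
        obtain ⟨r, hr, hrC, v, hv⟩ := hd j a ha hMa
        refine ⟨r, hr, hrC, fun j' hj' => ⟨v, ?_⟩⟩
        have : j' = j := Encodable.encode_injective (hj'.trans hj.symm)
        rw [this]
        exact hv
      · exact ⟨1, InS.one, CG.one hCM.cls, fun j hj => absurd ⟨j, hj⟩ h⟩) ∅ (by simp) 0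
  have key : ∀ j : J, ∃ (φ : Om I → V) (A : Set I), A.Countable ∧ A ⊆ S ∧
      (∀ x, ∀ᶠ x' in N A x, φ x' = φ x) ∧
      ∀ y, ∃ (F : Finset I) (n : ℕ), ↑F ⊆ A ∧ t * iota F n y ∈ R j (φ y) := by
    intro j
    obtain ⟨A, hA, hAS, h6⟩ := h5 (Encodable.encode j)
    have h7 : ∀ y, ∃ F : Finset I, ↑F ⊆ A ∧ ∃ n, ∃ v, t * iota F n y ∈ R j v := by
      intro y
      obtain ⟨F, hF, n, h8⟩ := h6 y
      exact ⟨F, hF, n, h8 j rfl⟩
    obtain ⟨Fs, ns, xs, idx, h1, h2, h3⟩ := exists_idx hA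
      (fun F n y => ∃ v, t * iota F n y ∈ R j v) h7
      (fun F n y y' hag ⟨m, hm⟩ => ⟨m, by rw [iota_congr hag]; exact hm⟩)
    have h4 : ∀ k, ∃ v, (∃ v, t * iota (Fs k) (ns k) (xs k) ∈ R j v) →
        t * iota (Fs k) (ns k) (xs k) ∈ R j v := by
      intro k
      by_cases h : ∃ v, t * iota (Fs k) (ns k) (xs k) ∈ R j v
      · obtain ⟨v, hv⟩ := h
        exact ⟨v, fun _ => hv⟩
      · exact ⟨Classical.arbitrary V, fun h' => absurd h' h⟩
    choose v hv using h4
    refine ⟨fun y => v (idx y), A, hA, hAS, ?_, ?_⟩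
    · intro x
      filter_upwards [h2 x] with x' h5
      rw [h5]
    · intro y
      obtain ⟨h5, h6⟩ := h3 y
      refine ⟨Fs (idx y), ns (idx y), h1 _, ?_⟩
      rw [iota_congr h5]
      exact hv _ h6
  choose φ A hA hAS hφ hφ' using key
  have : Countable J := Encodable.countable
  refine ⟨t, ht, htC, φ, ⋃ j, A j, countable_iUnion hA, iUnion_subset hAS,
    fun j x => N_anti (subset_iUnion A j) x (hφ j x), fun j y => ?_⟩
  obtain ⟨F, n, h1, h2⟩ := hφ' j y
  exact ⟨F, n, h1.trans (subset_iUnion A j), h2⟩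

end Pool.Agent.H735.FM
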