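import Mathlib
import Pool.Graph.R_pool_sql_team_seeded_620a6dc7.Helper467_LV.Closure
import Pool.Agent.H735.FM.Names

/-!
The index set, and a reflection argument.
-/

set_option autoImplicit false

namespace Pool.Agent.H735.FM

open Set Filter Cardinal
open Pool.Agent.Helper467_LV (pre pre_length pre_zero pre_succ pre_getElem pre_eq_iff pre_take
  pre_eq_of_le ofList pre_ofList pre_eq_of_append apply_of_pre Om N mem_N N_anti N_self
  N_of_agree N_congr N_coord N_pre N_agree tendsto_N tendsto_N_id wt exists_boxes exists_least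
  box_eventually exists_idx exists_enf II mu aleph0_le_mu continuum_le_mu mu_pow mu_mul
  exists_bound exists_bound_countable exists_closure_point extp extp_eq exists_cover mk_Iic_II
  mk_seq_le power_mu)

/-- the embedding `E x` depends on countably many coordinates of `x`, continuously -/
def Cont (E : Om II → FE) : Prop :=
  ∃ A : Set II, A.Countable ∧ ∀ c x, ∀ᶠ x' in N A x, (E x').ev c = (E x).ev c

/-- the index set of the guiding principle: an element of the monoid, and a continuous family of
embeddings -/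
abbrev Wd : Type := GG II × {E : Om II → FE // Cont E}

/-- `E` depends on countably many coordinates below `β` -/
def EBelow (β : II) (E : Om II → FE) : Prop :=
  ∃ A : Set II, A.Countable ∧ A ⊆ Iio β ∧ ∀ x x', (∀ γ ∈ A, x γ = x' γ) → E x = E x'

/-- the index `w` is concerned with the coordinates below `β` only -/
def Below (β : II) (w : Wd) : Prop := InS (Iio β) w.1 ∧ EBelow β w.2.1

theorem mk_FE_le : #FE ≤ 𝔠 := by
  refine (mk_le_of_injective (f := fun e : FE => (e.tr, e.pos)) (fun a b h => ?_)).trans ?_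
  · simp only [Prod.mk.injEq] at h
    exact FE.ext h.1 h.2
  · rw [mk_prod, lift_id, lift_id, ← power_def, ← power_def, ← power_def, mk_nat,
      mk_list_eq_aleph0, aleph0_power_aleph0, ← Cardinal.two_power_aleph0, ← power_mul,
      aleph0_mul_aleph0, two_power_aleph0, Cardinal.mul_eq_self aleph0_le_continuum]

theorem mk_GG_le (β : II) : #{q : GG II // InS (Iio β) q} ≤ mu := by
  classical
  have hA : ∀ q : {q : GG II // InS (Iio β) q}, ∃ a : ℕ → Iic β, ∀ γ ∈ q.1.A ∩ Iio β,
      ∃ m, (a m : II) = γ := fun q =>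
    exists_cover (q.1.A_countable.mono inter_subset_left) inter_subset_right
  choose a ha using hA
  set code : {q : GG II // InS (Iio β) q} → (ℕ → Iic β) × (ℕ → (ℕ → ℕ → ℕ) → FE) :=
    fun q => (a q, fun n z => q.1.E (a q n) (extp (a q) z)) with hcode
  have hS : ∀ q : {q : GG II // InS (Iio β) q}, Supp (q.1.A ∩ Iio β) q.1.E := fun q =>
    q.2.supp q.1.A_supp (isLowerSet_Iio β)
  have key : ∀ q : {q : GG II // InS (Iio β) q}, ∀ n x,
      q.1.E (a q n) x = q.1.E (a q n) (extp (a q) (fun m => x (a q m))) := by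
    intro q n x
    apply (hS q).congr
    intro δ hδ _
    exact (extp_eq (a q) x (ha q δ hδ)).symm
  have hinj : Function.Injective code := by
    intro q q' h
    have h1 : a q = a q' := congrArg Prod.fst h
    have h2 : ∀ n z, q.1.E (a q n) (extp (a q) z) = q'.1.E (a q' n) (extp (a q') z) :=
      fun n z => congrFun (congrFun (congrArg Prod.snd h) n) z
    apply Subtype.ext
    apply GG.ext_E
    funext γ x
    by_cases hγ : ∃ m, (a q m : II) = γ
    · obtain ⟨m, rfl⟩ := hγ
      rw [key q, h2, h1]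
      exact (key q' m x).symm
    · have h3 : ∀ r : {q : GG II // InS (Iio β) q}, a r = a q → r.1.E γ x = 1 := by
        intro r hr
        apply (hS r).1
        intro h4
        apply hγ
        rw [← hr]
        exact ha r γ h4
      rw [h3 q rfl, h3 q' h1.symm]
  refine (mk_le_of_injective hinj).trans ?_
  rw [mk_prod, lift_id, lift_id]
  refine (mul_le_mul' (mk_seq_le β) ?_).trans mu_mul.le
  rw [← power_def, ← power_def, mk_nat, Pool.Agent.Helper467_LV.mk_real]
  refine (power_le_power_right (power_mu mk_FE_le)).trans mu_pow.le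

theorem mk_E_le (β : II) : #{E : Om II → FE // EBelow β E} ≤ mu := by
  classical
  have hA : ∀ V : {E : Om II → FE // EBelow β E}, ∃ a : ℕ → Iic β,
      ∀ x x', (∀ m, x (a m) = x' (a m)) → V.1 x = V.1 x' := by
    rintro ⟨V, A, hA, hAβ, hV⟩
    obtain ⟨a, ha⟩ := exists_cover hA hAβ
    refine ⟨a, fun x x' h => hV x x' (fun γ hγ => ?_)⟩
    obtain ⟨m, rfl⟩ := ha γ hγ
    exact h m
  choose a ha using hA
  set code : {E : Om II → FE // EBelow β E} → (ℕ → Iic β) × ((ℕ → ℕ → ℕ) → FE) :=
    fun V => (a V, fun z => V.1 (extp (a V) z)) with hcode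
  have hinj : Function.Injective code := by
    intro V V' h
    have h1 : a V = a V' := congrArg Prod.fst h
    have h2 : ∀ z, V.1 (extp (a V) z) = V'.1 (extp (a V') z) :=
      fun z => congrFun (congrArg Prod.snd h) z
    have key : ∀ (V : {E : Om II → FE // EBelow β E}) x,
        V.1 x = V.1 (extp (a V) (fun m => x (a V m))) := by
      intro V x
      apply ha V
      intro m
      exact (extp_eq (a V) x ⟨m, rfl⟩).symm
    apply Subtype.ext
    funext x
    rw [key V x, key V' x, h2, h1]
  refine (mk_le_of_injective hinj).trans ?_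
  rw [mk_prod, lift_id, lift_id]
  refine (mul_le_mul' (mk_seq_le β) ?_).trans mu_mul.le
  rw [← power_def, Pool.Agent.Helper467_LV.mk_real]
  exact power_mu mk_FE_le

theorem mk_below_le (β : II) : #{w : Wd // Below β w} ≤ mu := by
  set f : {w : Wd // Below β w} → {q : GG II // InS (Iio β) q} × {E : Om II → FE // EBelow β E} :=
    fun w => (⟨w.1.1, w.2.1⟩, ⟨w.1.2.1, w.2.2⟩) with hf
  have hinj : Function.Injective f := by
    rintro ⟨⟨q, E⟩, h1⟩ ⟨⟨q', E'⟩, h2⟩ h
    simp only [hf, Prod.mk.injEq, Subtype.mk.injEq] at h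
    apply Subtype.ext
    exact Prod.ext h.1 (Subtype.ext h.2)
  refine (mk_le_of_injective hinj).trans ?_
  simp only [mk_prod, lift_id]
  exact (mul_le_mul' (mk_GG_le β) (mk_E_le β)).trans mu_mul.le

/-- reflection: below some `α` the given sets are dense -/
theorem exists_reflect {J : Type} (hJ : #J ≤ mu) (a₀ : II) (D : J → Wd → Set (GG II))
    (hD : ∀ j w q, ∃ r, q * r ∈ D j w) :
    ∃ α, a₀ < α ∧ ∀ w, Below α w → ∀ j p, InS (Iio α) p → ∃ r, InS (Iio α) r ∧ p * r ∈ D j w := by
  classical
  choose r hr using hD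
  have hb : ∀ j w q, ∃ b : II, InS (Iio b) (r j w q) := by
    intro j w q
    obtain ⟨b, hb⟩ := exists_bound_countable _ (r j w q).A_countable
    exact ⟨b, fun γ hγ x => (r j w q).A_supp.1 γ (fun h => hγ (hb γ h)) x⟩
  choose b hb using hb
  have hF : ∀ β : II, ∃ a, ∀ (q : {q : GG II // InS (Iio β) q}) (w : {w : Wd // Below β w})
      (j : J), b j w.1 q.1 < a := by
    intro β
    obtain ⟨a, ha⟩ := exists_bound (ι := {q : GG II // InS (Iio β) q} × {w : Wd // Below β w} × J)
      (by
        simp only [mk_prod, lift_id]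
        exact (mul_le_mul' (mk_GG_le β) ((mul_le_mul' (mk_below_le β) hJ).trans
          mu_mul.le)).trans mu_mul.le) (fun p => b p.2.2 p.2.1.1 p.1.1)
    exact ⟨a, fun q w j => ha (q, w, j)⟩
  choose F hF using hF
  obtain ⟨α, h1, h2, h3⟩ := exists_closure_point a₀ F
  refine ⟨α, h1, fun w hw j p hp => ?_⟩
  obtain ⟨hw1, A, hA, hAα, hV⟩ := hw
  obtain ⟨b₁, hb₁, hb₁'⟩ := h2 ((p.A ∩ Iio α) ∪ (w.1.A ∩ Iio α) ∪ A)
    (((p.A_countable.mono inter_subset_left).union
      (w.1.A_countable.mono inter_subset_left)).union hA)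
    (union_subset (union_subset inter_subset_right inter_subset_right) hAα)
  have hS : ∀ q : GG II, InS (Iio α) q → (∀ x ∈ q.A ∩ Iio α, x < b₁) → InS (Iio b₁) q := by
    intro q hq h γ hγ x
    apply (hq.supp q.A_supp (isLowerSet_Iio α)).1
    exact fun h' => hγ (h γ h')
  have hp' : InS (Iio b₁) p := hS p hp (fun x hx => hb₁' x (Or.inl (Or.inl hx)))
  have hw' : Below b₁ w := ⟨hS w.1 hw1 (fun x hx => hb₁' x (Or.inl (Or.inr hx))),
    A, hA, fun x hx => hb₁' x (Or.inr hx), hV⟩
  refine ⟨r j w p, ?_, hr j w p⟩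
  apply (hb j w p).mono
  intro γ hγ
  exact (mem_Iio.mp hγ).trans ((hF b₁ ⟨p, hp'⟩ ⟨w, hw'⟩ j).trans (h3 b₁ hb₁))

end Pool.Agent.H735.FM
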