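import Mathlib
import Pool.Agent.H735.FM.Closure

/-!
The guiding principle is forced.
-/

set_option autoImplicit false

namespace Pool.Agent.H735.FM

open Set Filter
open Pool.Agent.Helper126.Sus.Forc
open Pool.Agent.W876.Two.Gen (IsFun)
open Pool.Agent.Helper467_LV (pre pre_length pre_zero pre_succ pre_getElem pre_eq_iff pre_take
  pre_eq_of_le ofList pre_ofList pre_eq_of_append apply_of_pre Om N mem_N N_anti N_self
  N_of_agree N_congr N_coord N_pre N_agree tendsto_N tendsto_N_id wt exists_boxes exists_least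
  box_eventually exists_idx exists_enf II mu exists_bound_countable continuum_le_mu
  aleph0_le_mu mu_mul)

/-- the name of the embedding with index `w` -/
def Tn (w : Wd) (u s : List ℕ) : Set (GG II) := vn w.1 (fun x => (w.2.1 x).tr u) u s

/-- the name of its free positions -/
def Tpn (w : Wd) (u : List ℕ) (l m : ℕ) : Set (GG II) := vn w.1 (fun x => (w.2.1 x).pos u l) l m

theorem Tn_emb (w : Wd) (q : GG II) : q ∈ EmbN (Tn w) (Tpn w) := by
  obtain ⟨p, E, A, hA, hE⟩ := w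
  exact embN_vn p q (fun c x => N_anti (subset_univ A) x (hE c x))

/-- gluing embedding values which pairwise satisfy the relation -/
theorem exists_FE {tr : List ℕ → List ℕ} {pos : List ℕ → ℕ → ℕ} (h : IsEmb tr pos) :
    ∃ e : FE, e.tr = tr ∧ e.pos = pos := by
  have h1 : ∀ u a, ∃ c, tr u ++ [c] <+: tr (u ++ [a]) := by
    intro u a
    obtain ⟨-, c, hc, -⟩ := h u a a 0
    exact ⟨c, hc⟩
  choose j hj using h1
  have huniq : ∀ u a c, tr u ++ [c] <+: tr (u ++ [a]) → c = j u a := by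
    intro u a c hc
    have h2 := List.prefix_of_prefix_length_le hc (hj u a) (by simp)
    simpa using h2.eq_of_length (by simp)
  refine ⟨⟨tr, pos, fun u => ?_, fun u => ⟨j u, ?_, ?_, hj u⟩⟩, rfl, rfl⟩
  · apply strictMono_nat_of_lt_succ
    intro l
    exact (h u 0 0 l).1
  · intro a b hab
    obtain ⟨-, c, hc1, -, hc2⟩ := h u a b 0
    apply hc2
    rw [huniq u a c hc1, hab]
    exact hj u b
  · intro a l hl
    obtain ⟨-, c, hc1, hc2, -⟩ := h u a a l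
    rw [← huniq u a c hc1]
    exact hc2 hl

theorem guide_main {p₁ : GG II} {F : Wd → List ℕ → List ℕ → Set (GG II)}
    {G : Wd → List ℕ → ℕ → ℕ → Set (GG II)} (hFG : ∀ w, p₁ ∈ EmbN (F w) (G w)) {α : II}
    (hp₁ : InS (Iio α) p₁)
    (hα1 : ∀ w, Below α w → ∀ u p, InS (Iio α) p →
      ∃ r, InS (Iio α) r ∧ ∃ s, p₁ * (p * r) ∈ meets (F w u s))
    (hα2 : ∀ w, Below α w → ∀ u l p, InS (Iio α) p →
      ∃ r, InS (Iio α) r ∧ ∃ m, p₁ * (p * r) ∈ meets (G w u l m))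
    {p₂ : GG II} (hp₂ : p₂ ≤ p₁) :
    ∃ p', p' ≤ p₂ ∧ ∃ w : Wd, ∀ q ≤ p', q ∈ fall fun n => fex fun u : List ℕ => fex fun s =>
      fex fun t => fand (fground (u.length = n))
        (fand (meets (F w u s)) (fand (meets (Tn w s t)) (ExtN (gen α) t))) := by
  classical
  set q₀ := low α p₂ with hq₀
  set u₀ := up α p₂ with hu₀
  have hpq : q₀ * u₀ = p₂ := low_mul_up α p₂
  obtain ⟨e', he'⟩ := hp₂
  have hq₀' : q₀ = p₁ * low α e' := by
    rw [hq₀, he', low_mul, low_of_inS hp₁]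
  have hq₀le : q₀ ≤ p₁ := ⟨_, hq₀'⟩
  set w : Wd := (q₀, ⟨fun x => p₂.E α x, p₂.A ∩ Iio α, p₂.A_countable.mono inter_subset_left,
    fun c x => p₂.A_supp.2 α x c⟩) with hw
  have hBw : Below α w := ⟨low_inS α p₂, p₂.A ∩ Iio α, p₂.A_countable.mono inter_subset_left,
    inter_subset_right, fun x x' hx => p₂.A_supp.congr (fun δ h1 h2 => hx δ ⟨h1, h2⟩)⟩
  -- reading the embedding
  obtain ⟨r₁, hr₁, -, ψ, D, hD, hDα, hψ, hR⟩ := exists_read (I := II) adm_true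
    (fus_Iio adm_true α) (V := List ℕ ⊕ ℕ) (J := List ℕ ⊕ (List ℕ × ℕ))
    (fun j v => {a | match j, v with
      | Sum.inl u, Sum.inl s => q₀ * a ∈ meets (F w u s)
      | Sum.inr c, Sum.inr m => q₀ * a ∈ meets (G w c.1 c.2 m)
      | _, _ => False})
    (by
      rintro (u | ⟨u, l⟩) (s | m) a r _ _ h
      · show q₀ * (a * r) ∈ meets (F w u s)
        rw [← mul_assoc]
        exact meets_down h (GG.mul_le _ _)
      · exact h
      · exact h
      · show q₀ * (a * r) ∈ meets (G w u l m)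
        rw [← mul_assoc]
        exact meets_down h (GG.mul_le _ _))
    (by
      rintro (u | ⟨u, l⟩) a ha -
      · obtain ⟨r, hr, s, hs⟩ := hα1 w hBw u (low α e' * a) ((low_inS α e').mul ha)
        refine ⟨r, hr, fun _ _ => trivial, Sum.inl s, ?_⟩
        show q₀ * (a * r) ∈ meets (F w u s)
        rw [hq₀']
        have : p₁ * low α e' * (a * r) = p₁ * (low α e' * a * r) := by simp only [mul_assoc]
        rw [this]
        exact hs
      · obtain ⟨r, hr, m, hm⟩ := hα2 w hBw u l (low α e' * a) ((low_inS α e').mul ha)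
        refine ⟨r, hr, fun _ _ => trivial, Sum.inr m, ?_⟩
        show q₀ * (a * r) ∈ meets (G w u l m)
        rw [hq₀']
        have : p₁ * low α e' * (a * r) = p₁ * (low α e' * a * r) := by simp only [mul_assoc]
        rw [this]
        exact hm)
  have hRF : ∀ u y, ∃ s, ψ (Sum.inl u) y = Sum.inl s ∧ ∃ (F' : Finset II) (n : ℕ), ↑F' ⊆ D ∧
      q₀ * (r₁ * iota F' n y) ∈ meets (F w u s) := by
    intro u y
    obtain ⟨F', n, h1, h2⟩ := hR (Sum.inl u) y
    rcases h3 : ψ (Sum.inl u) y with s | m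
    · rw [h3] at h2
      exact ⟨s, rfl, F', n, h1, h2⟩
    · rw [h3] at h2
      exact absurd h2 id
  have hRG : ∀ u l y, ∃ m, ψ (Sum.inr (u, l)) y = Sum.inr m ∧ ∃ (F' : Finset II) (n : ℕ),
      ↑F' ⊆ D ∧ q₀ * (r₁ * iota F' n y) ∈ meets (G w u l m) := by
    intro u l y
    obtain ⟨F', n, h1, h2⟩ := hR (Sum.inr (u, l)) y
    rcases h3 : ψ (Sum.inr (u, l)) y with s | m
    · rw [h3] at h2
      exact absurd h2 id
    · rw [h3] at h2
      exact ⟨m, rfl, F', n, h1, h2⟩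
  choose tr htr htr' using hRF
  choose pos hpos hpos' using hRG
  -- the values form an embedding
  have hunF : ∀ (q : GG II), q ≤ p₁ → ∀ u s s', q ∈ meets (F w u s) → q ∈ meets (F w u s') →
      s = s' := by
    intro q hq u s s' h1 h2
    obtain ⟨_, _, h3⟩ := mem_fimp.1 ((hFG w).1.1.2 u s s') q hq ⟨h1, h2⟩
    exact h3
  have hunG : ∀ (q : GG II), q ≤ p₁ → ∀ u l m m', q ∈ meets (G w u l m) →
      q ∈ meets (G w u l m') → m = m' := by
    intro q hq u l m m' h1 h2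
    obtain ⟨_, _, h3⟩ := mem_fimp.1 (((hFG w).1.2 u).2 l m m') q hq ⟨h1, h2⟩
    exact h3
  have hemb : ∀ y, IsEmb (fun u => tr u y) (fun u l => pos u l y) := by
    intro y u a b l
    obtain ⟨F₁, n₁, -, h1⟩ := htr' u y
    obtain ⟨F₂, n₂, -, h2⟩ := htr' (u ++ [a]) y
    obtain ⟨F₃, n₃, -, h3⟩ := htr' (u ++ [b]) y
    obtain ⟨F₄, n₄, -, h4⟩ := hpos' u l y
    obtain ⟨F₅, n₅, -, h5⟩ := hpos' u (l + 1) y
    rw [← mul_assoc] at h1 h2 h3 h4 h5
    set Fu := F₁ ∪ F₂ ∪ F₃ ∪ F₄ ∪ F₅ with hFu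
    set nu := n₁ + n₂ + n₃ + n₄ + n₅ with hnu
    have hag := iota_agree Fu nu y
    have k1 := meets_of_box h1 (r := iota Fu nu y) (fun v γ hγ i hi =>
      hag v γ (by simp [hFu, hγ]) i (by omega))
    have k2 := meets_of_box h2 (r := iota Fu nu y) (fun v γ hγ i hi =>
      hag v γ (by simp [hFu, hγ]) i (by omega))
    have k3 := meets_of_box h3 (r := iota Fu nu y) (fun v γ hγ i hi =>
      hag v γ (by simp [hFu, hγ]) i (by omega))
    have k4 := meets_of_box h4 (r := iota Fu nu y) (fun v γ hγ i hi =>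
      hag v γ (by simp [hFu, hγ]) i (by omega))
    have k5 := meets_of_box h5 (r := iota Fu nu y) (fun v γ hγ i hi =>
      hag v γ (by simp [hFu, hγ]) i (by omega))
    set Q := q₀ * r₁ * iota Fu nu y with hQ
    have hQp : Q ≤ p₁ := ((GG.mul_le _ _).trans (GG.mul_le _ _)).trans hq₀le
    obtain ⟨Q₁, hQ₁, s, g1⟩ := mem_fex.1 ((hFG w).2 u a b l) Q hQp
    obtain ⟨Q₂, hQ₂, t, g2⟩ := mem_fex.1 g1 Q₁ le_rfl
    obtain ⟨Q₃, hQ₃, t', g3⟩ := mem_fex.1 g2 Q₂ le_rfl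
    obtain ⟨Q₄, hQ₄, m, g4⟩ := mem_fex.1 g3 Q₃ le_rfl
    obtain ⟨Q₅, hQ₅, m', ⟨g5, g6, g7⟩, ⟨g8, g9⟩, g10⟩ := mem_fex.1 g4 Q₄ le_rfl
    have hQ₅Q : Q₅ ≤ Q := hQ₅.trans (hQ₄.trans (hQ₃.trans (hQ₂.trans hQ₁)))
    have e1 := hunF Q₅ (hQ₅Q.trans hQp) u _ _ (meets_down k1 hQ₅Q) g5
    have e2 := hunF Q₅ (hQ₅Q.trans hQp) (u ++ [a]) _ _ (meets_down k2 hQ₅Q) g6
    have e3 := hunF Q₅ (hQ₅Q.trans hQp) (u ++ [b]) _ _ (meets_down k3 hQ₅Q) g7
    have e4 := hunG Q₅ (hQ₅Q.trans hQp) u l _ _ (meets_down k4 hQ₅Q) g8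
    have e5 := hunG Q₅ (hQ₅Q.trans hQp) u (l + 1) _ _ (meets_down k5 hQ₅Q) g9
    show EmbRel a b l (tr u y) (tr (u ++ [a]) y) (tr (u ++ [b]) y) (pos u l y) (pos u (l + 1) y)
    rw [e1, e2, e3, e4, e5]
    exact g10
  choose h hh1 hh2 using fun y => exists_FE (hemb y)
  have hhD : ∀ c x, ∀ᶠ x' in N D x, (h x').ev c = (h x).ev c := by
    rintro ⟨u, l⟩ x
    filter_upwards [hψ (Sum.inl u) x, hψ (Sum.inr (u, l)) x] with x' k1 k2
    rw [htr, htr] at k1
    rw [hpos, hpos] at k2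
    show ((h x').tr u, (h x').pos u l) = ((h x).tr u, (h x).pos u l)
    rw [hh1, hh1, hh2, hh2]
    exact Prod.ext (Sum.inl_injective k1) (Sum.inr_injective k2)
  -- the new condition
  have hE₂S : Supp (D ∪ {α}) (fun γ x => if γ = α then h x else 1) := by
    constructor
    · intro γ hγ x
      exact if_neg (fun h => hγ (Or.inr h))
    · intro γ x c
      by_cases hγ : γ = α
      · subst hγ
        simp only [if_true]
        exact N_anti (show D ⊆ (D ∪ {γ}) ∩ Iio γ from fun δ hδ => ⟨Or.inl hδ, hDα hδ⟩) x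
          (hhD c x)
      · simp only [if_neg hγ]
        exact Filter.Eventually.of_forall (fun _ => trivial)
  set t₂ : GG II := ⟨fun γ x => if γ = α then h x else 1, D ∪ {α},
    hD.union (countable_singleton α), hE₂S⟩ with ht₂
  have ht₂S : InS {α} t₂ := fun γ hγ x => if_neg hγ
  have ht₂E : ∀ x, t₂.E α x = h x := fun x => if_pos rfl
  set p' := p₂ * (r₁ * t₂) with hp'
  obtain ⟨u₁, hu₁, hu₁'⟩ := exists_comm (up_inS α p₂) hr₁
  have hu₁S : InS (Ici α) u₁ := fun γ hγ x => by rw [hu₁, up_inS α p₂ γ hγ]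
  have hp'' : p' = q₀ * (r₁ * (u₁ * t₂)) := by
    rw [hp', ← hpq]
    calc q₀ * u₀ * (r₁ * t₂) = q₀ * (up α p₂ * r₁) * t₂ := by rw [hu₀]; simp only [mul_assoc]
      _ = _ := by rw [hu₁']; simp only [mul_assoc]
  have hp''' : p' = q₀ * (u₀ * (r₁ * t₂)) := by rw [hp', ← hpq, mul_assoc]
  -- the value of the generic sequence
  have hact : ∀ v, p'.act v α = (p₂.E α (r₁.act v) * h v).map (v α) := by
    intro v
    have h1 : t₂.act v α = (h v).map (v α) := by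
      show (t₂.E α v).map (v α) = _
      rw [ht₂E]
    have h2 : (r₁.act (t₂.act v)) α = t₂.act v α := hr₁.act (by simp) _
    rw [hp', GG.mul_act, GG.mul_act]
    show (p₂.E α (r₁.act (t₂.act v))).map ((r₁.act (t₂.act v)) α) = _
    rw [h2, h1, ← FE.map_mul]
    congr 2
    apply p₂.E_congr
    intro δ hδ
    apply GG.act_congr
    intro ε hε
    exact ht₂S.act (by simpa using (hε.trans_lt hδ).ne) v
  refine ⟨p', GG.mul_le _ _, w, ?_⟩
  rintro q ⟨x₂, hx₂⟩ n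
  rw [mem_fex]
  rintro q₂ ⟨x₃, hx₃⟩
  set x₄ := x₂ * x₃ with hx₄
  have hq₂ : q₂ = p' * x₄ := by rw [hx₃, hx₂, hx₄, mul_assoc]
  set o : Om II := fun _ _ => 0 with ho
  set v := x₄.act o with hv
  set u := pre (v α) n with hu
  set s := (h v).tr u with hs
  set e := p₂.E α (r₁.act v) with he
  set t := e.tr s with ht
  obtain ⟨F₁, n₁, hF₁D, h1⟩ := htr' u v
  -- continuity of the embedding
  have hEc : ∀ᶠ x' in N Set.univ (r₁.act v), (p₂.E α x').ev (s, 0) = e.ev (s, 0) :=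
    N_anti (subset_univ _) _ (p₂.A_supp.2 α (r₁.act v) (s, 0))
  have hEc' : ∀ᶠ x' in N Set.univ v, (p₂.E α (r₁.act x')).ev (s, 0) = e.ev (s, 0) :=
    (r₁.tendsto_act r₁.A_supp (fun _ _ => subset_univ _) v).eventually hEc
  have hhc : ∀ᶠ x' in N Set.univ v, (h x').ev (u, 0) = (h v).ev (u, 0) :=
    N_anti (subset_univ _) _ (hhD (u, 0) v)
  have huc : ∀ᶠ x' in N Set.univ v, pre (x' α) n = u := N_pre v (mem_univ α) n
  have hbx : ∀ᶠ x' in N Set.univ v, ∀ γ ∈ F₁, ∀ i, i < n₁ → x' γ i = v γ i :=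
    N_agree v F₁ (subset_univ _) n₁
  obtain ⟨F₂, n₂, h2⟩ := exists_refine x₄ o (hEc'.and (hhc.and (huc.and hbx)))
  refine ⟨q₂ * iota F₂ n₂ o, GG.mul_le _ _, u, ?_⟩
  apply fex_intro s
  rintro q₃ ⟨x₅, hx₅⟩
  apply fex_intro t
  rintro q₄ ⟨x₆, hx₆⟩
  set z := x₄ * iota F₂ n₂ o * x₅ * x₆ with hz
  have hq₄ : q₄ = p' * z := by
    rw [hx₆, hx₅, hq₂, hz]
    simp only [mul_assoc]
  have hzQ : ∀ v', (p₂.E α (r₁.act (z.act v'))).tr s = t ∧ (h (z.act v')).tr u = s ∧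
      pre (z.act v' α) n = u ∧ ∀ γ ∈ F₁, ∀ i, i < n₁ → z.act v' γ i = v γ i := by
    intro v'
    have h3 := h2 (x₅.act (x₆.act v'))
    rw [hz, GG.mul_act, GG.mul_act, GG.mul_act]
    exact ⟨congrArg Prod.fst h3.1, congrArg Prod.fst h3.2.1, h3.2.2.1, h3.2.2.2⟩
  refine ⟨?_, ?_, ?_, ?_⟩
  · show u.length = n
    rw [hu, pre_length]
  · -- the value of `F`
    have hsu : tr u v = s := by rw [hs, hh1]
    rw [hsu, ← mul_assoc] at h1
    have h3 : q₄ = q₀ * r₁ * (u₁ * (t₂ * z)) := by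
      rw [hq₄, hp'']
      simp only [mul_assoc]
    rw [h3]
    apply meets_of_box h1
    intro v' γ hγ i hi
    have hγα : γ < α := hDα (hF₁D hγ)
    rw [GG.mul_act, GG.mul_act, hu₁S.act (by simpa using hγα), ht₂S.act (by simpa using hγα.ne)]
    exact (hzQ v').2.2.2 γ hγ i hi
  · -- the value of `T`
    have h3 : q₄ = q₀ * (u₀ * (r₁ * t₂) * z) := by
      rw [hq₄, hp''']
      simp only [mul_assoc]
    rw [h3]
    apply mem_vn
    intro v'
    show (p₂.E α ((u₀ * (r₁ * t₂) * z).act v')).tr s = t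
    rw [← (hzQ v').1]
    congr 1
    apply p₂.E_congr
    intro δ hδ
    rw [GG.mul_act, GG.mul_act, (up_inS α p₂).act (by simpa using hδ), GG.mul_act]
    apply GG.act_congr
    intro ε hε
    exact ht₂S.act (by simpa using (hε.trans_lt hδ).ne) _
  · -- the generic sequence
    intro i hi
    apply mem_gen
    intro v'
    rw [hq₄, GG.mul_act, hact]
    have h3 := (p₂.E α (r₁.act (z.act v')) * h (z.act v')).map_pre (z.act v' α) n
    obtain ⟨g1, g2, g3, -⟩ := hzQ v'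
    rw [g3, FE.mul_tr, g2, g1] at h3
    rw [List.getD_eq_getElem _ _ hi]
    have h4 : (pre ((p₂.E α (r₁.act (z.act v')) * h (z.act v')).map (z.act v' α)) t.length)[i]'(by
        rw [pre_length]; exact hi) = t[i] := by
      simp only [h3]
    rw [← h4, pre_getElem]

/-- the guiding principle is forced -/
theorem guide_forced (p : GG II) : p ∈ GuideN (K := ℕ → ℕ) Tn := by
  intro F G
  rw [mem_fimp]
  intro p₁ _ hFG
  obtain ⟨a₀, ha₀⟩ := exists_bound_countable _ p₁.A_countable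
  have hJ : Cardinal.mk ((ℕ → ℕ) × (List ℕ ⊕ (List ℕ × ℕ))) ≤ mu := by
    have h1 : Cardinal.mk (List ℕ ⊕ (List ℕ × ℕ)) ≤ Cardinal.aleph0 := Cardinal.mk_le_aleph0
    have h2 : Cardinal.mk (ℕ → ℕ) ≤ mu := by
      rw [← Cardinal.power_def, Cardinal.mk_nat, Cardinal.aleph0_power_aleph0]
      exact continuum_le_mu
    rw [Cardinal.mk_prod, Cardinal.lift_id, Cardinal.lift_id]
    exact (mul_le_mul' h2 (h1.trans aleph0_le_mu)).trans mu_mul.le
  obtain ⟨α, hα1, hα2⟩ := exists_reflect hJ a₀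
    (fun j w => {q | match j.2 with
      | Sum.inl u => ∃ s, p₁ * q ∈ meets (F j.1 w u s)
      | Sum.inr c => ∃ m, p₁ * q ∈ meets (G j.1 w c.1 c.2 m)}) (by
      rintro ⟨ξ, u | ⟨u, l⟩⟩ w q
      · obtain ⟨r, ⟨t, ht⟩, s, h⟩ := mem_fex.1 ((hFG ξ w).1.1.1 u) (p₁ * q) (GG.mul_le _ _)
        exact ⟨t, s, by rw [← mul_assoc, ← ht]; exact h⟩
      · obtain ⟨r, ⟨t, ht⟩, m, h⟩ := mem_fex.1 (((hFG ξ w).1.2 u).1 l) (p₁ * q) (GG.mul_le _ _)
        exact ⟨t, m, by rw [← mul_assoc, ← ht]; exact h⟩)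
  have hp₁ : InS (Iio α) p₁ := fun γ hγ x => p₁.A_supp.1 γ (fun h => hγ ((ha₀ γ h).trans hα1)) x
  refine ⟨p₁, le_rfl, ?_⟩
  apply fex_intro (gen α)
  intro q hq
  refine ⟨gen_isFun α q, ?_⟩
  intro ξ
  rw [mem_fex]
  intro p₂ hp₂
  obtain ⟨p', hp', w, h⟩ := guide_main (fun w => hFG ξ w) hp₁
    (fun w hw u p hp => hα2 w hw (ξ, Sum.inl u) p hp)
    (fun w hw u l p hp => hα2 w hw (ξ, Sum.inr (u, l)) p hp) (hp₂.trans hq)
  exact ⟨p', hp', w, h p' le_rfl⟩

end Pool.Agent.H735.FM
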