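import Mathlib
import Pool.Agent.H735.FM.Names

/-!
The functions of the ground model are an unbounded family.
-/

set_option autoImplicit false

namespace Pool.Agent.H735.FM

open Set Filter
open Pool.Agent.Helper126.Sus.Forc
open Pool.Agent.W876.Two.Gen (IsFun)
open Pool.Agent.Helper467_LV (pre pre_length pre_zero pre_succ pre_getElem pre_eq_iff pre_take
  pre_eq_of_le ofList pre_ofList pre_eq_of_append apply_of_pre Om N mem_N N_anti N_self
  N_of_agree N_congr N_coord N_pre N_agree tendsto_N tendsto_N_id wt wt_nil exists_boxes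
  exists_least box_eventually exists_idx exists_enf)

/-! ### Embeddings inserting zeros -/

/-- the embedding `e` inserts labels `0` only -/
def ZI (e : FE) : Prop :=
  (∀ u p, e.pos u p = p) ∧ (∃ k, e.tr [] = List.replicate k 0) ∧
    ∀ u a, ∃ k, e.tr (u ++ [a]) = e.tr u ++ [a] ++ List.replicate k 0

theorem ZI.replicate {e : FE} (he : ZI e) (u : List ℕ) (k : ℕ) :
    ∃ m, e.tr (u ++ List.replicate k 0) = e.tr u ++ List.replicate m 0 := by
  induction k with
  | zero => exact ⟨0, by simp⟩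
  | succ k ih =>
    obtain ⟨m, hm⟩ := ih
    obtain ⟨j, hj⟩ := he.2.2 (u ++ List.replicate k 0) 0
    refine ⟨m + 1 + j, ?_⟩
    rw [List.replicate_succ', ← List.append_assoc, hj, hm, List.replicate_add,
      List.replicate_succ' (n := m)]
    simp only [List.append_assoc]

theorem zi_one : ZI 1 := ⟨fun _ _ => rfl, ⟨0, rfl⟩, fun u a => ⟨0, by simp⟩⟩

theorem ZI.mul {e f : FE} (he : ZI e) (hf : ZI f) : ZI (e * f) := by
  refine ⟨fun u p => by rw [FE.mul_pos, hf.1, he.1], ?_, fun u a => ?_⟩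
  · obtain ⟨k, hk⟩ := hf.2.1
    obtain ⟨m, hm⟩ := he.replicate [] k
    obtain ⟨j, hj⟩ := he.2.1
    refine ⟨j + m, ?_⟩
    rw [FE.mul_tr, hk]
    rw [List.nil_append] at hm
    rw [hm, hj, List.replicate_add]
  · obtain ⟨k, hk⟩ := hf.2.2 u a
    obtain ⟨m, hm⟩ := he.replicate (f.tr u ++ [a]) k
    obtain ⟨j, hj⟩ := he.2.2 (f.tr u) a
    refine ⟨j + m, ?_⟩
    rw [FE.mul_tr, FE.mul_tr, hk, hm, hj, List.replicate_add]
    simp only [List.append_assoc]

theorem zi_br (n : ℕ) (e : List ℕ → FE) (he : ∀ s, ZI (e s)) : ZI (brF n e) := by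
  refine ⟨fun u p => ?_, ⟨0, ?_⟩, fun u a => ?_⟩
  · rcases small_or_fr n u with hu | ⟨s, r, hs, rfl⟩
    · exact brF_pos_small hu p
    · rw [brF_pos hs, (he s).1]
  · rw [brF_tr_small (by simp)]
    rfl
  · rcases small_or_fr n u with hu | ⟨s, r, hs, rfl⟩
    · rw [brF_tr_small hu]
      rcases le_or_gt (wt (u ++ [a])) n with h | h
      · exact ⟨0, by rw [brF_tr_small h]; simp⟩
      · obtain ⟨k, hk⟩ := (he (u ++ [a])).2.1
        have h1 : IsFr n (u ++ [a]) := ⟨h, u, a, rfl, hu⟩
        have h2 := brF_tr (e := e) h1 []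
        rw [List.append_nil] at h2
        exact ⟨k, by rw [h2, hk]⟩
    · obtain ⟨k, hk⟩ := (he s).2.2 r a
      refine ⟨k, ?_⟩
      rw [List.append_assoc, brF_tr hs, brF_tr hs, hk]
      simp only [List.append_assoc]

theorem zi_inf (e : ℕ → FE) (he : ∀ j, ZI (e j)) : ZI (FEinf e) := by
  classical
  by_cases h : Conv e
  · obtain ⟨K, hK⟩ := id h
    have hfp : ∀ n, ZI (fp e n) := by
      intro n
      induction n with
      | zero => exact zi_one
      | succ n ih => exact ih.mul (he n)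
    have htr : ∀ u n, K ≤ n → wt u ≤ n → (FEinf e).tr u = (fp e n).tr u := fun u n h1 h2 =>
      congrArg Prod.fst (FEinf_ev hK (u, 0) h1 (by simpa using h2))
    refine ⟨fun u p => ?_, ?_, fun u a => ?_⟩
    · have h1 := congrArg Prod.snd (FEinf_ev hK (u, p) (le_max_left K (wt u + p))
        (le_max_right _ _))
      have h2 : (FEinf e).pos u p = (fp e (max K (wt u + p))).pos u p := h1
      rw [h2, (hfp _).1]
    · obtain ⟨k, hk⟩ := (hfp K).2.1
      exact ⟨k, by rw [htr [] K le_rfl (by simp), hk]⟩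
    · obtain ⟨k, hk⟩ := (hfp (max K (wt (u ++ [a])))).2.2 u a
      refine ⟨k, ?_⟩
      rw [htr (u ++ [a]) _ (le_max_left _ _) (le_max_right _ _), hk,
        htr u _ (le_max_left _ (wt (u ++ [a])))
          (le_trans (by simp) (le_max_right _ (wt (u ++ [a]))))]
  · unfold FEinf
    rw [dif_neg h]
    exact zi_one

theorem cls_ZI : Cls ZI := ⟨zi_one, fun _ _ he hf => he.mul hf, zi_br, zi_inf⟩

theorem zi_sh (k : ℕ) : ZI (sh (List.replicate k 0)) :=
  ⟨fun _ _ => rfl, ⟨k, by simp⟩, fun u a => ⟨0, by simp⟩⟩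

theorem ZI.map_ev {e : FE} (he : ZI e) {y : ℕ → ℕ} {m : ℕ} (hy : ∀ i, m ≤ i → y i = 0) :
    ∀ i, (e.tr (pre y m)).length ≤ i → e.map y i = 0 := by
  intro i hi
  have h1 : pre y (m + (i + 1)) = pre y m ++ List.replicate (i + 1) 0 := by
    rw [pre_add]
    congr 1
    apply List.ext_getElem
    · simp [pre_length]
    · intro j h1 h2
      rw [pre_getElem]
      simp only [List.getElem_replicate]
      exact hy _ (by omega)
  obtain ⟨k, hk⟩ := he.replicate (pre y m) (i + 1)
  rw [← h1] at hk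
  have h2 := e.map_pre y (m + (i + 1))
  have h3 : i < (e.tr (pre y (m + (i + 1)))).length := by
    have := e.length_le (pre y (m + (i + 1)))
    rw [pre_length] at this
    omega
  have h4 : e.map y i = (e.tr (pre y (m + (i + 1))))[i] := by
    have h5 : (pre (e.map y) (e.tr (pre y (m + (i + 1)))).length)[i]'(by
        rw [pre_length]; exact h3) = (e.tr (pre y (m + (i + 1))))[i] := by
      simp only [h2]
    rw [← h5, pre_getElem]
  rw [h4]
  have h6 : (e.tr (pre y (m + (i + 1))))[i]? = (e.tr (pre y m) ++ List.replicate k 0)[i]? := by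
    rw [hk]
  rw [List.getElem?_append_right hi, List.getElem?_eq_getElem h3, List.getElem?_replicate] at h6
  split_ifs at h6
  simpa using h6

theorem ZI.map_zero {e : FE} (he : ZI e) : e.map (fun _ => 0) = fun _ => 0 := by
  funext i
  rcases le_or_gt (e.tr (pre (fun _ => 0) 0)).length i with h | h
  · exact he.map_ev (fun _ _ => rfl) i h
  · have h1 := e.map_pre (fun _ => 0) 0
    obtain ⟨k, hk⟩ := he.2.1
    have h2 : (pre (e.map (fun _ => 0)) (e.tr (pre (fun _ => 0) 0)).length)[i]'(by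
        rw [pre_length]; exact h) = (e.tr (pre (fun _ => 0) 0))[i] := by
      simp only [h1]
    rw [pre_getElem] at h2
    rw [h2]
    simp only [pre_zero, hk, List.getElem_replicate]

/-! ### Points with finite support -/

section

variable {I : Type}

/-- only finitely many entries of `z` are different from `0` -/
def Fsp (z : Om I) : Prop :=
  {γ | z γ ≠ fun _ => 0}.Finite ∧ ∀ γ, ∃ m, ∀ i, m ≤ i → z γ i = 0

theorem fsp_zero : Fsp (fun _ _ => 0 : Om I) := by
  refine ⟨?_, fun γ => ⟨0, fun _ _ => rfl⟩⟩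
  simp

/-- the points with finite support are countably many, up to the entries outside a countable
set -/
theorem fsp_enum {A : Set I} (hA : A.Countable) : ∃ zs : ℕ → Om I, ∀ z, Fsp z →
    ∃ k, ∀ γ ∈ A, z γ = zs k γ := by
  classical
  have : Countable A := hA.to_subtype
  obtain ⟨e, he⟩ := exists_surjective_nat ((A × ℕ) →₀ ℕ)
  refine ⟨fun k γ i => if h : γ ∈ A then e k (⟨γ, h⟩, i) else 0, fun z hz => ?_⟩
  obtain ⟨hz1, hz2⟩ := hz
  choose m hm using hz2
  have hfin : {p : A × ℕ | z p.1 p.2 ≠ 0}.Finite := by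
    have h1 : {p : A × ℕ | z p.1 p.2 ≠ 0} ⊆
        ⋃ γ ∈ hz1.toFinset.subtype (· ∈ A), {γ} ×ˢ (Set.Iio (m γ.1)) := by
      rintro ⟨γ, i⟩ h
      simp only [mem_ofPred_eq] at h
      simp only [mem_iUnion, Finset.mem_subtype, Finite.mem_toFinset, mem_ofPred_eq,
        mem_prod, mem_singleton_iff, mem_Iio]
      refine ⟨γ, fun h' => h (by rw [h']), rfl, ?_⟩
      by_contra h2
      exact h (hm _ _ (not_lt.mp h2))
    apply Set.Finite.subset _ h1
    apply Set.Finite.biUnion (Finset.finite_toSet _)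
    intro γ _
    exact (Set.finite_singleton _).prod (Set.finite_Iio _)
  obtain ⟨k, hk⟩ := he (Finsupp.onFinset hfin.toFinset (fun p => z p.1 p.2) (fun p hp => by
    rw [Finite.mem_toFinset]; exact hp))
  refine ⟨k, fun γ hγ => ?_⟩
  funext i
  simp only [dif_pos hγ, hk, Finsupp.onFinset_apply]

end

variable {I : Type} [LinearOrder I]

/-- `p` maps points with finite support to points with finite support -/
def Zp (p : GG I) : Prop := ∀ z, Fsp z → Fsp (p.act z)

theorem zp_of_zi {r : GG I} (hr : CG ZI r) : Zp r := by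
  rintro z ⟨h1, h2⟩
  constructor
  · apply h1.subset
    intro γ hγ h
    apply hγ
    show (r.E γ z).map (z γ) = _
    rw [h]
    exact (hr γ z).map_zero
  · intro γ
    obtain ⟨m, hm⟩ := h2 γ
    exact ⟨_, (hr γ z).map_ev hm⟩

theorem zp_rho (F : Finset I) (B : I → List ℕ) : Zp (rho F B) := by
  rintro z ⟨h1, h2⟩
  constructor
  · apply (F.finite_toSet.union h1).subset
    intro γ hγ
    by_cases h : γ ∈ F
    · exact Or.inl h
    · right
      intro h'
      apply hγ
      rw [rho_act, if_neg h]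
      exact h'
  · intro γ
    obtain ⟨m, hm⟩ := h2 γ
    by_cases h : γ ∈ F
    · refine ⟨m + (B γ).length, fun i hi => ?_⟩
      rw [rho_act, if_pos h]
      have h3 := congrFun (unsh_sh (B γ) (z γ)) (i - (B γ).length)
      unfold unsh at h3
      rw [Nat.sub_add_cancel (by omega)] at h3
      rw [h3]
      exact hm _ (by omega)
    · refine ⟨m, fun i hi => ?_⟩
      rw [rho_act, if_neg h]
      exact hm i hi

theorem adm_ZI : Adm ZI (Zp : GG I → Prop) where
  cls := cls_ZI
  mul := fun p r hp hr z hz => by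
    rw [GG.mul_act]
    exact hp _ (hr z hz)
  of := fun _ hr => zp_of_zi hr
  rho := zp_rho

variable [WellFoundedLT I]

/-- every continuous function is, on the range of some element, not dominating some fixed
function -/
theorem exists_unb {A : Set I} (hA : A.Countable) (φ : ℕ → Om I → ℕ)
    (hφ : ∀ n x, ∀ᶠ x' in N A x, φ n x' = φ n x) :
    ∃ (g : ℕ → ℕ) (r : GG I), ∀ x k, ∃ n, k ≤ n ∧ φ n (r.act x) < g n := by
  obtain ⟨zs, hzs⟩ := fsp_enum hA
  set g : ℕ → ℕ := fun n => (Finset.range (n + 1)).sup (fun k => φ n (zs k)) + 1 with hg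
  have hgz : ∀ z, Fsp z → ∀ k, ∃ n, k ≤ n ∧ φ n z < g n := by
    intro z hz k
    obtain ⟨j, hj⟩ := hzs z hz
    refine ⟨max k j, le_max_left _ _, ?_⟩
    have h1 : φ (max k j) z = φ (max k j) (zs j) :=
      N_of_agree (hφ (max k j) (zs j)) (fun γ hγ => hj γ hγ)
    rw [h1]
    have h2 : φ (max k j) (zs j) ≤
        (Finset.range (max k j + 1)).sup (fun i => φ (max k j) (zs i)) :=
      Finset.le_sup (f := fun i => φ (max k j) (zs i))
        (show j ∈ Finset.range (max k j + 1) by rw [Finset.mem_range]; omega)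
    simp only [hg]
    omega
  obtain ⟨t, -, -, -, ht⟩ := fus_univ (I := I) adm_ZI
    (fun k => {q | ∀ x, ∃ n, k ≤ n ∧ φ n (q.act x) < g n})
    (fun k p r _ _ h x => by
      obtain ⟨n, hn, h1⟩ := h (r.act x)
      exact ⟨n, hn, by rw [GG.mul_act]; exact h1⟩)
    (fun k p _ hp => by
      obtain ⟨n, hn, h1⟩ := hgz _ (hp _ fsp_zero) k
      obtain ⟨F, m, h2⟩ := exists_refine p (fun _ _ => 0)
        (N_anti (subset_univ A) _ (hφ n (p.act (fun _ _ => 0))))
      refine ⟨iota F m (fun _ _ => 0), InS.univ _, ?_, fun x => ⟨n, hn, ?_⟩⟩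
      · intro γ x
        unfold iota
        rw [rho_E]
        split_ifs
        · have : pre (fun _ => 0) m = List.replicate m 0 := by
            apply List.ext_getElem
            · simp [pre_length]
            · intro i h1 h2
              rw [pre_getElem]
              simp
          rw [this]
          exact zi_sh m
        · exact zi_one
      · rw [GG.mul_act, h2 x]
        exact h1) ∅ (by simp) 0
  refine ⟨g, t, fun x k => ?_⟩
  obtain ⟨B, -, -, hB⟩ := ht k
  obtain ⟨F, -, n, h1⟩ := hB x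
  obtain ⟨x', hx'⟩ := exists_iota (F := F) (n := n) (y := x) (x := x) (fun _ _ _ _ => rfl)
  obtain ⟨m, hm, h2⟩ := h1 x'
  rw [GG.mul_act, hx'] at h2
  exact ⟨m, hm, h2⟩

/-- the name of a function of the ground model -/
def gn (b : ℕ → ℕ) (n m : ℕ) : Set (GG I) := {_p | b n = m}

omit [WellFoundedLT I] in
theorem gn_isFun (b : ℕ → ℕ) (p : GG I) : p ∈ IsFun (gn b : ℕ → ℕ → Set (GG I)) := by
  constructor
  · intro n
    exact fex_intro (b n) (fun q _ => meets_of_mem rfl)
  · intro n m m'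
    rw [mem_fimp]
    rintro q - ⟨h1, h2⟩
    obtain ⟨_, _, _, h3, _⟩ := h1 q le_rfl
    obtain ⟨_, _, _, h4, _⟩ := h2 q le_rfl
    exact ⟨q, le_rfl, (show b n = m from h3).symm.trans h4⟩

/-- the functions of the ground model are forced to be an unbounded family -/
theorem unb_forced (p : GG I) : p ∈ UnbN (gn : (ℕ → ℕ) → ℕ → ℕ → Set (GG I)) := by
  intro f
  rw [mem_fimp]
  intro q _ hf
  obtain ⟨t, -, -, φ, A, hA, -, hφ, hR⟩ := exists_read (I := I) adm_true (fus_univ adm_true)
    (V := ℕ) (J := ℕ) (fun n v => {a | q * a ∈ meets (f n v)})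
    (fun n v a r _ _ h => by
      show q * (a * r) ∈ meets (f n v)
      rw [← mul_assoc]
      exact meets_down h (GG.mul_le _ _))
    (fun n a _ _ => by
      obtain ⟨r, ⟨s, hs⟩, v, hv⟩ := mem_fex.1 (hf.1 n) (q * a) (GG.mul_le _ _)
      refine ⟨s, InS.univ _, fun _ _ => trivial, v, ?_⟩
      show q * (a * s) ∈ meets (f n v)
      rw [← mul_assoc, ← hs]
      exact hv)
  obtain ⟨g, r, hgr⟩ := exists_unb hA φ hφ
  refine ⟨q * t * r, (GG.mul_le _ _).trans (GG.mul_le _ _), ?_⟩
  apply fex_intro g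
  rintro q₁ ⟨s₁, rfl⟩ k
  rw [mem_fex]
  rintro q₂ ⟨s₂, rfl⟩
  set s := s₁ * s₂ with hs
  set o : Om I := fun _ _ => 0 with ho
  obtain ⟨n, hn, h1⟩ := hgr (s.act o) k
  set y := r.act (s.act o) with hy
  obtain ⟨F, m, -, h2⟩ := hR n y
  obtain ⟨F₂, n₂, h3⟩ := exists_refine (r * s) o (Q := fun x' => ∀ γ ∈ F, ∀ i, i < m →
    x' γ i = y γ i) (by
      rw [GG.mul_act]
      exact N_agree y F (subset_univ _) m)
  refine ⟨q * t * r * s₁ * s₂ * iota F₂ n₂ o, GG.mul_le _ _, n, ?_⟩
  have h4 : q * t * (r * s * iota F₂ n₂ o) ∈ meets (f n (φ n y)) := by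
    apply meets_of_box (F := F) (n := m) (y := y)
    · rw [mul_assoc]
      exact h2
    · intro v γ hγ i hi
      rw [GG.mul_act]
      exact h3 v γ hγ i hi
  have h5 : q * t * r * s₁ * s₂ * iota F₂ n₂ o = q * t * (r * s * iota F₂ n₂ o) := by
    rw [hs]
    simp only [mul_assoc]
  rw [h5]
  apply fex_intro (φ n y)
  intro q₃ hq₃
  apply fex_intro (g n)
  intro q₄ hq₄
  exact ⟨⟨hn, h1⟩, meets_down h4 (hq₄.trans hq₃), meets_of_mem rfl⟩

end Pool.Agent.H735.FM
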